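import Mathlib
import Pool.Agent.LibNM.Defs

set_option autoImplicit false

/-! Definitions for the lower bound theorem for finitely generated (abelian-by-virtually abelian)
groups. -/

namespace Pool.Agent.LibNV

open Polynomial Filter Topology Pool.Agent.LibNM

/-- `M / L` has finite rank. -/
def FinRk {M : Type} [AddCommGroup M] (L : AddSubgroup M) : Prop :=
  ∃ F : Finset M, ∀ m : M, ∃ n : ℤ, n ≠ 0 ∧ n • m ∈ AddSubgroup.closure (F : Set M) ⊔ L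

/-- A faithful torsion-free module `M` of infinite rank over a finitely generated virtually abelian
group `Γ`, all of whose proper quotients have finite rank, finitely generated over the abelian
subgroup `Γ₀` of finite index. -/
structure JI {Γ M : Type} [Group Γ] [AddCommGroup M] (β : Γ →* AddMonoid.End M)
    (Γ₀ : Subgroup Γ) : Prop where
  fg : Group.FG Γ
  normal : Γ₀.Normal
  fin : Γ₀.FiniteIndex
  comm : ∀ a ∈ Γ₀, ∀ b ∈ Γ₀, a * b = b * a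
  faith : ∀ γ, (∀ m, β γ m = m) → γ = 1
  tf : ∀ (n : ℤ) (m : M), n ≠ 0 → n • m = 0 → m = 0
  inf : ¬ FinRk (⊥ : AddSubgroup M)
  quot : ∀ L : AddSubgroup M, L ≠ ⊥ → (∀ γ, ∀ m ∈ L, β γ m ∈ L) → FinRk L
  gen : ∃ F : Finset M, ∀ L : AddSubgroup M, (F : Set M) ⊆ L →
    (∀ γ ∈ Γ₀, ∀ m ∈ L, β γ m ∈ L) → L = ⊤

/-- The same over `ℚ`. -/
structure JIQ {Γ V : Type} [Group Γ] [AddCommGroup V] [Module ℚ V] (ρ : Γ →* Module.End ℚ V)
    (Γ₀ : Subgroup Γ) : Prop where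
  fg : Group.FG Γ
  normal : Γ₀.Normal
  fin : Γ₀.FiniteIndex
  comm : ∀ a ∈ Γ₀, ∀ b ∈ Γ₀, a * b = b * a
  faith : ∀ γ, (∀ x, ρ γ x = x) → γ = 1
  inf : ¬ FiniteDimensional ℚ V
  quot : ∀ L : Submodule ℚ V, L ≠ ⊥ → (∀ γ, ∀ x ∈ L, ρ γ x ∈ L) → FiniteDimensional ℚ (V ⧸ L)
  gen : ∃ F : Finset V, ∀ L : Submodule ℚ V, (F : Set V) ⊆ L →
    (∀ γ ∈ Γ₀, ∀ x ∈ L, ρ γ x ∈ L) → L = ⊤

/-- `φ γ = ‖f (ρ γ v)‖` for an additive map `f` to a good normed field of characteristic zero on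
which the parameter `t` acts as the integer `τ`, and a vector `v` with `f v = 1`. -/
def IsVTest {Γ V : Type} [Group Γ] [AddCommGroup V] [Module ℚ[X] V]
    (ρ : Γ →* AddMonoid.End V) (τ : ℤ) (φ : Γ → ℝ) : Prop :=
  ∃ (K : Type) (_ : NormedField K), GoodField K ∧ CharZero K ∧
    ∃ (f : V →+ K) (v : V), (∀ x, f ((X : ℚ[X]) • x) = (τ : K) * f x) ∧ f v = 1 ∧
      ∀ γ, φ γ = ‖f (ρ γ v)‖

end Pool.Agent.LibNV
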