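import Mathlib
import Pool.Agent.LibNV.Defs

set_option autoImplicit false

/-! [NV V01] Infinite rank in terms of finite sets; stability of infinite rank.

PLAN. `infRank_iff` (→): for `F = {f_1, ..., f_m} ⊆ N` take `m + 1` elements `a_i ∈ N` independent modulo `K`
(`InfRank N K`). If every `x ∈ N` had a power in `closure F ⊔ K`, then `a_i ^ n_i = ∏ f_j ^ c_ij` modulo `K`
(`N` is abelian modulo `K`: work in the commutative group `N ⧸ K.subgroupOf N`, or better in the ℤ-module
`Additive` of it), and `m + 1` vectors `c_i` of `ℤ^m` are linearly dependent: a nonzero vector `d` with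
`∏ a_i ^ (n_i d_i) ∈ K`, contradiction. (Or use `Module.rank ℤ`, as in the private lemmas `N20_fam`, `N20_rank`
and `N20_sum` of Pool/Agent/LibNM/N20.lean, which you may copy.)
(←): build by recursion on `k` a family `a : Fin k → G` of elements of `N` such that no nonzero power of `a i`
lies in `closure {a j | j < i} ⊔ K`; if `(List.ofFn fun i => a i ^ c i).prod ∈ K` and `c ≠ 0`, the last `i` with
`c i ≠ 0` gives a contradiction (induction on `k`: `List.ofFn` with `Fin.snoc`; `List.prod_ofFn`,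
`Fin.prod_univ_castSucc` after passing to the quotient; the characterization is needed for every `k`).
`infRank_sup`: from `infRank_iff` for `N, K` and `F ∪ C` (note `closure (F ∪ C) ⊔ K ≥ closure F ⊔ K'`), used
in the other direction for `N, K'`.
`infRank_torsion`: if `x ^ n ∈ closure F ⊔ K'` then `x ^ n = f * k'` (`K'` is normal: `Subgroup.mem_sup`), and
modulo `K`, where `N` is abelian, `x ^ (n m) = f ^ m * k' ^ m ∈ closure F ⊔ K` for `m ≠ 0` with `k' ^ m ∈ K`. -/

namespace Pool.Agent.LibNV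

open Pool.Agent.LibNM

/-- the commutative quotient -/
private theorem V01_quot {G : Type} [Group G] (N K : Subgroup G) [K.Normal]
    (hab : ∀ a ∈ N, ∀ b ∈ N, a * b * a⁻¹ * b⁻¹ ∈ K) :
    ∃ (V : Type) (_ : AddCommGroup V) (q : N →* Multiplicative V), Function.Surjective q ∧
      ∀ x : N, q x = 1 ↔ (x : G) ∈ K := by
  let cQ : CommGroup (N ⧸ K.subgroupOf N) :=
    { (inferInstance : Group (N ⧸ K.subgroupOf N)) with
      mul_comm := by
        intro x y
        obtain ⟨a, rfl⟩ := QuotientGroup.mk'_surjective (K.subgroupOf N) x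
        obtain ⟨b, rfl⟩ := QuotientGroup.mk'_surjective (K.subgroupOf N) y
        have h1 : (QuotientGroup.mk' (K.subgroupOf N)) (a * b * a⁻¹ * b⁻¹) = 1 := by
          refine (QuotientGroup.eq_one_iff _).2 ?_
          rw [Subgroup.mem_subgroupOf]
          simpa using hab a a.2 b b.2
        simp only [map_mul, map_inv] at h1
        rw [mul_inv_eq_one, mul_inv_eq_iff_eq_mul] at h1
        exact h1 }
  refine ⟨Additive (N ⧸ K.subgroupOf N), inferInstance,
    { toFun := fun x => Multiplicative.ofAdd (Additive.ofMul (QuotientGroup.mk' (K.subgroupOf N) x))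
      map_one' := by rw [map_one]; rfl
      map_mul' := by intro x y; rw [map_mul]; rfl }, ?_, ?_⟩
  · intro y
    obtain ⟨a, ha⟩ := QuotientGroup.mk'_surjective (K.subgroupOf N)
      (Additive.toMul (Multiplicative.toAdd y))
    exact ⟨a, congrArg (fun z => Multiplicative.ofAdd (Additive.ofMul z)) ha⟩
  · intro x
    rw [← Subgroup.mem_subgroupOf, ← QuotientGroup.eq_one_iff x]
    exact Iff.rfl

/-- infinite rank of an abelian group in terms of finite sets -/
private theorem V01_rank (V : Type) [AddCommGroup V] :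
    (∀ k : ℕ, ∃ v : Fin k → V, LinearIndependent ℤ v) ↔
      ∀ F : Finset V, ∃ x : V, ∀ n : ℤ, n ≠ 0 → n • x ∉ AddSubgroup.closure (F : Set V) := by
  constructor
  · intro h F
    by_contra hcon
    push Not at hcon
    obtain ⟨v, hv⟩ := h (F.card + 1)
    choose n hn0 hn using hcon
    have hmem : ∀ i, n (v i) • v i ∈ Submodule.span ℤ (F : Set V) := by
      intro i
      have h1 := hn (v i)
      rw [← Submodule.span_int_eq_addSubgroupClosure] at h1
      exact h1
    have hli : LinearIndependent ℤ (fun i => n (v i) • v i) := by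
      rw [Fintype.linearIndependent_iff] at hv ⊢
      intro g hg i
      have h2 := hv (fun i => g i * n (v i)) (by
        rw [← hg]
        refine Finset.sum_congr rfl fun j _ => ?_
        rw [mul_smul]) i
      exact (mul_eq_zero.1 h2).resolve_right (hn0 (v i))
    have hli2 : LinearIndependent ℤ
        (fun i => (⟨n (v i) • v i, hmem i⟩ : Submodule.span ℤ (F : Set V))) := by
      refine LinearIndependent.of_comp (Submodule.span ℤ (F : Set V)).subtype ?_
      exact hli
    have h3 := hli2.cardinal_le_rank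
    have h4 : Module.rank ℤ (Submodule.span ℤ (F : Set V)) ≤ F.card := rank_span_finset_le F
    rw [Cardinal.mk_fin] at h3
    have h5 := h3.trans h4
    have h6 : F.card + 1 ≤ F.card := by exact_mod_cast h5
    omega
  · intro h k
    induction k with
    | zero => exact ⟨fun i => i.elim0, linearIndependent_empty_type⟩
    | succ k ih =>
      classical
      obtain ⟨v, hv⟩ := ih
      obtain ⟨x, hx⟩ := h (Finset.univ.image v)
      refine ⟨Fin.cons x v, LinearIndependent.finCons' x v hv fun c y hy0 hy => ?_⟩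
      by_contra hc
      refine hx c hc ?_
      rw [← Submodule.span_int_eq_addSubgroupClosure]
      have h1 : c • x = -(y : V) := by
        rw [eq_neg_iff_add_eq_zero]; exact hy
      change c • x ∈ Submodule.span ℤ _
      rw [h1, Finset.coe_image, Finset.coe_univ, Set.image_univ]
      exact neg_mem hy0

/-- infinite rank modulo `K` and independent families in the quotient -/
private theorem V01_inf {G V : Type} [Group G] [AddCommGroup V] (N K : Subgroup G)
    (q : N →* Multiplicative V) (hq : Function.Surjective q)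
    (hK : ∀ x : N, q x = 1 ↔ (x : G) ∈ K) :
    InfRank N K ↔ ∀ k : ℕ, ∃ v : Fin k → V, LinearIndependent ℤ v := by
  have key : ∀ {k : ℕ} (b : Fin k → N) (c : Fin k → ℤ),
      ∑ i, c i • Multiplicative.toAdd (q (b i)) = 0 ↔
        (List.ofFn fun i => (b i : G) ^ c i).prod ∈ K := by
    intro k b c
    have h1 : (List.ofFn fun i => (b i : G) ^ c i).prod =
        (((List.ofFn fun i => b i ^ c i).prod : N) : G) := by
      rw [← Subgroup.coe_subtype, map_list_prod, List.map_ofFn]
      rfl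
    rw [h1, ← hK, map_list_prod, List.map_ofFn, List.prod_ofFn]
    have h2 : (∏ i, (⇑q ∘ fun i => b i ^ c i) i) =
        Multiplicative.ofAdd (∑ i, c i • Multiplicative.toAdd (q (b i))) := by
      rw [ofAdd_sum]
      refine Finset.prod_congr rfl fun i _ => ?_
      simp only [Function.comp, map_zpow]
      rfl
    rw [h2, ofAdd_eq_one]
  refine forall_congr' fun k => ⟨?_, ?_⟩
  · rintro ⟨a, haN, ha⟩
    refine ⟨fun i => Multiplicative.toAdd (q ⟨a i, haN i⟩), ?_⟩
    rw [Fintype.linearIndependent_iff]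
    intro c hc
    have h := ha c ((key (fun i => (⟨a i, haN i⟩ : N)) c).1 hc)
    intro i
    rw [h]; rfl
  · rintro ⟨v, hv⟩
    choose b hb using fun i => hq (Multiplicative.ofAdd (v i))
    refine ⟨fun i => (b i : G), fun i => (b i).2, fun c hc => ?_⟩
    rw [Fintype.linearIndependent_iff] at hv
    refine funext fun i => hv c ?_ i
    have h := (key b c).2 hc
    simp only [hb, toAdd_ofAdd] at h
    exact h

/-- closures modulo `K` and closures in the quotient -/
private theorem V01_mem {G V : Type} [Group G] [AddCommGroup V] (N K : Subgroup G) [K.Normal]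
    (q : N →* Multiplicative V) (hK : ∀ x : N, q x = 1 ↔ (x : G) ∈ K)
    (F : Set G) (hF : F ⊆ N) (F' : Set V) (h1 : ∀ x : N, (x : G) ∈ F → Multiplicative.toAdd (q x) ∈ F')
    (h2 : ∀ y ∈ F', ∃ x : N, (x : G) ∈ F ∧ Multiplicative.toAdd (q x) = y) (x : N) :
    (x : G) ∈ Subgroup.closure F ⊔ K ↔
      Multiplicative.toAdd (q x) ∈ AddSubgroup.closure F' := by
  constructor
  · intro hx
    rw [Subgroup.mem_sup_of_normal_right] at hx
    obtain ⟨f, hf, k, hk, hfk⟩ := hx
    have h3 : ∃ h : f ∈ N, Multiplicative.toAdd (q ⟨f, h⟩) ∈ AddSubgroup.closure F' := by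
      clear hfk
      induction hf using Subgroup.closure_induction with
      | mem y hy => exact ⟨hF hy, AddSubgroup.subset_closure (h1 ⟨y, hF hy⟩ hy)⟩
      | one =>
        refine ⟨N.one_mem, ?_⟩
        have : (⟨1, N.one_mem⟩ : N) = 1 := rfl
        rw [this, map_one, toAdd_one]
        exact zero_mem _
      | mul y z _ _ hy hz =>
        obtain ⟨hy1, hy2⟩ := hy
        obtain ⟨hz1, hz2⟩ := hz
        refine ⟨N.mul_mem hy1 hz1, ?_⟩
        have : (⟨y * z, N.mul_mem hy1 hz1⟩ : N) = ⟨y, hy1⟩ * ⟨z, hz1⟩ := rfl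
        rw [this, map_mul, toAdd_mul]
        exact add_mem hy2 hz2
      | inv y _ hy =>
        obtain ⟨hy1, hy2⟩ := hy
        refine ⟨N.inv_mem hy1, ?_⟩
        have : (⟨y⁻¹, N.inv_mem hy1⟩ : N) = ⟨y, hy1⟩⁻¹ := rfl
        rw [this, map_inv, toAdd_inv]
        exact neg_mem hy2
    obtain ⟨hfN, hf2⟩ := h3
    have hkN : k ∈ N := by
      have : k = f⁻¹ * (x : G) := by rw [← hfk]; group
      rw [this]
      exact N.mul_mem (N.inv_mem hfN) x.2
    have h4 : x = ⟨f, hfN⟩ * ⟨k, hkN⟩ := Subtype.ext hfk.symm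
    have h5 : q ⟨k, hkN⟩ = 1 := (hK ⟨k, hkN⟩).2 hk
    rw [h4, map_mul, h5, mul_one]
    exact hf2
  · intro hx
    have h3 : ∀ y ∈ AddSubgroup.closure F', ∃ g : N, (g : G) ∈ Subgroup.closure F ∧
        Multiplicative.toAdd (q g) = y := by
      intro y hy
      induction hy using AddSubgroup.closure_induction with
      | mem y hy =>
        obtain ⟨g, hg, hgy⟩ := h2 y hy
        exact ⟨g, Subgroup.subset_closure hg, hgy⟩
      | zero => exact ⟨1, Subgroup.one_mem _, by rw [map_one, toAdd_one]⟩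
      | add y z _ _ hy hz =>
        obtain ⟨g, hg, hgy⟩ := hy
        obtain ⟨g', hg', hgy'⟩ := hz
        exact ⟨g * g', Subgroup.mul_mem _ hg hg', by rw [map_mul, toAdd_mul, hgy, hgy']⟩
      | neg y _ hy =>
        obtain ⟨g, hg, hgy⟩ := hy
        exact ⟨g⁻¹, Subgroup.inv_mem _ hg, by rw [map_inv, toAdd_inv, hgy]⟩
    obtain ⟨g, hg, hgx⟩ := h3 _ hx
    have h4 : q (g⁻¹ * x) = 1 := by
      rw [map_mul, map_inv, Multiplicative.toAdd.injective hgx, inv_mul_cancel]
    have h5 := (hK _).1 h4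
    have h6 : (x : G) = (g : G) * ((g⁻¹ * x : N) : G) := by
      simp
    rw [h6]
    exact Subgroup.mul_mem _ (Subgroup.mem_sup_left hg) (Subgroup.mem_sup_right h5)

theorem infRank_iff {G : Type} [Group G] (N K : Subgroup G) [K.Normal]
    (hab : ∀ a ∈ N, ∀ b ∈ N, a * b * a⁻¹ * b⁻¹ ∈ K) :
    InfRank N K ↔ ∀ F : Finset G, (F : Set G) ⊆ N →
      ∃ x ∈ N, ∀ n : ℤ, n ≠ 0 → x ^ n ∉ Subgroup.closure (F : Set G) ⊔ K := by
  classical
  obtain ⟨V, _, q, hq, hK⟩ := V01_quot N K hab
  rw [V01_inf N K q hq hK, V01_rank V]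
  constructor
  · intro h F hF
    have hF1 : ∀ f : {x // x ∈ F}, f.1 ∈ N := fun f => hF f.2
    obtain ⟨φ, hφ⟩ : ∃ φ : {x // x ∈ F} → V, ∀ f, φ f = Multiplicative.toAdd (q ⟨f.1, hF1 f⟩) :=
      ⟨_, fun f => rfl⟩
    obtain ⟨y, hy⟩ := h (F.attach.image φ)
    obtain ⟨x, hx⟩ := hq (Multiplicative.ofAdd y)
    refine ⟨x, x.2, fun n hn hmem => hy n hn ?_⟩
    have h1 := (V01_mem N K q hK (F : Set G) hF
      ((F.attach.image φ : Finset V) : Set V)
      (fun z hz => by
        rw [Finset.mem_coe, Finset.mem_image]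
        exact ⟨⟨z.1, hz⟩, Finset.mem_attach _ _, hφ _⟩)
      (fun z hz => by
        rw [Finset.mem_coe, Finset.mem_image] at hz
        obtain ⟨f, _, hf⟩ := hz
        exact ⟨⟨f.1, hF f.2⟩, f.2, (hφ f).symm.trans hf⟩) (x ^ n)).1 (by rw [Subgroup.coe_zpow]; exact hmem)
    rw [map_zpow, hx, ← ofAdd_zsmul, toAdd_ofAdd] at h1
    exact h1
  · intro h F'
    choose g hg using fun y : V => hq (Multiplicative.ofAdd y)
    obtain ⟨x, hxN, hx⟩ := h (F'.image fun y => (g y : G)) (by
      intro z hz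
      rw [Finset.mem_coe, Finset.mem_image] at hz
      obtain ⟨y, _, hy⟩ := hz
      rw [← hy]
      exact (g y).2)
    refine ⟨Multiplicative.toAdd (q ⟨x, hxN⟩), fun n hn hmem => hx n hn ?_⟩
    have h1 := (V01_mem N K q hK ((F'.image fun y => (g y : G) : Finset G) : Set G) (by
        intro z hz
        rw [Finset.mem_coe, Finset.mem_image] at hz
        obtain ⟨y, _, hy⟩ := hz
        rw [← hy]
        exact (g y).2) (F' : Set V)
      (fun z hz => by
        rw [Finset.mem_coe, Finset.mem_image] at hz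
        obtain ⟨y, hy, hyz⟩ := hz
        have : z = g y := Subtype.ext hyz.symm
        rw [this, hg, toAdd_ofAdd]
        exact hy)
      (fun y hy => ⟨g y, by
        rw [Finset.mem_coe, Finset.mem_image]
        exact ⟨y, hy, rfl⟩, by rw [hg, toAdd_ofAdd]⟩) ((⟨x, hxN⟩ : N) ^ n)).2 (by
        rw [map_zpow, toAdd_zpow]; exact hmem)
    rw [Subgroup.coe_zpow] at h1
    exact h1

theorem infRank_sup {G : Type} [Group G] (N K K' : Subgroup G) [K.Normal] [K'.Normal]
    (hab : ∀ a ∈ N, ∀ b ∈ N, a * b * a⁻¹ * b⁻¹ ∈ K) (C : Finset G) (hC : (C : Set G) ⊆ N)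
    (hK : K ≤ K') (hK' : K' ≤ Subgroup.closure (C : Set G) ⊔ K) (h : InfRank N K) :
    InfRank N K' := by
  classical
  rw [infRank_iff N K' fun a ha b hb => hK (hab a ha b hb)]
  rw [infRank_iff N K hab] at h
  intro F hF
  obtain ⟨x, hxN, hx⟩ := h (F ∪ C) (by
    rw [Finset.coe_union]
    exact Set.union_subset hF hC)
  refine ⟨x, hxN, fun n hn hmem => hx n hn ?_⟩
  refine (?_ : Subgroup.closure (F : Set G) ⊔ K' ≤ _) hmem
  rw [Finset.coe_union, Subgroup.closure_union]
  refine sup_le (le_sup_left.trans le_sup_left) (hK'.trans ?_)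
  exact sup_le (le_sup_right.trans le_sup_left) le_sup_right

theorem infRank_torsion {G : Type} [Group G] (N K K' : Subgroup G) [K.Normal] [K'.Normal]
    (hab : ∀ a ∈ N, ∀ b ∈ N, a * b * a⁻¹ * b⁻¹ ∈ K) (hK : K ≤ K') (hK' : K' ≤ N)
    (ht : ∀ x ∈ K', ∃ n : ℤ, n ≠ 0 ∧ x ^ n ∈ K) (h : InfRank N K) : InfRank N K' := by
  classical
  rw [infRank_iff N K' fun a ha b hb => hK (hab a ha b hb)]
  rw [infRank_iff N K hab] at h
  intro F hF
  obtain ⟨x, hxN, hx⟩ := h F hF
  refine ⟨x, hxN, fun n hn hmem => ?_⟩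
  rw [Subgroup.mem_sup_of_normal_right] at hmem
  obtain ⟨f, hf, k, hk, hfk⟩ := hmem
  obtain ⟨m, hm, hkm⟩ := ht k hk
  have hfN : f ∈ N := (Subgroup.closure_le N).2 hF hf
  refine hx (n * m) (mul_ne_zero hn hm) ?_
  obtain ⟨V, _, q, hq, hKq⟩ := V01_quot N K hab
  have h1 : q ((⟨f, hfN⟩ : N) ^ (-m) * (⟨x, hxN⟩ : N) ^ (n * m)) = 1 := by
    have h2 : (⟨x, hxN⟩ : N) ^ n = ⟨f, hfN⟩ * ⟨k, hK' hk⟩ := Subtype.ext (by
      rw [Subgroup.coe_zpow]; exact hfk.symm)
    have h3 : q (⟨k, hK' hk⟩ ^ m) = 1 := (hKq _).2 (by rw [Subgroup.coe_zpow]; exact hkm)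
    rw [zpow_mul, h2, map_mul, map_zpow, map_zpow, map_mul, mul_zpow, ← map_zpow q ⟨k, hK' hk⟩, h3,
      mul_one, ← zpow_add, neg_add_cancel, zpow_zero]
  have h4 := (hKq _).1 h1
  have h5 : x ^ (n * m) = f ^ m * (f ^ (-m) * x ^ (n * m)) := by
    rw [zpow_neg, mul_inv_cancel_left]
  rw [h5]
  refine Subgroup.mul_mem _ (Subgroup.mem_sup_left (Subgroup.zpow_mem _ hf m))
    (Subgroup.mem_sup_right ?_)
  simpa using h4

end Pool.Agent.LibNV
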