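import Mathlib
import Pool.Agent.LibNM.N11
import Pool.Agent.LibNM.N17
import Pool.Agent.LibNV.Defs

set_option autoImplicit false

/-! [NV V02] Maximal condition and finite generation for normal subgroups, over a subgroup of finite
index.

PLAN. `↥G₁` is finitely generated (`Subgroup.fg_of_index_ne_zero`, with `hfg`; `Group.fg_iff_subgroup_fg`). Apply
`Pool.Agent.LibNM.maxn` (N11) to the group `↥G₁`, its normal subgroup `N.subgroupOf G₁` and the image of `𝒮`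
under `K ↦ K.subgroupOf G₁` (for `K ≤ G₁` this map is injective and monotone: `Subgroup.map_subgroupOf_eq_of_le`).
`fgV`: `Pool.Agent.LibNM.normal_fg` (N17) for `↥G₁` and `N.subgroupOf G₁`: a finite set `F₁`; `F := F₁.image (↑)`. If
`L ⊇ F` is stable under conjugation by `G₁` then `L.subgroupOf G₁` is a normal subgroup of `↥G₁` which
contains `F₁`, so it contains the normal closure `N.subgroupOf G₁`. -/

namespace Pool.Agent.LibNV

open Pool.Agent.LibNM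

private theorem v02_fg {G₀ : Type} [Group G₀] (hfg : Group.FG G₀) (G₁ : Subgroup G₀)
    [G₁.FiniteIndex] : Group.FG ↥G₁ := by
  have := hfg
  exact Subgroup.fg_of_index_ne_zero G₁

theorem maxnV {G₀ : Type} [Group G₀] (hfg : Group.FG G₀) (N G₁ : Subgroup G₀) [N.Normal]
    [G₁.Normal] [G₁.FiniteIndex] (hNG : N ≤ G₁) (hN : ∀ a ∈ N, ∀ b ∈ N, a * b = b * a)
    (hQ : ∀ a ∈ G₁, ∀ b ∈ G₁, a * b * a⁻¹ * b⁻¹ ∈ N)
    (𝒮 : Set (Subgroup G₀)) (h𝒮 : 𝒮.Nonempty) (h : ∀ K ∈ 𝒮, K.Normal ∧ K ≤ N) :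
    ∃ K ∈ 𝒮, ∀ K' ∈ 𝒮, K ≤ K' → K' = K := by
  have hfg1 : Group.FG ↥G₁ := v02_fg hfg G₁
  have hNn : (N.subgroupOf G₁).Normal := inferInstance
  obtain ⟨K', ⟨K, hK, rfl⟩, hmax⟩ := maxn hfg1 (N.subgroupOf G₁)
    (by
      rintro ⟨a, ha⟩ ha' ⟨b, hb⟩ hb'
      apply Subtype.ext
      exact hN a (Subgroup.mem_subgroupOf.1 ha') b (Subgroup.mem_subgroupOf.1 hb'))
    (by
      rintro ⟨a, ha⟩ ⟨b, hb⟩
      exact Subgroup.mem_subgroupOf.2 (hQ a ha b hb))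
    ((fun K : Subgroup G₀ => K.subgroupOf G₁) '' 𝒮) (h𝒮.image _)
    (by
      rintro _ ⟨K, hK, rfl⟩
      obtain ⟨h1, h2⟩ := h K hK
      refine ⟨?_, ?_⟩
      · exact inferInstanceAs (K.subgroupOf G₁).Normal
      · intro x hx
        exact Subgroup.mem_subgroupOf.2 (h2 (Subgroup.mem_subgroupOf.1 hx)))
  refine ⟨K, hK, fun K2 hK2 hle => ?_⟩
  have h1 : K2.subgroupOf G₁ = K.subgroupOf G₁ := hmax _ ⟨K2, hK2, rfl⟩
    (fun x hx => Subgroup.mem_subgroupOf.2 (hle (Subgroup.mem_subgroupOf.1 hx)))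
  have h2 := congrArg (Subgroup.map G₁.subtype) h1
  rw [Subgroup.map_subgroupOf_eq_of_le ((h K2 hK2).2.trans hNG),
    Subgroup.map_subgroupOf_eq_of_le ((h K hK).2.trans hNG)] at h2
  exact h2

theorem fgV {G₀ : Type} [Group G₀] (hfg : Group.FG G₀) (N G₁ : Subgroup G₀) [N.Normal]
    [G₁.Normal] [G₁.FiniteIndex] (hNG : N ≤ G₁)
    (hQ : ∀ a ∈ G₁, ∀ b ∈ G₁, a * b * a⁻¹ * b⁻¹ ∈ N) :
    ∃ F : Finset G₀, (F : Set G₀) ⊆ N ∧ ∀ L : Subgroup G₀, (F : Set G₀) ⊆ L →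
      (∀ g ∈ G₁, ∀ x ∈ L, g * x * g⁻¹ ∈ L) → N ≤ L := by
  classical
  have hfg1 : Group.FG ↥G₁ := v02_fg hfg G₁
  obtain ⟨F₁, hF₁, hcl⟩ := normal_fg hfg1 (N.subgroupOf G₁)
    (by
      rintro ⟨a, ha⟩ ⟨b, hb⟩
      exact Subgroup.mem_subgroupOf.2 (hQ a ha b hb))
  refine ⟨F₁.image (fun x : ↥G₁ => (x : G₀)), ?_, ?_⟩
  · intro x hx
    obtain ⟨y, hy, rfl⟩ := Finset.mem_image.1 (Finset.mem_coe.1 hx)
    exact Subgroup.mem_subgroupOf.1 (hF₁ hy)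
  · intro L hL hst x hx
    have hLn : (L.subgroupOf G₁).Normal := by
      refine ⟨fun y hy g => ?_⟩
      exact Subgroup.mem_subgroupOf.2 (hst g g.2 y (Subgroup.mem_subgroupOf.1 hy))
    have h1 : Subgroup.normalClosure (F₁ : Set ↥G₁) ≤ L.subgroupOf G₁ := by
      refine Subgroup.normalClosure_le_normal fun y hy => ?_
      exact Subgroup.mem_subgroupOf.2 (hL (Finset.mem_coe.2 (Finset.mem_image_of_mem _ hy)))
    rw [hcl] at h1
    exact Subgroup.mem_subgroupOf.1 (h1 (Subgroup.mem_subgroupOf.2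
      (show ((⟨x, hNG hx⟩ : ↥G₁) : G₀) ∈ N from hx)))

end Pool.Agent.LibNV
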