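import Mathlib
import Pool.Agent.LibNV.Defs
import Pool.Agent.LibNV.V01

set_option autoImplicit false

/-! [NV V03] If some factor of the lower central series of `N` has infinite rank, then so has
`N / [N, N]`.

PLAN. Write `γ i := N.lowerCentralSeries i` (`γ 0 = N`, `γ (i+1) = ⁅γ i, N⁆`, all normal in `G` by induction:
`Subgroup.commutator_normal`). Contrapositive, with V01 (`infRank_iff`; its hypothesis `hab` for `γ i`, `γ (i+1)`
holds since `⁅γ i, γ i⁆ ≤ ⁅γ i, N⁆ = γ (i+1)`). Say `P i` := there is a finite set `F_i ⊆ γ i` such that every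
`x ∈ γ i` has a power `x ^ n`, `n ≠ 0`, in `closure F_i ⊔ γ (i+1)`. `P 0` is the negation of the conclusion. `P i → P (i+1)`
with `F_(i+1) := {⁅a, b⁆ | a ∈ F_i, b ∈ F_0}`: the group `γ (i+1)` is generated by the commutators `⁅x, y⁆`,
`x ∈ γ i`, `y ∈ N` (`Subgroup.commutator_def`, `Subgroup.closure_induction`); modulo `γ (i+2)` these commutators
commute with all elements of `N`, they depend only on `x` modulo `γ (i+1)` and on `y` modulo `γ 1`, and they are
bimultiplicative: so `⁅x, y⁆ ^ (n m) = ⁅x ^ n, y ^ m⁆` lies in `closure F_(i+1) ⊔ γ (i+2)` if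
`x ^ n ∈ closure F_i ⊔ γ (i+1)` and `y ^ m ∈ closure F_0 ⊔ γ 1`. The elements of `γ (i+1)` with a nonzero power in
`closure F_(i+1) ⊔ γ (i+2)` form a subgroup (everything is abelian modulo `γ (i+2)`). It may be easier to work in
the quotient group `G ⧸ γ (i+2)`. -/

namespace Pool.Agent.LibNV

open Pool.Agent.LibNM
open scoped commutatorElement

private theorem comm_mul_left {Q : Type} [Group Q] {x z v : Q} (h : ⁅z, v⁆ * x = x * ⁅z, v⁆) :
    ⁅x * z, v⁆ = ⁅z, v⁆ * ⁅x, v⁆ := by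
  have e : ⁅x * z, v⁆ = x * ⁅z, v⁆ * x⁻¹ * ⁅x, v⁆ := by
    simp only [commutatorElement_def]
    group
  rw [e, ← h, mul_inv_cancel_right]

private theorem comm_mul_right {Q : Type} [Group Q] {a v z : Q} (h : ⁅a, z⁆ * v = v * ⁅a, z⁆) :
    ⁅a, v * z⁆ = ⁅a, v⁆ * ⁅a, z⁆ := by
  have e : ⁅a, v * z⁆ = ⁅a, v⁆ * (v * ⁅a, z⁆ * v⁻¹) := by
    simp only [commutatorElement_def]
    group
  rw [e, ← h, mul_inv_cancel_right]

private theorem comm_inv_left {Q : Type} [Group Q] {x v : Q} (h : ⁅x, v⁆ * x = x * ⁅x, v⁆) :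
    ⁅x⁻¹, v⁆ = ⁅x, v⁆⁻¹ := by
  have e : ⁅x⁻¹, v⁆ = x⁻¹ * ⁅x, v⁆⁻¹ * x := by
    simp only [commutatorElement_def]
    group
  have h' : ⁅x, v⁆⁻¹ * x = x * ⁅x, v⁆⁻¹ := by
    rw [inv_mul_eq_iff_eq_mul, ← mul_assoc, h, mul_assoc, mul_inv_cancel, mul_one]
  rw [e, mul_assoc, h', inv_mul_cancel_left]

private theorem comm_inv_right {Q : Type} [Group Q] {x v : Q} (h : ⁅x, v⁆ * v = v * ⁅x, v⁆) :
    ⁅x, v⁻¹⁆ = ⁅x, v⁆⁻¹ := by
  have e : ⁅x, v⁻¹⁆ = v⁻¹ * ⁅x, v⁆⁻¹ * v := by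
    simp only [commutatorElement_def]
    group
  have h' : ⁅x, v⁆⁻¹ * v = v * ⁅x, v⁆⁻¹ := by
    rw [inv_mul_eq_iff_eq_mul, ← mul_assoc, h, mul_assoc, mul_inv_cancel, mul_one]
  rw [e, mul_assoc, h', inv_mul_cancel_left]

private theorem core {Q : Type} [Group Q] (A B : Subgroup Q) (hAB : A ≤ B)
    (hc : ∀ c ∈ ⁅A, B⁆, ∀ b ∈ B, c * b = b * c) (FA FB : Set Q) (hFA : FA ⊆ A) (hFB : FB ⊆ B)
    (hA : ∀ x ∈ A, ∃ n : ℤ, n ≠ 0 ∧ x ^ n ∈ Subgroup.closure FA ⊔ ⁅A, B⁆)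
    (hB : ∀ y ∈ B, ∃ n : ℤ, n ≠ 0 ∧ y ^ n ∈ Subgroup.closure FB ⊔ ⁅B, B⁆) :
    ∀ z ∈ ⁅A, B⁆, ∃ n : ℤ, n ≠ 0 ∧
      z ^ n ∈ Subgroup.closure {w : Q | ∃ a ∈ FA, ∃ b ∈ FB, ⁅a, b⁆ = w} := by
  set T : Subgroup Q := Subgroup.closure {w : Q | ∃ a ∈ FA, ∃ b ∈ FB, ⁅a, b⁆ = w} with hT
  have hCB : ⁅A, B⁆ ≤ B := by
    rw [Subgroup.commutator_le]
    intro a ha b hb
    rw [commutatorElement_def]
    exact B.mul_mem (B.mul_mem (B.mul_mem (hAB ha) hb) (B.inv_mem (hAB ha))) (B.inv_mem hb)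
  have hTC : T ≤ ⁅A, B⁆ := by
    rw [hT, Subgroup.closure_le]
    rintro w ⟨a, ha, b, hb, rfl⟩
    exact Subgroup.commutator_mem_commutator (hFA ha) (hFB hb)
  -- the homomorphism `y ↦ ⁅x, y⁆` on `B`
  let φ : ∀ x : Q, x ∈ A → (B →* Q) := fun x hx =>
    { toFun := fun y => ⁅x, (y : Q)⁆
      map_one' := by simp
      map_mul' := fun y z => by
        rw [Subgroup.coe_mul]
        exact comm_mul_right (hc _ (Subgroup.commutator_mem_commutator hx z.2) _ y.2) }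
  let ψ : ∀ y : Q, y ∈ B → (A →* Q) := fun y hy =>
    { toFun := fun x => ⁅(x : Q), y⁆
      map_one' := by simp
      map_mul' := fun x z => by
        rw [Subgroup.coe_mul]
        rw [comm_mul_left (hc _ (Subgroup.commutator_mem_commutator z.2 hy) _ (hAB x.2))]
        exact hc _ (Subgroup.commutator_mem_commutator z.2 hy) _
          (hCB (Subgroup.commutator_mem_commutator x.2 hy)) }
  -- step 1
  have s1 : ∀ a ∈ FA, ∀ v ∈ Subgroup.closure FB ⊔ ⁅B, B⁆, v ∈ B ∧ ⁅a, v⁆ ∈ T := by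
    intro a ha v hv
    let S : Subgroup Q :=
      { carrier := {v | v ∈ B ∧ ⁅a, v⁆ ∈ T}
        one_mem' := ⟨B.one_mem, by rw [commutatorElement_one_right]; exact T.one_mem⟩
        mul_mem' := by
          rintro u w ⟨hu, hu'⟩ ⟨hw, hw'⟩
          refine ⟨B.mul_mem hu hw, ?_⟩
          rw [comm_mul_right (hc _ (hTC hw') _ hu)]
          exact T.mul_mem hu' hw'
        inv_mem' := by
          rintro u ⟨hu, hu'⟩
          refine ⟨B.inv_mem hu, ?_⟩
          rw [comm_inv_right (hc _ (hTC hu') _ hu)]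
          exact T.inv_mem hu' }
    have h1 : Subgroup.closure FB ≤ S := by
      rw [Subgroup.closure_le]
      intro b hb
      exact ⟨hFB hb, Subgroup.subset_closure ⟨a, ha, b, hb, rfl⟩⟩
    have h2 : ⁅B, B⁆ ≤ S := by
      rw [Subgroup.commutator_le]
      intro b1 hb1 b2 hb2
      refine ⟨?_, ?_⟩
      · rw [commutatorElement_def]
        exact B.mul_mem (B.mul_mem (B.mul_mem hb1 hb2) (B.inv_mem hb1)) (B.inv_mem hb2)
      · have e : ⁅a, ⁅b1, b2⁆⁆ = ⁅⁅a, b1⁆, ⁅a, b2⁆⁆ :=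
          map_commutatorElement (φ a (hFA ha)) ⟨b1, hb1⟩ ⟨b2, hb2⟩
        rw [e, (commutatorElement_eq_one_iff_mul_comm).2 (hc _
          (Subgroup.commutator_mem_commutator (hFA ha) hb1) _
          (hCB (Subgroup.commutator_mem_commutator (hFA ha) hb2)))]
        exact T.one_mem
    exact (sup_le h1 h2) hv
  -- step 2
  have s2 : ∀ v ∈ Subgroup.closure FB ⊔ ⁅B, B⁆, ∀ w ∈ Subgroup.closure FA ⊔ ⁅A, B⁆,
      ⁅w, v⁆ ∈ T := by
    intro v hv w hw
    have hvB : v ∈ B := by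
      have h1 : Subgroup.closure FB ⊔ ⁅B, B⁆ ≤ B := by
        refine sup_le ((Subgroup.closure_le _).2 hFB) ?_
        rw [Subgroup.commutator_le]
        intro b1 hb1 b2 hb2
        rw [commutatorElement_def]
        exact B.mul_mem (B.mul_mem (B.mul_mem hb1 hb2) (B.inv_mem hb1)) (B.inv_mem hb2)
      exact h1 hv
    let S : Subgroup Q :=
      { carrier := {w | w ∈ B ∧ ⁅w, v⁆ ∈ T}
        one_mem' := ⟨B.one_mem, by rw [commutatorElement_one_left]; exact T.one_mem⟩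
        mul_mem' := by
          rintro u w ⟨hu, hu'⟩ ⟨hw, hw'⟩
          refine ⟨B.mul_mem hu hw, ?_⟩
          rw [comm_mul_left (hc _ (hTC hw') _ hu)]
          exact T.mul_mem hw' hu'
        inv_mem' := by
          rintro u ⟨hu, hu'⟩
          refine ⟨B.inv_mem hu, ?_⟩
          rw [comm_inv_left (hc _ (hTC hu') _ hu)]
          exact T.inv_mem hu' }
    have h1 : Subgroup.closure FA ≤ S := by
      rw [Subgroup.closure_le]
      intro a ha
      exact ⟨hAB (hFA ha), (s1 a ha v hv).2⟩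
    have h2 : ⁅A, B⁆ ≤ S := by
      intro c hcm
      refine ⟨hCB hcm, ?_⟩
      rw [(commutatorElement_eq_one_iff_mul_comm).2 (hc c hcm v hvB)]
      exact T.one_mem
    exact ((sup_le h1 h2) hw).2
  -- step 3
  have s3 : ∀ x ∈ A, ∀ y ∈ B, ∃ n : ℤ, n ≠ 0 ∧ ⁅x, y⁆ ^ n ∈ T := by
    intro x hx y hy
    obtain ⟨n, hn, hn'⟩ := hA x hx
    obtain ⟨m, hm, hm'⟩ := hB y hy
    refine ⟨m * n, mul_ne_zero hm hn, ?_⟩
    have e1 : ⁅x, y ^ m⁆ = ⁅x, y⁆ ^ m := map_zpow (φ x hx) ⟨y, hy⟩ m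
    have e2 : ⁅x ^ n, y ^ m⁆ = ⁅x, y ^ m⁆ ^ n :=
      map_zpow (ψ (y ^ m) (B.zpow_mem hy m)) ⟨x, hx⟩ n
    rw [zpow_mul, ← e1, ← e2]
    exact s2 _ hm' _ hn'
  -- step 4
  let R : Subgroup Q :=
    { carrier := {z | z ∈ ⁅A, B⁆ ∧ ∃ n : ℤ, n ≠ 0 ∧ z ^ n ∈ T}
      one_mem' := ⟨Subgroup.one_mem _, 1, one_ne_zero, by rw [one_zpow]; exact T.one_mem⟩
      mul_mem' := by
        rintro u w ⟨hu, n, hn, hn'⟩ ⟨hw, m, hm, hm'⟩
        refine ⟨Subgroup.mul_mem _ hu hw, n * m, mul_ne_zero hn hm, ?_⟩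
        have hcom : Commute u w := hc u hu w (hCB hw)
        rw [hcom.mul_zpow]
        refine T.mul_mem ?_ ?_
        · rw [zpow_mul]
          exact T.zpow_mem hn' m
        · rw [mul_comm, zpow_mul]
          exact T.zpow_mem hm' n
      inv_mem' := by
        rintro u ⟨hu, n, hn, hn'⟩
        refine ⟨Subgroup.inv_mem _ hu, n, hn, ?_⟩
        rw [inv_zpow]
        exact T.inv_mem hn' }
  have hR : ⁅A, B⁆ ≤ R := by
    rw [Subgroup.commutator_le]
    intro x hx y hy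
    exact ⟨Subgroup.commutator_mem_commutator hx hy, s3 x hx y hy⟩
  intro z hz
  exact (hR hz).2

private theorem lcs_normal {G : Type} [Group G] (N : Subgroup G) [N.Normal] (i : ℕ) :
    (N.lowerCentralSeries i).Normal := by
  induction i with
  | zero => exact inferInstanceAs N.Normal
  | succ i ih =>
    rw [Subgroup.lowerCentralSeries_succ]
    infer_instance

private theorem step_rank {G : Type} [Group G] (N : Subgroup G) [N.Normal] (i : ℕ)
    (F0 : Finset G) (hF0 : (F0 : Set G) ⊆ N)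
    (h0 : ∀ x ∈ N, ∃ n : ℤ, n ≠ 0 ∧
      x ^ n ∈ Subgroup.closure (F0 : Set G) ⊔ N.lowerCentralSeries 1)
    (F : Finset G) (hF : (F : Set G) ⊆ N.lowerCentralSeries i)
    (h : ∀ x ∈ N.lowerCentralSeries i, ∃ n : ℤ, n ≠ 0 ∧
      x ^ n ∈ Subgroup.closure (F : Set G) ⊔ N.lowerCentralSeries (i + 1)) :
    ∃ F' : Finset G, (F' : Set G) ⊆ N.lowerCentralSeries (i + 1) ∧
      ∀ x ∈ N.lowerCentralSeries (i + 1), ∃ n : ℤ, n ≠ 0 ∧
        x ^ n ∈ Subgroup.closure (F' : Set G) ⊔ N.lowerCentralSeries (i + 2) := by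
  classical
  have hn := lcs_normal N (i + 2)
  set K := N.lowerCentralSeries (i + 2) with hK
  have hle : N.lowerCentralSeries i ≤ N := N.lowerCentralSeries_antitone (Nat.zero_le i)
  have hmap : ⁅(N.lowerCentralSeries i).map (QuotientGroup.mk' K), N.map (QuotientGroup.mk' K)⁆ =
      (N.lowerCentralSeries (i + 1)).map (QuotientGroup.mk' K) := by
    rw [Subgroup.lowerCentralSeries_succ, Subgroup.map_commutator]
  have hmap1 : ⁅N.map (QuotientGroup.mk' K), N.map (QuotientGroup.mk' K)⁆ =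
      (N.lowerCentralSeries 1).map (QuotientGroup.mk' K) := by
    rw [← Subgroup.map_commutator]
    rfl
  have hcore := core ((N.lowerCentralSeries i).map (QuotientGroup.mk' K))
    (N.map (QuotientGroup.mk' K)) (Subgroup.map_mono hle) (by
      rw [hmap]
      rintro _ ⟨c, hc, rfl⟩ _ ⟨b, hb, rfl⟩
      rw [← map_mul, ← map_mul]
      rw [QuotientGroup.mk'_eq_mk']
      refine ⟨⁅b⁻¹, c⁻¹⁆, ?_, ?_⟩
      · have : ⁅c⁻¹, b⁻¹⁆ ∈ K := by
          rw [hK, Subgroup.lowerCentralSeries_succ]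
          exact Subgroup.commutator_mem_commutator (Subgroup.inv_mem _ hc) (N.inv_mem hb)
        rw [← commutatorElement_inv]
        exact K.inv_mem this
      · simp only [commutatorElement_def]
        group)
    (QuotientGroup.mk' K '' (F : Set G)) (QuotientGroup.mk' K '' (F0 : Set G))
    (by
      rintro _ ⟨a, ha, rfl⟩
      exact ⟨a, hF ha, rfl⟩)
    (by
      rintro _ ⟨a, ha, rfl⟩
      exact ⟨a, hF0 ha, rfl⟩)
    (by
      rintro _ ⟨x, hx, rfl⟩
      obtain ⟨n, hn0, hn1⟩ := h x hx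
      refine ⟨n, hn0, ?_⟩
      rw [hmap, ← MonoidHom.map_closure, ← Subgroup.map_sup, ← map_zpow]
      exact ⟨_, hn1, rfl⟩)
    (by
      rintro _ ⟨x, hx, rfl⟩
      obtain ⟨n, hn0, hn1⟩ := h0 x hx
      refine ⟨n, hn0, ?_⟩
      rw [hmap1, ← MonoidHom.map_closure, ← Subgroup.map_sup, ← map_zpow]
      exact ⟨_, hn1, rfl⟩)
  refine ⟨Finset.image₂ (fun a b => ⁅a, b⁆) F F0, ?_, ?_⟩
  · intro w hw
    simp only [Finset.coe_image₂, Set.mem_image2] at hw
    obtain ⟨a, ha, b, hb, rfl⟩ := hw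
    rw [SetLike.mem_coe, Subgroup.lowerCentralSeries_succ]
    exact Subgroup.commutator_mem_commutator (hF ha) (hF0 hb)
  · intro x hx
    obtain ⟨n, hn0, hn1⟩ := hcore (QuotientGroup.mk' K x) (by
      rw [hmap]
      exact ⟨x, hx, rfl⟩)
    refine ⟨n, hn0, ?_⟩
    have hset : {w : G ⧸ K | ∃ a ∈ QuotientGroup.mk' K '' (F : Set G),
        ∃ b ∈ QuotientGroup.mk' K '' (F0 : Set G), ⁅a, b⁆ = w} =
        QuotientGroup.mk' K '' ((Finset.image₂ (fun a b => ⁅a, b⁆) F F0 : Finset G) : Set G) := by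
      ext w
      simp only [Finset.coe_image₂, Set.mem_ofPred_eq]
      constructor
      · rintro ⟨_, ⟨a, ha, rfl⟩, _, ⟨b, hb, rfl⟩, rfl⟩
        exact ⟨⁅a, b⁆, ⟨a, ha, b, hb, rfl⟩, map_commutatorElement _ _ _⟩
      · rintro ⟨_, ⟨a, ha, b, hb, rfl⟩, rfl⟩
        exact ⟨_, ⟨a, ha, rfl⟩, _, ⟨b, hb, rfl⟩, (map_commutatorElement _ _ _).symm⟩
    rw [hset, ← MonoidHom.map_closure, ← map_zpow] at hn1
    have h2 : x ^ n ∈ ((Subgroup.closure
        ((Finset.image₂ (fun a b => ⁅a, b⁆) F F0 : Finset G) : Set G)).map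
        (QuotientGroup.mk' K)).comap (QuotientGroup.mk' K) := hn1
    rw [Subgroup.comap_map_eq, QuotientGroup.ker_mk'] at h2
    exact h2

theorem nil_rank {G : Type} [Group G] (N : Subgroup G) [N.Normal] (i : ℕ)
    (h : InfRank (N.lowerCentralSeries i) (N.lowerCentralSeries (i + 1))) :
    InfRank N (N.lowerCentralSeries 1) := by
  classical
  have := lcs_normal N
  by_contra hn
  rw [infRank_iff N (N.lowerCentralSeries 1) (fun a ha b hb => by
    have : ⁅a, b⁆ ∈ N.lowerCentralSeries 1 := by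
      rw [Subgroup.lowerCentralSeries_succ]
      exact Subgroup.commutator_mem_commutator ha hb
    rwa [commutatorElement_def] at this)] at hn
  push Not at hn
  obtain ⟨F0, hF0, h0⟩ := hn
  have key : ∀ i : ℕ, ∃ F : Finset G, (F : Set G) ⊆ N.lowerCentralSeries i ∧
      ∀ x ∈ N.lowerCentralSeries i, ∃ n : ℤ, n ≠ 0 ∧
        x ^ n ∈ Subgroup.closure (F : Set G) ⊔ N.lowerCentralSeries (i + 1) := by
    intro i
    induction i with
    | zero => exact ⟨F0, hF0, h0⟩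
    | succ i ih =>
      obtain ⟨F, hF, h1⟩ := ih
      exact step_rank N i F0 hF0 h0 F hF h1
  obtain ⟨F, hF, h1⟩ := key i
  rw [infRank_iff (N.lowerCentralSeries i) (N.lowerCentralSeries (i + 1)) (fun a ha b hb => by
    have : ⁅a, b⁆ ∈ N.lowerCentralSeries (i + 1) := by
      rw [Subgroup.lowerCentralSeries_succ]
      exact Subgroup.commutator_mem_commutator ha
        (N.lowerCentralSeries_antitone (Nat.zero_le i) hb)
    rwa [commutatorElement_def] at this)] at h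
  obtain ⟨x, hx, hx'⟩ := h F hF
  obtain ⟨n, hn0, hn1⟩ := h1 x hx
  exact hx' n hn0 hn1

end Pool.Agent.LibNV
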