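import Mathlib
import Pool.Agent.LibNV.Defs
import Pool.Agent.LibNV.V03

set_option autoImplicit false

/-! [NV V04] Reduction to the case that `N` is abelian and contained in the normal subgroup `G₁`.

PLAN. `D := N.lowerCentralSeries 1 = ⁅N, N⁆`, a normal subgroup of `G₀`. By V03 `nil_rank`, `InfRank N D`.
`G' := G₀ ⧸ D`, `q := QuotientGroup.mk' D`, `N' := N.map q`: normal, abelian. `H := G₁.map q ⊔ N'` has finite index;
`G₁' := H.normalCore` (finite index: `Subgroup.finiteIndex_normalCore`), `N' ≤ G₁'`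
(`Subgroup.normal_le_normalCore`). `[H, H] ≤ N'`: modulo `N'` the elements of `H` are images of elements of `G₁`
(`Subgroup.mem_sup`, `N'` normal), and these commute modulo `N'` by `hQ`. `InfRank N' ⊥`: images of the
independent elements of `N` modulo `D` (`q x = 1 ↔ x ∈ D`, and `q (List.prod ..) = List.prod (map ..)`). -/

namespace Pool.Agent.LibNV

open Pool.Agent.LibNM

theorem reduceNil {G₀ : Type} [Group G₀] (hfg : Group.FG G₀) (N G₁ : Subgroup G₀) [N.Normal]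
    [G₁.FiniteIndex] (hQ : ∀ a ∈ G₁, ∀ b ∈ G₁, a * b * a⁻¹ * b⁻¹ ∈ N) (i : ℕ)
    (h : InfRank (N.lowerCentralSeries i) (N.lowerCentralSeries (i + 1))) :
    ∃ (G' : Type) (_ : Group G') (q : G₀ →* G') (N' G₁' : Subgroup G'),
      Function.Surjective q ∧ Group.FG G' ∧ N'.Normal ∧ G₁'.Normal ∧ G₁'.FiniteIndex ∧ N' ≤ G₁' ∧
      (∀ a ∈ N', ∀ b ∈ N', a * b = b * a) ∧
      (∀ a ∈ G₁', ∀ b ∈ G₁', a * b * a⁻¹ * b⁻¹ ∈ N') ∧ InfRank N' ⊥ := by
  have hD : N.lowerCentralSeries 1 = ⁅N, N⁆ := by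
    rw [Subgroup.lowerCentralSeries_succ, Subgroup.lowerCentralSeries_zero]
  have hinf := nil_rank N i h
  rw [hD] at hinf
  set D : Subgroup G₀ := ⁅N, N⁆ with hDdef
  have hDn : D.Normal := by rw [hDdef]; infer_instance
  let q : G₀ →* G₀ ⧸ D := QuotientGroup.mk' D
  have hq : Function.Surjective q := QuotientGroup.mk'_surjective D
  have hq1 : ∀ x, q x = 1 ↔ x ∈ D := fun x => QuotientGroup.eq_one_iff x
  have hN'n : (N.map q).Normal := Subgroup.Normal.map ‹N.Normal› q hq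
  have hfi : (G₁.map q ⊔ N.map q).FiniteIndex := by
    have : (G₁.map q).FiniteIndex := by
      refine ⟨fun h0 => ?_⟩
      have h1 := Subgroup.index_map_dvd G₁ hq
      rw [h0, zero_dvd_iff] at h1
      exact Subgroup.FiniteIndex.index_ne_zero h1
    exact Subgroup.finiteIndex_of_le (le_sup_left : G₁.map q ≤ G₁.map q ⊔ N.map q)
  have hNab : ∀ a ∈ N.map q, ∀ b ∈ N.map q, a * b = b * a := by
    rintro _ ⟨x, hx, rfl⟩ _ ⟨y, hy, rfl⟩
    have h1 : q (x * y * x⁻¹ * y⁻¹) = 1 := (hq1 _).2 (Subgroup.commutator_mem_commutator hx hy)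
    simp only [map_mul, map_inv] at h1
    rw [mul_inv_eq_one, mul_inv_eq_iff_eq_mul] at h1
    exact h1
  have hcomm : ∀ a ∈ G₁.map q ⊔ N.map q, ∀ b ∈ G₁.map q ⊔ N.map q,
      a * b * a⁻¹ * b⁻¹ ∈ N.map q := by
    intro a ha b hb
    rw [← QuotientGroup.eq_one_iff]
    have key : ∀ c ∈ G₁.map q ⊔ N.map q, ∃ g ∈ G₁,
        (c : (G₀ ⧸ D) ⧸ N.map q) = ((q g : G₀ ⧸ D) : (G₀ ⧸ D) ⧸ N.map q) := by
      intro c hc
      obtain ⟨y, ⟨g, hg, rfl⟩, z, hz, rfl⟩ := Subgroup.mem_sup_of_normal_right.1 hc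
      refine ⟨g, hg, ?_⟩
      rw [QuotientGroup.mk_mul, (QuotientGroup.eq_one_iff z).2 hz, mul_one]
    obtain ⟨g, hg, hga⟩ := key a ha
    obtain ⟨g', hg', hgb⟩ := key b hb
    rw [QuotientGroup.mk_mul, QuotientGroup.mk_mul, QuotientGroup.mk_mul, QuotientGroup.mk_inv,
      QuotientGroup.mk_inv, hga, hgb, ← QuotientGroup.mk_inv, ← QuotientGroup.mk_inv,
      ← QuotientGroup.mk_mul, ← QuotientGroup.mk_mul, ← QuotientGroup.mk_mul,
      QuotientGroup.eq_one_iff]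
    exact ⟨g * g' * g⁻¹ * g'⁻¹, hQ g hg g' hg', by simp only [map_mul, map_inv]⟩
  refine ⟨G₀ ⧸ D, inferInstance, q, N.map q, (G₁.map q ⊔ N.map q).normalCore, hq,
    Group.fg_of_surjective hq, hN'n, inferInstance, inferInstance,
    Subgroup.normal_le_normalCore.2 le_sup_right, hNab,
    fun a ha b hb => hcomm a (Subgroup.normalCore_le _ ha) b (Subgroup.normalCore_le _ hb), ?_⟩
  intro k
  obtain ⟨a, ha, hc⟩ := hinf k
  refine ⟨fun j => q (a j), fun j => ⟨a j, ha j, rfl⟩, fun c h0 => hc c ?_⟩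
  rw [Subgroup.mem_bot] at h0
  rw [← hq1, map_list_prod, List.map_ofFn]
  rw [← h0]
  congr 2

end Pool.Agent.LibNV
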