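import Mathlib
import Pool.Agent.LibNV.Defs
import Pool.Agent.LibNV.V01
import Pool.Agent.LibNV.V02

set_option autoImplicit false

/-! [NV V05] The maximal normal subgroup `K` of `N` with `N / K` of infinite rank, and the centralizer
`S₀` of `N / K`.

PLAN. (1) `maxnV` (V02) for `𝒮 = {K | K.Normal ∧ K ≤ N ∧ InfRank N K}` (it contains `⊥` by `hinf`) gives `K`.
(2) `S₀ := {g | ∀ n ∈ N, g n g⁻¹ n⁻¹ ∈ K}`, a normal subgroup with `N ≤ S₀` (`N` is abelian).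
(3) If `x ∈ N`, `x ^ n ∈ K` with `n ≠ 0`, then `x ∈ K`: the set `K'` of all these `x` is a normal subgroup of `G₀`
(`N` is abelian), `K ≤ K' ≤ N`, and `InfRank N K'` by `infRank_torsion` (V01): so `K' = K`.
(4) Let `s, t ∈ S₀ ⊓ G₁` and `c = s t s⁻¹ t⁻¹ ∈ N` (`hQ`). For `g ∈ G₁`: `g c g⁻¹ = [g s g⁻¹, g t g⁻¹]`,
`g s g⁻¹ = s a`, `g t g⁻¹ = t b` with `a, b ∈ N` (`hQ`), and elements of `N` commute with `S₀` modulo `K` and among
themselves: so `g c g⁻¹ ∈ c K`. For `g ∈ G₀` write `g = r h` with `h ∈ G₁` and `r` in a finite set `R` of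
coset representatives (`G₀ ⧸ G₁` is finite, `G₁` normal): `g c g⁻¹ = r (h c h⁻¹) r⁻¹ ∈ (r c r⁻¹) K`. So
`K' := Subgroup.closure {r c r⁻¹ | r ∈ R} ⊔ K` contains all conjugates of `c` and is normal in `G₀` (a conjugate of a
generator `r c r⁻¹` is a conjugate of `c`, hence in `(r' c r'⁻¹) K`), `K ≤ K' ≤ N`, `InfRank N K'` by `infRank_sup`
(V01). By maximality `K' = K`, so `c ∈ K`. -/

namespace Pool.Agent.LibNV

open Pool.Agent.LibNM

/-- the centralizer of `N` modulo `K` -/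
private def V05_S {G₀ : Type} [Group G₀] (N K : Subgroup G₀) [K.Normal] : Subgroup G₀ where
  carrier := {g | ∀ n ∈ N, g * n * g⁻¹ * n⁻¹ ∈ K}
  one_mem' := by
    intro n _
    simp
  mul_mem' := by
    intro g h hg hh n hn
    have h1 := hg n hn
    have h2 := Subgroup.Normal.conj_mem (inferInstance : K.Normal) _ (hh n hn) g
    have h3 := K.mul_mem h2 h1
    have e : g * (h * n * h⁻¹ * n⁻¹) * g⁻¹ * (g * n * g⁻¹ * n⁻¹) = g * h * n * (g * h)⁻¹ * n⁻¹ := by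
      group
    rwa [e] at h3
  inv_mem' := by
    intro g hg n hn
    have h1 := K.inv_mem (hg n hn)
    have h2 := Subgroup.Normal.conj_mem (inferInstance : K.Normal) _ h1 g⁻¹
    have e : g⁻¹ * (g * n * g⁻¹ * n⁻¹)⁻¹ * g⁻¹⁻¹ = g⁻¹ * n * g⁻¹⁻¹ * n⁻¹ := by
      group
    rwa [e] at h2

private theorem V05_S_normal {G₀ : Type} [Group G₀] (N K : Subgroup G₀) [N.Normal] [K.Normal] :
    (V05_S N K).Normal := by
  constructor
  intro g hg h n hn
  have h0 : h⁻¹ * n * h ∈ N := by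
    have := Subgroup.Normal.conj_mem (inferInstance : N.Normal) _ hn h⁻¹
    rwa [inv_inv] at this
  have h1 := hg _ h0
  have h2 := Subgroup.Normal.conj_mem (inferInstance : K.Normal) _ h1 h
  have e : h * (g * (h⁻¹ * n * h) * g⁻¹ * (h⁻¹ * n * h)⁻¹) * h⁻¹ =
      h * g * h⁻¹ * n * (h * g * h⁻¹)⁻¹ * n⁻¹ := by
    group
  rwa [e] at h2

/-- the elements of `N` with a nonzero power in `K` -/
private def V05_T {G₀ : Type} [Group G₀] (N K : Subgroup G₀) (hN : ∀ a ∈ N, ∀ b ∈ N, a * b = b * a) :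
    Subgroup G₀ where
  carrier := {x | x ∈ N ∧ ∃ n : ℤ, n ≠ 0 ∧ x ^ n ∈ K}
  one_mem' := ⟨N.one_mem, 1, one_ne_zero, by simp⟩
  mul_mem' := by
    rintro x y ⟨hx, n, hn, hxn⟩ ⟨hy, m, hm, hym⟩
    refine ⟨N.mul_mem hx hy, n * m, mul_ne_zero hn hm, ?_⟩
    have hc : Commute x y := hN x hx y hy
    rw [hc.mul_zpow, zpow_mul, mul_comm n m, zpow_mul]
    exact K.mul_mem (K.zpow_mem hxn m) (K.zpow_mem hym n)
  inv_mem' := by
    rintro x ⟨hx, n, hn, hxn⟩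
    refine ⟨N.inv_mem hx, n, hn, ?_⟩
    rw [inv_zpow]
    exact K.inv_mem hxn

private theorem V05_T_normal {G₀ : Type} [Group G₀] (N K : Subgroup G₀) [N.Normal] [K.Normal]
    (hN : ∀ a ∈ N, ∀ b ∈ N, a * b = b * a) : (V05_T N K hN).Normal := by
  constructor
  rintro x ⟨hx, n, hn, hxn⟩ g
  refine ⟨Subgroup.Normal.conj_mem (inferInstance : N.Normal) _ hx g, n, hn, ?_⟩
  rw [conj_zpow]
  exact Subgroup.Normal.conj_mem (inferInstance : K.Normal) _ hxn g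

/-- the commutator of two elements which centralize `N` modulo `K` is fixed modulo `K` by `G₁` -/
private theorem V05_comm {G₀ : Type} [Group G₀] (N G₁ K : Subgroup G₀) [N.Normal] [K.Normal]
    (hN : ∀ a ∈ N, ∀ b ∈ N, a * b = b * a) (hQ : ∀ a ∈ G₁, ∀ b ∈ G₁, a * b * a⁻¹ * b⁻¹ ∈ N)
    {s t g : G₀} (hs : ∀ n ∈ N, s * n * s⁻¹ * n⁻¹ ∈ K) (ht : ∀ n ∈ N, t * n * t⁻¹ * n⁻¹ ∈ K)
    (hs1 : s ∈ G₁) (ht1 : t ∈ G₁) (hg : g ∈ G₁) :
    (QuotientGroup.mk (g * (s * t * s⁻¹ * t⁻¹) * g⁻¹) : G₀ ⧸ K) = QuotientGroup.mk (s * t * s⁻¹ * t⁻¹) := by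
  have key : ∀ u : G₀, (∀ n ∈ N, u * n * u⁻¹ * n⁻¹ ∈ K) → ∀ n ∈ N,
      (QuotientGroup.mk' K u) * (QuotientGroup.mk' K n) = (QuotientGroup.mk' K n) * (QuotientGroup.mk' K u) := by
    intro u hu n hn
    have h1 : QuotientGroup.mk' K (u * n * u⁻¹ * n⁻¹) = 1 := (QuotientGroup.eq_one_iff _).2 (hu n hn)
    rw [map_mul, map_mul, map_mul, map_inv, map_inv, mul_inv_eq_one, mul_inv_eq_iff_eq_mul] at h1
    exact h1
  obtain ⟨a, ha, hga⟩ : ∃ a ∈ N, g * s * g⁻¹ = a * s :=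
    ⟨g * s * g⁻¹ * s⁻¹, hQ g hg s hs1, by group⟩
  obtain ⟨b, hb, hgb⟩ : ∃ b ∈ N, g * t * g⁻¹ = b * t :=
    ⟨g * t * g⁻¹ * t⁻¹, hQ g hg t ht1, by group⟩
  have e1 : g * (s * t * s⁻¹ * t⁻¹) * g⁻¹ = (a * s) * (b * t) * (a * s)⁻¹ * (b * t)⁻¹ := by
    rw [← hga, ← hgb]
    group
  have k1 := key s hs a ha
  have k2 := key s hs b hb
  have k3 := key t ht a ha
  have k4 := key t ht b hb
  have k5 : (QuotientGroup.mk' K a) * (QuotientGroup.mk' K b) = (QuotientGroup.mk' K b) * (QuotientGroup.mk' K a) := by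
    rw [← map_mul, hN a ha b hb, map_mul]
  rw [e1]
  show QuotientGroup.mk' K _ = QuotientGroup.mk' K _
  simp only [map_mul, map_inv]
  generalize QuotientGroup.mk' K a = A at *
  generalize QuotientGroup.mk' K b = B at *
  generalize QuotientGroup.mk' K s = S at *
  generalize QuotientGroup.mk' K t = T at *
  rw [mul_inv_eq_iff_eq_mul, mul_inv_eq_iff_eq_mul]
  calc A * S * (B * T) = A * (S * B) * T := by group
    _ = A * B * S * T := by rw [k2]; group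
    _ = B * A * (S * T) := by rw [k5]; group
    _ = B * (A * S) * T := by group
    _ = B * S * (A * T) := by rw [← k1]; group
    _ = B * S * T * A := by rw [← k3]; group
    _ = S * (B * T) * A := by rw [← k2]; group
    _ = S * T * B * A := by rw [← k4]; group
    _ = S * T * (B * A) := by group
    _ = S * T * S⁻¹ * T⁻¹ * (T * (S * (B * A))) := by group
    _ = S * T * S⁻¹ * T⁻¹ * (T * ((S * B) * A)) := by group
    _ = S * T * S⁻¹ * T⁻¹ * (T * (B * (S * A))) := by rw [k2]; group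
    _ = S * T * S⁻¹ * T⁻¹ * ((T * B) * (A * S)) := by rw [k1]; group
    _ = S * T * S⁻¹ * T⁻¹ * (B * T) * (A * S) := by rw [k4]; group

theorem exists_KSV {G₀ : Type} [Group G₀] (hfg : Group.FG G₀) (N G₁ : Subgroup G₀) [N.Normal]
    [G₁.Normal] [G₁.FiniteIndex] (hNG : N ≤ G₁) (hN : ∀ a ∈ N, ∀ b ∈ N, a * b = b * a)
    (hQ : ∀ a ∈ G₁, ∀ b ∈ G₁, a * b * a⁻¹ * b⁻¹ ∈ N) (hinf : InfRank N ⊥) :
    ∃ K S₀ : Subgroup G₀, K.Normal ∧ S₀.Normal ∧ K ≤ N ∧ N ≤ S₀ ∧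
      (∀ g, g ∈ S₀ ↔ ∀ n ∈ N, g * n * g⁻¹ * n⁻¹ ∈ K) ∧
      (∀ s ∈ S₀ ⊓ G₁, ∀ t ∈ S₀ ⊓ G₁, s * t * s⁻¹ * t⁻¹ ∈ K) ∧
      (∀ x ∈ N, ∀ n : ℤ, n ≠ 0 → x ^ n ∈ K → x ∈ K) ∧ InfRank N K ∧
      ∀ K' : Subgroup G₀, K'.Normal → K < K' → K' ≤ N → ¬ InfRank N K' := by
  have hab1 : ∀ K : Subgroup G₀, ∀ a ∈ N, ∀ b ∈ N, a * b * a⁻¹ * b⁻¹ ∈ K := by
    intro K a ha b hb
    rw [hN a ha b hb, mul_assoc b a a⁻¹, mul_inv_cancel, mul_one, mul_inv_cancel]
    exact K.one_mem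
  obtain ⟨K, ⟨hKn, hKN, hKinf⟩, hmax⟩ := maxnV hfg N G₁ hNG hN hQ
    {K | K.Normal ∧ K ≤ N ∧ InfRank N K} ⟨⊥, inferInstance, bot_le, hinf⟩ (fun K hK => ⟨hK.1, hK.2.1⟩)
  have hKn' := hKn
  refine ⟨K, V05_S N K, hKn, V05_S_normal N K, hKN, fun a ha n hn => hab1 K a ha n hn, fun g => Iff.rfl, ?_, ?_,
    hKinf, ?_⟩
  · rintro s ⟨hs, hs1⟩ t ⟨ht, ht1⟩
    obtain ⟨c, hc⟩ : ∃ c, c = s * t * s⁻¹ * t⁻¹ := ⟨_, rfl⟩
    have hcN : c ∈ N := by
      rw [hc]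
      exact hQ s hs1 t ht1
    have hfin : Finite (G₀ ⧸ G₁) := inferInstance
    have hft : Fintype (G₀ ⧸ G₁) := Fintype.ofFinite _
    classical
    obtain ⟨C, hC⟩ : ∃ C : Finset G₀, C = Finset.univ.image (fun q : G₀ ⧸ G₁ => q.out * c * q.out⁻¹) := ⟨_, rfl⟩
    have hCN : (C : Set G₀) ⊆ N := by
      intro x hx
      rw [hC] at hx
      simp only [Finset.coe_image, Finset.coe_univ, Set.image_univ, Set.mem_range] at hx
      obtain ⟨q, rfl⟩ := hx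
      exact Subgroup.Normal.conj_mem (inferInstance : N.Normal) _ hcN _
    have hconj : ∀ g : G₀, g * c * g⁻¹ ∈ Subgroup.closure (C : Set G₀) ⊔ K := by
      intro g
      obtain ⟨r, hr⟩ : ∃ r, r = (g : G₀ ⧸ G₁).out := ⟨_, rfl⟩
      have h1 : ((r : G₀) : G₀ ⧸ G₁) = (g : G₀ ⧸ G₁) := by
        rw [hr]
        exact QuotientGroup.out_eq' _
      rw [QuotientGroup.eq] at h1
      have h2 := V05_comm N G₁ K hN hQ (s := s) (t := t) (g := r⁻¹ * g) hs ht hs1 ht1 h1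
      rw [← hc, QuotientGroup.eq] at h2
      have h3 := Subgroup.Normal.conj_mem hKn _ (K.inv_mem h2) r
      have h4 : r * c * r⁻¹ ∈ Subgroup.closure (C : Set G₀) := by
        apply Subgroup.subset_closure
        rw [hC, hr]
        simp only [Finset.coe_image, Finset.coe_univ, Set.image_univ, Set.mem_range]
        exact ⟨(g : G₀ ⧸ G₁), rfl⟩
      have e : g * c * g⁻¹ = (r * c * r⁻¹) * (r * ((r⁻¹ * g * c * (r⁻¹ * g)⁻¹)⁻¹ * c)⁻¹ * r⁻¹) := by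
        group
      rw [e]
      exact Subgroup.mul_mem_sup h4 h3
    obtain ⟨K', hK'⟩ : ∃ K' : Subgroup G₀, K' = Subgroup.normalClosure {c} ⊔ K := ⟨_, rfl⟩
    have hK'n : K'.Normal := by
      rw [hK']
      infer_instance
    have hKK' : K ≤ K' := by
      rw [hK']
      exact le_sup_right
    have hK'N : K' ≤ N := by
      rw [hK']
      refine sup_le (Subgroup.normalClosure_le_normal ?_) hKN
      simpa using hcN
    have hK'C : K' ≤ Subgroup.closure (C : Set G₀) ⊔ K := by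
      rw [hK']
      refine sup_le ?_ le_sup_right
      unfold Subgroup.normalClosure
      rw [Subgroup.closure_le]
      intro x hx
      rw [Group.mem_conjugatesOfSet_iff] at hx
      obtain ⟨a, ha, hax⟩ := hx
      rw [Set.mem_singleton_iff] at ha
      subst ha
      obtain ⟨g, hg⟩ := isConj_iff.1 hax
      rw [← hg]
      exact hconj g
    have h5 := hmax K' ⟨hK'n, hK'N, infRank_sup N K K' (hab1 K) C hCN hKK' hK'C hKinf⟩ hKK'
    have h6 : c ∈ K' := by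
      rw [hK']
      exact Subgroup.mem_sup_left (Subgroup.subset_normalClosure (Set.mem_singleton c))
    rw [h5, hc] at h6
    exact h6
  · intro x hx n hn hxn
    have hT := V05_T_normal N K hN
    have hKT : K ≤ V05_T N K hN := fun y hy => ⟨hKN hy, 1, one_ne_zero, by rwa [zpow_one]⟩
    have hTN : V05_T N K hN ≤ N := fun y hy => hy.1
    have h5 := hmax (V05_T N K hN) ⟨hT, hTN, infRank_torsion N K (V05_T N K hN) (hab1 K) hKT hTN
      (fun y hy => hy.2) hKinf⟩ hKT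
    have h6 : x ∈ V05_T N K hN := ⟨hx, n, hn, hxn⟩
    rw [h5] at h6
    exact h6
  · intro K' hK'n hlt hK'N hinf'
    exact hlt.ne (hmax K' ⟨hK'n, hK'N, hinf'⟩ hlt.le).symm

end Pool.Agent.LibNV
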