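import Mathlib
import Pool.Agent.LibNV.Defs

set_option autoImplicit false

/-! [NV V06] Transfer, and the normal subgroup `K₂`.

PLAN. `transfer_part`: give `↥S₁` the structure of a `CommGroup` (`hab`) and let
`ϕ := MonoidHom.id S₁`; `MonoidHom.transfer ϕ : S →* S₁` kills `commutator S` (commutative target:
`Abelianization.commutator_subset_ker`), and `MonoidHom.transfer_eq_pow` gives `transfer x = ⟨x ^ S₁.index, _⟩`
(the key hypothesis holds because `x` is central: `g₀⁻¹ * x ^ k * g₀ = x ^ k`).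
`exists_K2`: `K₂ := K ⊔ ⁅S₀, S₀⁆`. Let `x ∈ N ∩ K₂`: `x = k * s`, `s ∈ ⁅S₀, S₀⁆` (`K` normal), `s = k⁻¹ x ∈ N`. In
`S̄ := ↥S₀ ⧸ K.subgroupOf S₀` let `S̄₁` be the image of `G₁.subgroupOf S₀`, of finite index, commutative by `h2`; the
image `s̄` of `s` is central by `h1` (it lies in the image of `N`), lies in `S̄₁` (`N ≤ G₁`) and in `commutator S̄`
(`⁅S₀, S₀⁆` is the image of `commutator ↥S₀`). By `transfer_part` `s̄ ^ n = 1` with `n = S̄₁.index ≠ 0`: `s ^ n ∈ K`, and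
`s ∈ K` by `h3`. -/

namespace Pool.Agent.LibNV

theorem transfer_part {S : Type} [Group S] (S₁ : Subgroup S) [S₁.FiniteIndex]
    (hab : ∀ a ∈ S₁, ∀ b ∈ S₁, a * b = b * a) (x : S) (hx : ∀ s, s * x = x * s)
    (hx2 : x ∈ commutator S) : x ^ S₁.index = 1 := by
  let _ : CommGroup S₁ :=
    { (inferInstance : Group S₁) with
      mul_comm := fun a b => Subtype.ext (hab a.1 a.2 b.1 b.2) }
  have hker : (MonoidHom.transfer (MonoidHom.id S₁) : S →* S₁) x = 1 :=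
    MonoidHom.mem_ker.1 (Abelianization.commutator_subset_ker _ hx2)
  have key : ∀ (k : ℕ) (g₀ : S), g₀⁻¹ * x ^ k * g₀ ∈ S₁ → g₀⁻¹ * x ^ k * g₀ = x ^ k := by
    intro k g₀ _
    have hc : Commute g₀ (x ^ k) := Commute.pow_right (hx g₀) k
    rw [mul_assoc, ← hc.eq, inv_mul_cancel_left]
  rw [MonoidHom.transfer_eq_pow (MonoidHom.id S₁) x key] at hker
  have := congrArg Subtype.val hker
  exact this

theorem exists_K2 {G₀ : Type} [Group G₀] (N G₁ K S₀ : Subgroup G₀) [N.Normal] [G₁.Normal]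
    [G₁.FiniteIndex] [K.Normal] [S₀.Normal] (hKN : K ≤ N) (hNS : N ≤ S₀)
    (h1 : ∀ g ∈ S₀, ∀ n ∈ N, g * n * g⁻¹ * n⁻¹ ∈ K)
    (h2 : ∀ s ∈ S₀ ⊓ G₁, ∀ t ∈ S₀ ⊓ G₁, s * t * s⁻¹ * t⁻¹ ∈ K)
    (h3 : ∀ x ∈ N, ∀ n : ℤ, n ≠ 0 → x ^ n ∈ K → x ∈ K) :
    ∃ K₂ : Subgroup G₀, K₂.Normal ∧ K₂ ≤ S₀ ∧ (∀ s ∈ S₀, ∀ t ∈ S₀, s * t * s⁻¹ * t⁻¹ ∈ K₂) ∧
      ∀ x ∈ N, x ∈ K₂ ↔ x ∈ K := by
  have hKS : K ≤ S₀ := hKN.trans hNS
  refine ⟨K ⊔ ⁅S₀, S₀⁆, inferInstance, sup_le hKS (Subgroup.commutator_le_self S₀), ?_, ?_⟩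
  · intro s hs t ht
    exact Subgroup.mem_sup_right (Subgroup.commutator_mem_commutator hs ht)
  · intro x hxN
    refine ⟨fun hx => ?_, fun hx => Subgroup.mem_sup_left hx⟩
    rw [← SetLike.mem_coe, Subgroup.normal_mul] at hx
    obtain ⟨k, hk, s, hs, rfl⟩ := Set.mem_mul.1 hx
    have hsN : s ∈ N := by
      have h := N.mul_mem (N.inv_mem (hKN hk)) hxN
      rwa [inv_mul_cancel_left] at h
    have hsS : s ∈ S₀ := hNS hsN
    obtain ⟨π, hπ⟩ : ∃ π : S₀ →* S₀ ⧸ K.subgroupOf S₀, π = QuotientGroup.mk' _ := ⟨_, rfl⟩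
    have hπs : Function.Surjective π := by
      rw [hπ]
      exact QuotientGroup.mk'_surjective _
    have hπ1 : ∀ y : S₀, π y = 1 ↔ (y : G₀) ∈ K := by
      intro y
      rw [hπ, QuotientGroup.mk'_apply, QuotientGroup.eq_one_iff, Subgroup.mem_subgroupOf]
    obtain ⟨S₁, hS₁⟩ : ∃ S₁ : Subgroup (S₀ ⧸ K.subgroupOf S₀),
        S₁ = (G₁.subgroupOf S₀).map π := ⟨_, rfl⟩
    have hfin : S₁.FiniteIndex := by
      have h0 : (G₁.subgroupOf S₀).index ≠ 0 := Subgroup.FiniteIndex.index_ne_zero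
      refine ⟨fun h => h0 ?_⟩
      rw [hS₁] at h
      exact Nat.eq_zero_of_zero_dvd (h ▸ Subgroup.index_map_dvd _ hπs)
    have hab : ∀ a ∈ S₁, ∀ b ∈ S₁, a * b = b * a := by
      intro a ha b hb
      rw [hS₁] at ha hb
      obtain ⟨u, hu, rfl⟩ := ha
      obtain ⟨v, hv, rfl⟩ := hb
      have h := h2 u ⟨u.2, hu⟩ v ⟨v.2, hv⟩
      have h' : π (u * v * u⁻¹ * v⁻¹) = 1 := (hπ1 _).2 h
      rw [map_mul, map_mul, map_mul, map_inv, map_inv] at h'
      exact commutatorElement_eq_one_iff_mul_comm.1 h'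
    obtain ⟨s', hs'⟩ : ∃ s' : S₀, s' = ⟨s, hsS⟩ := ⟨_, rfl⟩
    have hcen : ∀ q, q * π s' = π s' * q := by
      intro q
      obtain ⟨g, rfl⟩ := hπs q
      have h := h1 g g.2 s hsN
      have h' : π (g * s' * g⁻¹ * s'⁻¹) = 1 := by
        rw [hπ1, hs']
        exact h
      rw [map_mul, map_mul, map_mul, map_inv, map_inv] at h'
      exact commutatorElement_eq_one_iff_mul_comm.1 h'
    have hcomm : π s' ∈ commutator (S₀ ⧸ K.subgroupOf S₀) := by
      have h3' : s' ∈ commutator S₀ := by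
        rw [← Subgroup.map_subtype_commutator] at hs
        obtain ⟨w, hw, hw2⟩ := hs
        have : w = s' := by
          rw [hs']
          exact Subtype.ext hw2
        rw [← this]
        exact hw
      have h4 : π s' ∈ (commutator S₀).map π := Subgroup.mem_map_of_mem π h3'
      rw [commutator_def, Subgroup.map_commutator] at h4
      exact Subgroup.commutator_mono le_top le_top h4
    have hpow := transfer_part S₁ hab (π s') hcen hcomm
    have hmem : s ^ S₁.index ∈ K := by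
      rw [← map_pow, hπ1, hs'] at hpow
      exact hpow
    have hsK : s ∈ K := by
      refine h3 s hsN (S₁.index : ℤ) ?_ ?_
      · exact_mod_cast hfin.index_ne_zero
      · rw [zpow_natCast]
        exact hmem
    exact K.mul_mem hk hsK

end Pool.Agent.LibNV
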