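import Mathlib
import Pool.Agent.LibND.Defs
import Pool.Agent.LibNV.Defs
import Pool.Agent.LibNV.V01
import Pool.Agent.LibNV.V02
import Pool.Agent.LibNV.V05
import Pool.Agent.LibNV.V06

set_option autoImplicit false

/-! [NV V07] Reduction of the group to module data.

PLAN. `K`, `S₀` from `exists_KSV` (V05), `K₂` from `exists_K2` (V06). `G₂ := G₀ ⧸ K₂`, `p₂ := QuotientGroup.mk' K₂`,
`S := S₀.map p₂`, an abelian normal subgroup; `A := Additive S` (build the `CommGroup S` structure from the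
commutativity), `Γ := G₂ ⧸ S` (finitely generated), `α` = conjugation on `S`, well defined on `Γ` as `S` is abelian,
`j` = subtype, `π = mk' S`: `IsExt α j π`. All this is in the private lemma `N20_ext` of
Pool/Agent/LibNM/N20.lean (there for the commutative quotient; copy and adapt it, `Γ` is only a group here).
`M` := the additive group of the images of the elements of `N` in `A` (e.g. the additive subgroup of `A` of the
elements whose value lies in `N.map p₂`, as a type), `β` the restriction of `α`, `i` the inclusion.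
`Γ₀` := the image of `G₁` in `Γ` (`(G₁.map p₂).map π`): normal, finite index, commutative since
`[G₁, G₁] ≤ N ≤ S₀`. Faithful: if `γ = π (p₂ g)` acts trivially on `M` then `g n g⁻¹ n⁻¹ ∈ K₂ ∩ N = K` for all `n ∈ N`, so
`g ∈ S₀`, `γ = 1`. Torsion-free: by the property of `K` for powers. `¬ FinRk ⊥`: by `infRank_iff` (V01) and `InfRank N K`.
`quot`: a nonzero stable `L` corresponds to the normal subgroup `K' := {x ∈ N | image of x in M lies in L}` of `G₀`,
`K < K' ≤ N`, `¬ InfRank N K'`, and `infRank_iff` for `N`, `K'` gives the finite set. `gen`: the images of the finite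
set `F` of `fgV` (V02), applied to the subgroup `{x ∈ N | image of x in M lies in L}` (it is stable under
conjugation by `G₁`). -/

namespace Pool.Agent.LibNV

open Pool.Agent.LibNM Pool.Agent.LibND

/-- the extension given by an abelian normal subgroup -/
private theorem V07_ext {G₁ : Type} [Group G₁] (S : Subgroup G₁) [S.Normal]
    (hSc : ∀ x ∈ S, ∀ y ∈ S, x * y = y * x) :
    ∃ (A Q : Type) (_ : AddCommGroup A) (_ : Group Q) (α : Q →* AddMonoid.End A)
      (j : Multiplicative A →* G₁) (π : G₁ →* Q), IsExt α j π ∧ j.range = S := by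
  let cS : CommGroup S :=
    { (inferInstance : Group S) with
      mul_comm := fun x y => Subtype.ext (hSc x x.2 y y.2) }
  let αG : G₁ →* AddMonoid.End (Additive S) :=
    { toFun := fun g => MonoidHom.toAdditive (MulAut.conjNormal (H := S) g).toMonoidHom
      map_one' := by
        ext x
        simp only [map_one]
        rfl
      map_mul' := by
        intro g h
        ext x
        simp only [map_mul]
        rfl }
  have hαG : ∀ (g : G₁) (x : Additive S),
      ((Additive.toMul (αG g x) : S) : G₁) = g * ((Additive.toMul x : S) : G₁) * g⁻¹ :=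
    fun g x => rfl
  have hα : ∀ s ∈ S, αG s = 1 := by
    intro s hs
    refine AddMonoidHom.ext fun x => Additive.toMul.injective (Subtype.ext ?_)
    exact (hαG s x).trans (mul_inv_eq_iff_eq_mul.2 (hSc s hs _ (Additive.toMul x).2))
  let j : Multiplicative (Additive S) →* G₁ :=
    { toFun := fun x => ((Additive.toMul (Multiplicative.toAdd x) : S) : G₁)
      map_one' := rfl
      map_mul' := fun x y => rfl }
  have hj : ∀ x : Additive S, j (Multiplicative.ofAdd x) = ((Additive.toMul x : S) : G₁) :=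
    fun x => rfl
  refine ⟨Additive S, G₁ ⧸ S, inferInstance, inferInstance, QuotientGroup.lift S αG hα, j,
    QuotientGroup.mk' S, ?_, ?_⟩
  · refine ⟨fun x y hxy => ?_, QuotientGroup.mk'_surjective S, ?_, fun g a => ?_⟩
    · exact Multiplicative.toAdd.injective (Additive.toMul.injective (Subtype.ext hxy))
    · rw [QuotientGroup.ker_mk']
      ext x
      constructor
      · rintro ⟨y, rfl⟩
        exact (Additive.toMul (Multiplicative.toAdd y)).2
      · intro hx
        exact ⟨Multiplicative.ofAdd (Additive.ofMul ⟨x, hx⟩), rfl⟩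
    · rw [hj, hj]
      rfl
  · ext x
    constructor
    · rintro ⟨y, rfl⟩
      exact (Additive.toMul (Multiplicative.toAdd y)).2
    · intro hx
      exact ⟨Multiplicative.ofAdd (Additive.ofMul ⟨x, hx⟩), rfl⟩

/-- finite rank in terms of the group -/
private theorem V07_fin {G₀ M : Type} [Group G₀] [AddCommGroup M] (N : Subgroup G₀)
    (hN : ∀ a ∈ N, ∀ b ∈ N, a * b = b * a) (q : G₀ → M) (hq1 : q 1 = 0)
    (hqm : ∀ x ∈ N, ∀ y ∈ N, q (x * y) = q x + q y) (hqi : ∀ x ∈ N, q x⁻¹ = -q x)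
    (hqz : ∀ x ∈ N, ∀ n : ℤ, q (x ^ n) = n • q x) (hqs : ∀ m, ∃ x ∈ N, q x = m)
    (L : AddSubgroup M) (K' : Subgroup G₀) [K'.Normal] (hK' : ∀ x, x ∈ K' ↔ x ∈ N ∧ q x ∈ L) :
    FinRk L ↔ ¬ InfRank N K' := by
  classical
  have hab : ∀ a ∈ N, ∀ b ∈ N, a * b * a⁻¹ * b⁻¹ ∈ K' := by
    intro a ha b hb
    rw [hN a ha b hb, mul_inv_cancel_right, mul_inv_cancel]
    exact K'.one_mem
  rw [infRank_iff N K' hab]
  push Not
  constructor
  · rintro ⟨F, hF⟩
    choose l hl hl' using hqs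
    refine ⟨F.image l, ?_, fun x hx => ?_⟩
    · intro y hy
      rw [Finset.mem_coe, Finset.mem_image] at hy
      obtain ⟨m, _, rfl⟩ := hy
      exact hl m
    · obtain ⟨n, hn, hm⟩ := hF (q x)
      refine ⟨n, hn, ?_⟩
      let T : AddSubgroup M :=
        { carrier := {m | ∃ y ∈ Subgroup.closure ((F.image l : Finset G₀) : Set G₀) ⊔ K',
            y ∈ N ∧ q y = m}
          add_mem' := by
            rintro a b ⟨y, hy, hy1, rfl⟩ ⟨z, hz, hz1, rfl⟩
            exact ⟨y * z, mul_mem hy hz, mul_mem hy1 hz1, hqm y hy1 z hz1⟩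
          zero_mem' := ⟨1, one_mem _, one_mem _, hq1⟩
          neg_mem' := by
            rintro a ⟨y, hy, hy1, rfl⟩
            exact ⟨y⁻¹, inv_mem hy, inv_mem hy1, hqi y hy1⟩ }
      have hT : AddSubgroup.closure (F : Set M) ⊔ L ≤ T := by
        refine sup_le ((AddSubgroup.closure_le _).2 fun f hf => ?_) fun m hm => ?_
        · refine ⟨l f, ?_, hl f, hl' f⟩
          refine Subgroup.mem_sup_left (Subgroup.subset_closure ?_)
          rw [Finset.mem_coe, Finset.mem_image]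
          exact ⟨f, hf, rfl⟩
        · refine ⟨l m, ?_, hl m, hl' m⟩
          refine Subgroup.mem_sup_right ((hK' _).2 ⟨hl m, ?_⟩)
          rw [hl' m]
          exact hm
      obtain ⟨y, hy, hy1, hy2⟩ := hT hm
      have hxn : x ^ n ∈ N := N.zpow_mem hx n
      have h1 : x ^ n * y⁻¹ ∈ K' := by
        refine (hK' _).2 ⟨mul_mem hxn (inv_mem hy1), ?_⟩
        rw [hqm _ hxn _ (inv_mem hy1), hqi y hy1, hqz x hx, hy2, add_neg_cancel]
        exact L.zero_mem
      have h2 := mul_mem (Subgroup.mem_sup_right (S := Subgroup.closure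
        ((F.image l : Finset G₀) : Set G₀)) h1) hy
      rwa [inv_mul_cancel_right] at h2
  · rintro ⟨F, hFN, hF⟩
    refine ⟨F.image q, fun m => ?_⟩
    obtain ⟨x, hx, rfl⟩ := hqs m
    obtain ⟨n, hn, hxn⟩ := hF x hx
    refine ⟨n, hn, ?_⟩
    let H : Subgroup G₀ :=
      { carrier := {g | g ∈ N ∧ q g ∈ AddSubgroup.closure ((F.image q : Finset M) : Set M) ⊔ L}
        mul_mem' := by
          rintro a b ⟨ha, ha'⟩ ⟨hb, hb'⟩
          refine ⟨mul_mem ha hb, ?_⟩
          rw [hqm a ha b hb]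
          exact add_mem ha' hb'
        one_mem' := by
          refine ⟨one_mem _, ?_⟩
          rw [hq1]
          exact zero_mem _
        inv_mem' := by
          rintro a ⟨ha, ha'⟩
          refine ⟨inv_mem ha, ?_⟩
          rw [hqi a ha]
          exact neg_mem ha' }
    have hH : Subgroup.closure (F : Set G₀) ⊔ K' ≤ H := by
      refine sup_le ((Subgroup.closure_le _).2 fun f hf => ?_) fun m hm => ?_
      · refine ⟨hFN hf, AddSubgroup.mem_sup_left (AddSubgroup.subset_closure ?_)⟩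
        rw [Finset.mem_coe, Finset.mem_image]
        exact ⟨f, hf, rfl⟩
      · exact ⟨((hK' m).1 hm).1, AddSubgroup.mem_sup_right ((hK' m).1 hm).2⟩
    have h1 := (hH hxn).2
    rwa [hqz x hx] at h1

/-- the module part -/
private theorem V07_module {G₀ G₂ A Γ : Type} [Group G₀] [Group G₂] [AddCommGroup A] [Group Γ]
    (hfg : Group.FG G₀) (N G₁ K : Subgroup G₀) [N.Normal] [G₁.Normal] [G₁.FiniteIndex] [K.Normal]
    (hNG : N ≤ G₁) (hN : ∀ a ∈ N, ∀ b ∈ N, a * b = b * a)
    (hQ : ∀ a ∈ G₁, ∀ b ∈ G₁, a * b * a⁻¹ * b⁻¹ ∈ N) (hKN : K ≤ N) (p₂ : G₀ →* G₂)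
    (hp : Function.Surjective p₂) (hker : ∀ x ∈ N, p₂ x = 1 ↔ x ∈ K)
    (α : Γ →* AddMonoid.End A) (j : Multiplicative A →* G₂) (π : G₂ →* Γ) (hE : IsExt α j π)
    (hNS : ∀ n ∈ N, p₂ n ∈ j.range)
    (hS : ∀ g : G₀, (∀ n ∈ N, g * n * g⁻¹ * n⁻¹ ∈ K) → π (p₂ g) = 1)
    (htf : ∀ x ∈ N, ∀ n : ℤ, n ≠ 0 → x ^ n ∈ K → x ∈ K) (hinf : InfRank N K)
    (hmax : ∀ K' : Subgroup G₀, K'.Normal → K < K' → K' ≤ N → ¬ InfRank N K') :
    ∃ (M : Type) (_ : AddCommGroup M) (Γ₀ : Subgroup Γ) (β : Γ →* AddMonoid.End M) (i : M →+ A),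
      Function.Injective i ∧ (∀ γ m, i (β γ m) = α γ (i m)) ∧ JI β Γ₀ := by
  classical
  let B : AddSubgroup A :=
    { carrier := {a | ∃ n ∈ N, j (Multiplicative.ofAdd a) = p₂ n}
      add_mem' := by
        rintro a b ⟨n, hn, h1⟩ ⟨n', hn', h2⟩
        exact ⟨n * n', N.mul_mem hn hn', by rw [ofAdd_add, map_mul, map_mul, h1, h2]⟩
      zero_mem' := ⟨1, N.one_mem, by rw [ofAdd_zero, map_one, map_one]⟩
      neg_mem' := by
        rintro a ⟨n, hn, h1⟩
        exact ⟨n⁻¹, N.inv_mem hn, by rw [ofAdd_neg, map_inv, map_inv, h1]⟩ }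
  have hconj : ∀ (g : G₀) (a : A), j (Multiplicative.ofAdd (α (π (p₂ g)) a)) =
      p₂ g * j (Multiplicative.ofAdd a) * (p₂ g)⁻¹ := fun g a => (hE.conj (p₂ g) a).symm
  have hlift : ∀ γ : Γ, ∃ g : G₀, π (p₂ g) = γ := by
    intro γ
    obtain ⟨g₁, rfl⟩ := hE.surj γ
    obtain ⟨g, rfl⟩ := hp g₁
    exact ⟨g, rfl⟩
  have hBα : ∀ (γ : Γ), ∀ a ∈ B, α γ a ∈ B := by
    rintro γ a ⟨n, hn, h1⟩
    obtain ⟨g, rfl⟩ := hlift γ
    refine ⟨g * n * g⁻¹, Subgroup.Normal.conj_mem inferInstance n hn g, ?_⟩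
    rw [hconj, h1, map_mul, map_mul, map_inv]
  have hjinj : ∀ a b : B, j (Multiplicative.ofAdd (a : A)) = j (Multiplicative.ofAdd (b : A)) →
      a = b := fun a b h => Subtype.ext (Multiplicative.ofAdd.injective (hE.inj h))
  let β : Γ →* AddMonoid.End B :=
    { toFun := fun γ =>
        { toFun := fun x : B => (⟨α γ (x : A), hBα γ x x.2⟩ : B)
          map_zero' := Subtype.ext (map_zero (α γ))
          map_add' := fun x y => Subtype.ext (map_add (α γ) (x : A) (y : A)) }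
      map_one' := by
        refine AddMonoidHom.ext fun x => Subtype.ext ?_
        change α 1 (x : A) = x
        rw [map_one]
        rfl
      map_mul' := by
        intro γ δ
        refine AddMonoidHom.ext fun x => Subtype.ext ?_
        change α (γ * δ) (x : A) = α γ (α δ (x : A))
        rw [map_mul]
        rfl }
  have hβ : ∀ (γ : Γ) (x : B), ((β γ x : B) : A) = α γ (x : A) := fun γ x => rfl
  have hq0 : ∀ g : G₀, ∃ b : B, g ∈ N → j (Multiplicative.ofAdd (b : A)) = p₂ g := by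
    intro g
    by_cases hg : g ∈ N
    · obtain ⟨y, hy⟩ := hNS g hg
      exact ⟨⟨Multiplicative.toAdd y, g, hg, hy⟩, fun _ => hy⟩
    · exact ⟨0, fun h => absurd h hg⟩
  choose q hq using hq0
  have hq1 : q 1 = 0 := by
    apply hjinj
    rw [hq 1 N.one_mem, map_one, AddSubgroup.coe_zero, ofAdd_zero, map_one]
  have hqm : ∀ x ∈ N, ∀ y ∈ N, q (x * y) = q x + q y := by
    intro x hx y hy
    apply hjinj
    rw [hq _ (mul_mem hx hy), AddSubgroup.coe_add, ofAdd_add, map_mul, map_mul, hq x hx, hq y hy]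
  have hqi : ∀ x ∈ N, q x⁻¹ = -q x := by
    intro x hx
    apply hjinj
    rw [hq _ (inv_mem hx), AddSubgroup.coe_neg, ofAdd_neg, map_inv, map_inv, hq x hx]
  have hqz : ∀ x ∈ N, ∀ n : ℤ, q (x ^ n) = n • q x := by
    intro x hx n
    apply hjinj
    rw [hq _ (N.zpow_mem hx n), AddSubgroup.coe_zsmul, ofAdd_zsmul, map_zpow, map_zpow, hq x hx]
  have hqs : ∀ m, ∃ x ∈ N, q x = m := by
    rintro ⟨a, n, hn, h⟩
    refine ⟨n, hn, hjinj _ _ ?_⟩
    rw [hq n hn]
    exact h.symm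
  have hqK : ∀ x ∈ N, q x = 0 ↔ x ∈ K := by
    intro x hx
    rw [← hker x hx, ← hq x hx]
    constructor
    · intro h
      rw [h, AddSubgroup.coe_zero, ofAdd_zero, map_one]
    · intro h
      apply hjinj
      rw [h, AddSubgroup.coe_zero, ofAdd_zero, map_one]
  have hqc : ∀ (g : G₀), ∀ x ∈ N, q (g * x * g⁻¹) = β (π (p₂ g)) (q x) := by
    intro g x hx
    apply hjinj
    rw [hq _ (Subgroup.Normal.conj_mem inferInstance x hx g), hβ, hconj, hq x hx, map_mul,
      map_mul, map_inv]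
  have hπ : ∀ n ∈ N, π (p₂ n) = 1 := by
    intro n hn
    have h1 := hNS n hn
    rw [hE.exact] at h1
    exact h1
  refine ⟨B, inferInstance, (G₁.map p₂).map π, β, B.subtype, Subtype.val_injective,
    fun γ m => rfl, ?_⟩
  have hsurj : Function.Surjective (π.comp p₂) := hE.surj.comp hp
  have hmem : ∀ γ, γ ∈ (G₁.map p₂).map π → ∃ g ∈ G₁, π (p₂ g) = γ := by
    rintro _ ⟨_, ⟨g, hg, rfl⟩, rfl⟩
    exact ⟨g, hg, rfl⟩
  -- the subgroups which correspond to stable submodules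
  have hsub : ∀ L : AddSubgroup B, ∃ K' : Subgroup G₀, ∀ x, x ∈ K' ↔ x ∈ N ∧ q x ∈ L := by
    intro L
    refine ⟨{ carrier := {x | x ∈ N ∧ q x ∈ L}
              mul_mem' := ?_
              one_mem' := ?_
              inv_mem' := ?_ }, fun x => Iff.rfl⟩
    · rintro a b ⟨ha, ha'⟩ ⟨hb, hb'⟩
      refine ⟨mul_mem ha hb, ?_⟩
      rw [hqm a ha b hb]
      exact add_mem ha' hb'
    · refine ⟨one_mem _, ?_⟩
      rw [hq1]
      exact zero_mem _
    · rintro a ⟨ha, ha'⟩
      refine ⟨inv_mem ha, ?_⟩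
      rw [hqi a ha]
      exact neg_mem ha'
  constructor
  · -- finitely generated
    have := hfg
    exact Group.fg_of_surjective hsurj
  · -- normal
    exact Subgroup.Normal.map (Subgroup.Normal.map inferInstance p₂ hp) π hE.surj
  · -- finite index
    refine ⟨fun h0 => ?_⟩
    have h1 := (Subgroup.index_map_dvd (G₁.map p₂) hE.surj).trans (Subgroup.index_map_dvd G₁ hp)
    rw [h0, zero_dvd_iff] at h1
    exact Subgroup.FiniteIndex.index_ne_zero h1
  · -- commutative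
    intro a ha b hb
    obtain ⟨g, hg, rfl⟩ := hmem a ha
    obtain ⟨h, hh, rfl⟩ := hmem b hb
    have h1 := hπ _ (hQ g hg h hh)
    simp only [map_mul, map_inv] at h1
    rwa [mul_inv_eq_one, mul_inv_eq_iff_eq_mul] at h1
  · -- faithful
    intro γ hγ
    obtain ⟨g, rfl⟩ := hlift γ
    refine hS g fun n hn => ?_
    have h1 : g * n * g⁻¹ ∈ N := Subgroup.Normal.conj_mem inferInstance n hn g
    rw [← hqK _ (mul_mem h1 (inv_mem hn)), hqm _ h1 _ (inv_mem hn), hqc g n hn, hqi n hn, hγ,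
      add_neg_cancel]
  · -- torsion-free
    intro n m hn hm
    obtain ⟨x, hx, rfl⟩ := hqs m
    rw [hqK x hx]
    refine htf x hx n hn ?_
    rw [← hqK _ (N.zpow_mem hx n), hqz x hx, hm]
  · -- infinite rank
    intro h
    have h1 : ∀ x, x ∈ K ↔ x ∈ N ∧ q x ∈ (⊥ : AddSubgroup B) := by
      intro x
      rw [AddSubgroup.mem_bot]
      exact ⟨fun hx => ⟨hKN hx, (hqK x (hKN hx)).2 hx⟩, fun hx => (hqK x hx.1).1 hx.2⟩
    exact (V07_fin N hN q hq1 hqm hqi hqz hqs ⊥ K h1).1 h hinf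
  · -- proper quotients
    intro L hL hst
    obtain ⟨K', hK'⟩ := hsub L
    have hn : K'.Normal := by
      refine ⟨fun x hx g => ?_⟩
      obtain ⟨h1, h2⟩ := (hK' x).1 hx
      refine (hK' _).2 ⟨Subgroup.Normal.conj_mem inferInstance x h1 g, ?_⟩
      rw [hqc g x h1]
      exact hst _ _ h2
    refine (V07_fin N hN q hq1 hqm hqi hqz hqs L K' hK').2 (hmax K' hn ?_ fun x hx => ((hK' x).1 hx).1)
    refine lt_of_le_of_ne ?_ ?_
    · intro x hx
      refine (hK' x).2 ⟨hKN hx, ?_⟩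
      rw [(hqK x (hKN hx)).2 hx]
      exact L.zero_mem
    · intro heq
      apply hL
      rw [eq_bot_iff]
      intro m hm
      obtain ⟨x, hx, rfl⟩ := hqs m
      rw [AddSubgroup.mem_bot, hqK x hx, heq]
      exact (hK' x).2 ⟨hx, hm⟩
  · -- finitely generated module
    obtain ⟨F, hFN, hF⟩ := fgV hfg N G₁ hNG hQ
    refine ⟨F.image q, fun L hFL hst => ?_⟩
    obtain ⟨K', hK'⟩ := hsub L
    have h1 : N ≤ K' := by
      refine hF K' (fun x hx => (hK' x).2 ⟨hFN hx, hFL ?_⟩) fun g hg x hx => ?_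
      · rw [Finset.mem_coe, Finset.mem_image]
        exact ⟨x, hx, rfl⟩
      · obtain ⟨h1, h2⟩ := (hK' x).1 hx
        refine (hK' _).2 ⟨Subgroup.Normal.conj_mem inferInstance x h1 g, ?_⟩
        rw [hqc g x h1]
        exact hst _ ⟨p₂ g, ⟨g, hg, rfl⟩, rfl⟩ _ h2
    rw [eq_top_iff]
    rintro m -
    obtain ⟨x, hx, rfl⟩ := hqs m
    exact ((hK' x).1 (h1 hx)).2

theorem reductionV {G₀ : Type} [Group G₀] (hfg : Group.FG G₀) (N G₁ : Subgroup G₀) [N.Normal]
    [G₁.Normal] [G₁.FiniteIndex] (hNG : N ≤ G₁) (hN : ∀ a ∈ N, ∀ b ∈ N, a * b = b * a)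
    (hQ : ∀ a ∈ G₁, ∀ b ∈ G₁, a * b * a⁻¹ * b⁻¹ ∈ N) (hinf : InfRank N ⊥) :
    ∃ (G₂ A Γ M : Type) (_ : Group G₂) (_ : AddCommGroup A) (_ : Group Γ) (_ : AddCommGroup M)
      (p₂ : G₀ →* G₂) (α : Γ →* AddMonoid.End A) (j : Multiplicative A →* G₂) (π : G₂ →* Γ)
      (Γ₀ : Subgroup Γ) (β : Γ →* AddMonoid.End M) (i : M →+ A),
      Function.Surjective p₂ ∧ IsExt α j π ∧ Function.Injective i ∧
      (∀ γ m, i (β γ m) = α γ (i m)) ∧ JI β Γ₀ := by
  obtain ⟨K, S₀, hK, hS₀, hKN, hNS, hmem, hcomm, htf, hinfK, hmax⟩ :=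
    exists_KSV hfg N G₁ hNG hN hQ hinf
  obtain ⟨K₂, hK₂, hKS, hS2, hNK⟩ := exists_K2 N G₁ K S₀ hKN hNS (fun g hg => (hmem g).1 hg) hcomm
    htf
  have hp : Function.Surjective (QuotientGroup.mk' K₂) := QuotientGroup.mk'_surjective K₂
  have hSn : (S₀.map (QuotientGroup.mk' K₂)).Normal := Subgroup.Normal.map hS₀ _ hp
  obtain ⟨A, Γ, _, _, α, j, π, hE, hj⟩ := V07_ext (S₀.map (QuotientGroup.mk' K₂)) (by
    rintro _ ⟨s, hs, rfl⟩ _ ⟨t, ht, rfl⟩
    have h1 : (QuotientGroup.mk' K₂) (s * t * s⁻¹ * t⁻¹) = 1 :=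
      (QuotientGroup.eq_one_iff _).2 (hS2 s hs t ht)
    simp only [map_mul, map_inv] at h1
    rw [mul_inv_eq_one, mul_inv_eq_iff_eq_mul] at h1
    exact h1)
  obtain ⟨M, _, Γ₀, β, i, h1, h2, h3⟩ := V07_module hfg N G₁ K hNG hN hQ hKN
    (QuotientGroup.mk' K₂) hp (fun x hx => by
      rw [← hNK x hx]
      exact QuotientGroup.eq_one_iff _) α j π hE (fun n hn => by
      rw [hj]
      exact ⟨n, hNS hn, rfl⟩) (fun g hg => by
      rw [← MonoidHom.mem_ker, ← hE.exact, hj]
      exact ⟨g, (hmem g).2 hg, rfl⟩) htf hinfK hmax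
  exact ⟨G₀ ⧸ K₂, A, Γ, M, inferInstance, inferInstance, inferInstance, inferInstance,
    QuotientGroup.mk' K₂, α, j, π, Γ₀, β, i, hp, hE, h1, h2, h3⟩

end Pool.Agent.LibNV
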