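import Mathlib
import Pool.Agent.LibNV.Defs

set_option autoImplicit false

/-! [NV V08] Rationalization of the module.

PLAN. `V := ℚ ⊗[ℤ] M` (`TensorProduct ℤ ℚ M`), `ι m = 1 ⊗ₜ m`, `ρ γ = (β γ).toIntLinearMap.baseChange ℚ` (a monoid
homomorphism; `LinearMap.baseChange_comp`/`baseChange_mul`, or check on pure tensors). `ι` is injective because `M` is
torsion-free (`tf`; e.g. `IsLocalizedModule (nonZeroDivisors ℤ) (TensorProduct.mk ℤ ℚ M 1)`:
`IsLocalizedModule` of a base change, `IsLocalizedModule.eq_zero_iff`/`eq_iff_exists`; or use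
`LocalizedModule (nonZeroDivisors ℤ) M` instead of the tensor product, with `ℚ`-module structure). Every `x` has
`n • x = ι m` with `n ≠ 0`. `faith`: `ρ γ = id` gives `ι (β γ m) = ι m`. `inf`: if `V` is finite-dimensional, take a
finite spanning set, replace it by multiples `ι f_j`, `F := {f_j}`: every `ι m` is a rational combination of the
`ι f_j`, so some `n • m ∈ closure F`: `FinRk ⊥`. `quot`: for a stable `L ≠ ⊥` let `L' := {m | ι m ∈ L}`: nonzero, stable,
so `FinRk L'` with a set `F`; then `V ⧸ L` is spanned by the images of `ι f`, `f ∈ F` (`n • x = ι m`,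
`n' • m ∈ closure F ⊔ L'`). `gen`: `F.image ι`; for a stable `L ⊇ F.image ι` the additive subgroup
`L' := {m | ι m ∈ L}` is everything, so `ι m ∈ L` for all `m`, and `L = ⊤`. -/

namespace Pool.Agent.LibNV

open TensorProduct

private theorem zsmul_eq_q {V : Type} [AddCommGroup V] [Module ℚ V] (n : ℤ) (x : V) :
    n • x = (n : ℚ) • x := (Int.cast_smul_eq_zsmul ℚ n x).symm

private theorem eq_inv_smul {V : Type} [AddCommGroup V] [Module ℚ V] (n : ℤ) (hn : n ≠ 0)
    (x : V) : x = ((n : ℚ)⁻¹) • (n • x) := by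
  have h : (n : ℚ) ≠ 0 := by exact_mod_cast hn
  rw [zsmul_eq_q, smul_smul, inv_mul_cancel₀ h, one_smul]

private theorem mem_of_zsmul_mem {V : Type} [AddCommGroup V] [Module ℚ V] (L : Submodule ℚ V)
    (n : ℤ) (hn : n ≠ 0) (x : V) (h : n • x ∈ L) : x ∈ L := by
  rw [eq_inv_smul n hn x]
  exact L.smul_mem _ h

private theorem zsmul_mem_of_mem {V : Type} [AddCommGroup V] [Module ℚ V] (L : Submodule ℚ V)
    (n : ℤ) (x : V) (h : x ∈ L) : n • x ∈ L := by
  rw [zsmul_eq_q]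
  exact L.smul_mem _ h

private theorem span_clear {M V : Type} [AddCommGroup M] [AddCommGroup V] [Module ℚ V]
    (ι : M →+ V) (S : Set M) (x : V) (hx : x ∈ Submodule.span ℚ (ι '' S)) :
    ∃ n : ℤ, n ≠ 0 ∧ ∃ m ∈ AddSubgroup.closure S, n • x = ι m := by
  induction hx using Submodule.span_induction with
  | mem x h =>
    obtain ⟨m, hm, rfl⟩ := h
    exact ⟨1, one_ne_zero, m, AddSubgroup.subset_closure hm, one_smul _ _⟩
  | zero => exact ⟨1, one_ne_zero, 0, AddSubgroup.zero_mem _, by simp⟩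
  | add x y _ _ ihx ihy =>
    obtain ⟨n₁, h₁, m₁, hm₁, e₁⟩ := ihx
    obtain ⟨n₂, h₂, m₂, hm₂, e₂⟩ := ihy
    refine ⟨n₁ * n₂, mul_ne_zero h₁ h₂, n₂ • m₁ + n₁ • m₂,
      AddSubgroup.add_mem _ (AddSubgroup.zsmul_mem _ hm₁ _) (AddSubgroup.zsmul_mem _ hm₂ _), ?_⟩
    rw [map_add, map_zsmul, map_zsmul, ← e₁, ← e₂, smul_add, mul_smul n₁ n₂ y,
      mul_comm n₁ n₂, mul_smul n₂ n₁ x]
  | smul q x _ ih =>
    obtain ⟨n, hn, m, hm, e⟩ := ih
    have hd : (q.den : ℤ) ≠ 0 := by exact_mod_cast q.den_ne_zero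
    refine ⟨(q.den : ℤ) * n, mul_ne_zero hd hn, q.num • m, AddSubgroup.zsmul_mem _ hm _, ?_⟩
    rw [map_zsmul, ← e, zsmul_eq_q, zsmul_eq_q q.num, zsmul_eq_q n, smul_smul, smul_smul]
    congr 1
    have hq : (q.den : ℚ) * q = q.num := by
      rw [mul_comm]; exact Rat.mul_den_eq_num q
    push_cast
    rw [← hq]
    ring

private theorem closure_mem {M V : Type} [AddCommGroup M] [AddCommGroup V] [Module ℚ V]
    (g : M →+ V) (S : Set M) (W : Submodule ℚ V) (hS : ∀ s ∈ S, g s ∈ W) (a : M)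
    (ha : a ∈ AddSubgroup.closure S) : g a ∈ W := by
  have : AddSubgroup.closure S ≤ (W.toAddSubgroup).comap g := by
    rw [AddSubgroup.closure_le]
    intro s hs
    exact hS s hs
  exact this ha

private theorem core {Γ M V : Type} [Group Γ] [AddCommGroup M] [AddCommGroup V] [Module ℚ V]
    (β : Γ →* AddMonoid.End M) (Γ₀ : Subgroup Γ) (h : JI β Γ₀) (ρ : Γ →* Module.End ℚ V)
    (ι : M →+ V) (hι : Function.Injective ι) (hρ : ∀ γ m, ι (β γ m) = ρ γ (ι m))
    (hs : ∀ x : V, ∃ n : ℤ, n ≠ 0 ∧ ∃ m, n • x = ι m) : JIQ ρ Γ₀ := by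
  classical
  obtain ⟨hfg, hnorm, hfin, hcomm, hfaith, htf, hinf, hquot, hgen⟩ := h
  refine ⟨hfg, hnorm, hfin, hcomm, ?_, ?_, ?_, ?_⟩
  · intro γ hγ
    apply hfaith
    intro m
    apply hι
    rw [hρ, hγ]
  · intro hV
    apply hinf
    have hfgt : (⊤ : Submodule ℚ V).FG := hV.fg_top
    obtain ⟨T, hT⟩ := hfgt
    choose n hn m hm using hs
    refine ⟨T.image m, fun a => ?_⟩
    have htop : Submodule.span ℚ (ι '' ((T.image m : Finset M) : Set M)) = ⊤ := by
      rw [eq_top_iff, ← hT, Submodule.span_le]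
      intro x hx
      apply mem_of_zsmul_mem _ (n x) (hn x) x
      rw [hm x]
      apply Submodule.subset_span
      refine ⟨m x, ?_, rfl⟩
      simp only [Finset.coe_image]
      exact ⟨x, hx, rfl⟩
    obtain ⟨k, hk, b, hb, e⟩ := span_clear ι ((T.image m : Finset M) : Set M) (ι a)
      (by rw [htop]; trivial)
    refine ⟨k, hk, ?_⟩
    have : k • a = b := by
      apply hι
      rw [map_zsmul, e]
    rw [this]
    exact (le_sup_left : _ ≤ AddSubgroup.closure _ ⊔ (⊥ : AddSubgroup M)) hb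
  · intro L hL hst
    have hne : (L.toAddSubgroup).comap ι ≠ ⊥ := by
      obtain ⟨x, hxL, hx0⟩ := (Submodule.ne_bot_iff L).1 hL
      obtain ⟨n, hn, m, hm⟩ := hs x
      intro hbot
      have hmem : m ∈ (L.toAddSubgroup).comap ι := by
        show ι m ∈ L
        rw [← hm]
        exact zsmul_mem_of_mem L n x hxL
      rw [hbot, AddSubgroup.mem_bot] at hmem
      apply hx0
      rw [eq_inv_smul n hn x, hm, hmem, map_zero, smul_zero]
    obtain ⟨F, hF⟩ := hquot ((L.toAddSubgroup).comap ι) hne (by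
      intro γ m hm
      show ι (β γ m) ∈ L
      rw [hρ]
      exact hst γ _ hm)
    have hfg' : (⊤ : Submodule ℚ (V ⧸ L)).FG := by
      refine ⟨F.image (fun f => L.mkQ (ι f)), ?_⟩
      rw [eq_top_iff]
      intro y _
      obtain ⟨x, rfl⟩ := L.mkQ_surjective y
      obtain ⟨n, hn, m, hm⟩ := hs x
      obtain ⟨n', hn', hmem⟩ := hF m
      obtain ⟨a, ha, l, hl, hal⟩ := AddSubgroup.mem_sup.1 hmem
      set W : Submodule ℚ (V ⧸ L) :=
        Submodule.span ℚ ((F.image (fun f => L.mkQ (ι f)) : Finset (V ⧸ L)) : Set (V ⧸ L)) with hW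
      apply mem_of_zsmul_mem W n hn
      apply mem_of_zsmul_mem W n' hn'
      have e1 : n' • n • L.mkQ x = L.mkQ (ι a) := by
        rw [← map_zsmul L.mkQ, ← map_zsmul L.mkQ, hm, ← map_zsmul ι, ← hal, map_add, map_add]
        have : L.mkQ (ι l) = 0 := by
          rw [Submodule.mkQ_apply, Submodule.Quotient.mk_eq_zero]
          exact hl
        rw [this, add_zero]
      rw [e1]
      have := closure_mem ((L.mkQ.toAddMonoidHom).comp ι) (F : Set M) W (by
        intro f hf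
        apply Submodule.subset_span
        simp only [Finset.coe_image]
        exact ⟨f, hf, rfl⟩) a ha
      exact this
    exact ⟨hfg'⟩
  · obtain ⟨F, hF⟩ := hgen
    refine ⟨F.image ι, fun L hFL hst => ?_⟩
    have htop := hF ((L.toAddSubgroup).comap ι) (by
        intro f hf
        show ι f ∈ L
        apply hFL
        simp only [Finset.coe_image]
        exact ⟨f, hf, rfl⟩) (by
        intro γ hγ m hm
        show ι (β γ m) ∈ L
        rw [hρ]
        exact hst γ hγ _ hm)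
    rw [eq_top_iff]
    intro x _
    obtain ⟨n, hn, m, hm⟩ := hs x
    apply mem_of_zsmul_mem L n hn
    rw [hm]
    have : m ∈ (L.toAddSubgroup).comap ι := by rw [htop]; trivial
    exact this

theorem rationalize {Γ M : Type} [Group Γ] [AddCommGroup M] (β : Γ →* AddMonoid.End M)
    (Γ₀ : Subgroup Γ) (h : JI β Γ₀) :
    ∃ (V : Type) (_ : AddCommGroup V) (_ : Module ℚ V) (ρ : Γ →* Module.End ℚ V) (ι : M →+ V),
      Function.Injective ι ∧ (∀ γ m, ι (β γ m) = ρ γ (ι m)) ∧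
      (∀ x : V, ∃ n : ℤ, n ≠ 0 ∧ ∃ m, n • x = ι m) ∧ JIQ ρ Γ₀ := by
  classical
  have hloc : IsLocalizedModule (nonZeroDivisors ℤ) (TensorProduct.mk ℤ ℚ M 1) :=
    (isLocalizedModule_iff_isBaseChange (nonZeroDivisors ℤ) ℚ (TensorProduct.mk ℤ ℚ M 1)).2
      (TensorProduct.isBaseChange ℤ M ℚ)
  let ρ : Γ →* Module.End ℚ (ℚ ⊗[ℤ] M) :=
    { toFun := fun γ => (AddMonoidHom.toIntLinearMap (β γ : M →+ M)).baseChange ℚ
      map_one' := by
        ext m
        simp
        rfl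
      map_mul' := by
        intro a b
        ext m
        simp
        rfl }
  let ι : M →+ (ℚ ⊗[ℤ] M) := (TensorProduct.mk ℤ ℚ M 1).toAddMonoidHom
  have hι : Function.Injective ι := by
    intro a b hab
    have h1 : (TensorProduct.mk ℤ ℚ M 1) a = (TensorProduct.mk ℤ ℚ M 1) b := hab
    rw [IsLocalizedModule.eq_iff_exists (nonZeroDivisors ℤ)] at h1
    obtain ⟨c, hc⟩ := h1
    have hc0 : (c : ℤ) ≠ 0 := nonZeroDivisors.coe_ne_zero c
    have h2 : (c : ℤ) • (a - b) = 0 := by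
      rw [smul_sub, sub_eq_zero]
      exact hc
    exact sub_eq_zero.1 (h.tf _ _ hc0 h2)
  have hρ : ∀ γ m, ι (β γ m) = ρ γ (ι m) := by
    intro γ m
    show (1 : ℚ) ⊗ₜ[ℤ] (β γ m) =
      ((AddMonoidHom.toIntLinearMap (β γ : M →+ M)).baseChange ℚ) ((1 : ℚ) ⊗ₜ[ℤ] m)
    rw [LinearMap.baseChange_tmul]
    rfl
  have hs : ∀ x : (ℚ ⊗[ℤ] M), ∃ n : ℤ, n ≠ 0 ∧ ∃ m, n • x = ι m := by
    intro x
    obtain ⟨⟨m, c⟩, hc⟩ := IsLocalizedModule.surj (nonZeroDivisors ℤ)
      (TensorProduct.mk ℤ ℚ M 1) x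
    exact ⟨c, nonZeroDivisors.coe_ne_zero c, m, hc⟩
  exact ⟨ℚ ⊗[ℤ] M, inferInstance, inferInstance, ρ, ι, hι, hρ, hs, core β Γ₀ h ρ ι hι hρ hs⟩

end Pool.Agent.LibNV
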