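import Mathlib
import Pool.Agent.LibNV.Defs

set_option autoImplicit false

/-! [NV V09] The algebra `E` generated by `Γ₀`.

PLAN. `s := ρ '' Γ₀ ⊆ Module.End ℚ V`, `E := Algebra.adjoin ℚ s`, a commutative subalgebra
(`Algebra.adjoinCommRingOfComm ℚ`: the elements of `s` commute by `comm`). `V` is an `E`-module (`E` acts by
evaluation: `Module.compHom` along `E → Module.End ℚ V`, or the instance for subalgebras of `Module.End ℚ V`),
faithful. `Algebra.FiniteType ℚ E`: `Γ₀` is finitely generated (finite index in a finitely generated group,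
`Subgroup.fg_of_index_ne_zero`), so it is generated as a MONOID by a finite set (`Group.fg_iff_monoid_fg`-like:
generators and inverses), and `E = adjoin` of the finitely many `ρ g` (`Subalgebra.fg_adjoin_finset`,
`Subalgebra.fg_iff_finiteType`). `Module.Finite E V`: the `E`-span of the finite set `F` of `gen` is a `ℚ`-subspace stable
under `Γ₀`. `θ γ e := ρ γ * e * ρ γ⁻¹` maps `E` to `E` (`Γ₀` is normal: it maps `s` to `s`; `Algebra.adjoin_induction` or
`AlgHom.map_adjoin`). `κ γ := ⟨ρ γ, ..⟩` with inverse `ρ γ⁻¹`. -/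

namespace Pool.Agent.LibNV

private theorem V09_comm {Γ V : Type} [Group Γ] [AddCommGroup V] [Module ℚ V] (ρ : Γ →* Module.End ℚ V)
    (Γ₀ : Subgroup Γ) (h : JIQ ρ Γ₀) :
    ∀ a ∈ (ρ '' (Γ₀ : Set Γ)), ∀ b ∈ (ρ '' (Γ₀ : Set Γ)), a * b = b * a := by
  rintro _ ⟨a, ha, rfl⟩ _ ⟨b, hb, rfl⟩
  rw [← map_mul, h.comm a ha b hb, map_mul]

private theorem V09_E {Γ V : Type} [Group Γ] [AddCommGroup V] [Module ℚ V] (ρ : Γ →* Module.End ℚ V)
    (Γ₀ : Subgroup Γ) (h : JIQ ρ Γ₀) :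
    ∃ (E : Type) (_ : CommRing E) (_ : Algebra ℚ E) (ι : E →ₐ[ℚ] Module.End ℚ V),
      Function.Injective ι ∧ ∀ a, a ∈ Algebra.adjoin ℚ (ρ '' (Γ₀ : Set Γ)) ↔ ∃ e, ι e = a := by
  refine ⟨Algebra.adjoin ℚ (ρ '' (Γ₀ : Set Γ)), Algebra.adjoinCommRingOfComm ℚ (V09_comm ρ Γ₀ h),
    inferInstance, (Algebra.adjoin ℚ (ρ '' (Γ₀ : Set Γ))).val, Subtype.val_injective, ?_⟩
  intro a
  constructor
  · intro ha
    exact ⟨⟨a, ha⟩, rfl⟩
  · rintro ⟨e, rfl⟩
    exact e.2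

private theorem V09_inv {Γ V : Type} [Group Γ] [AddCommGroup V] [Module ℚ V] (ρ : Γ →* Module.End ℚ V)
    (γ : Γ) : ρ γ * ρ γ⁻¹ = 1 ∧ ρ γ⁻¹ * ρ γ = 1 := by
  rw [← map_mul, ← map_mul, mul_inv_cancel, inv_mul_cancel, map_one]
  exact ⟨rfl, rfl⟩

private theorem V09_stab {Γ V : Type} [Group Γ] [AddCommGroup V] [Module ℚ V] (ρ : Γ →* Module.End ℚ V)
    (Γ₀ : Subgroup Γ) (h : JIQ ρ Γ₀) (γ : Γ) (a : Module.End ℚ V)
    (ha : a ∈ Algebra.adjoin ℚ (ρ '' (Γ₀ : Set Γ))) :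
    ρ γ * a * ρ γ⁻¹ ∈ Algebra.adjoin ℚ (ρ '' (Γ₀ : Set Γ)) := by
  obtain ⟨i1, i2⟩ := V09_inv ρ γ
  induction ha using Algebra.adjoin_induction with
  | mem x hx =>
    obtain ⟨δ, hδ, rfl⟩ := hx
    rw [← map_mul, ← map_mul]
    exact Algebra.subset_adjoin ⟨_, h.normal.conj_mem δ hδ γ, rfl⟩
  | algebraMap r =>
    have e : ρ γ * (algebraMap ℚ (Module.End ℚ V)) r * ρ γ⁻¹ = (algebraMap ℚ (Module.End ℚ V)) r := by
      rw [← Algebra.commutes, mul_assoc, i1, mul_one]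
    rw [e]
    exact Subalgebra.algebraMap_mem _ r
  | add x y _ _ hx hy =>
    rw [mul_add, add_mul]
    exact Subalgebra.add_mem _ hx hy
  | mul x y _ _ hx hy =>
    have e : ρ γ * (x * y) * ρ γ⁻¹ = (ρ γ * x * ρ γ⁻¹) * (ρ γ * y * ρ γ⁻¹) := by
      calc ρ γ * (x * y) * ρ γ⁻¹ = ρ γ * x * 1 * (y * ρ γ⁻¹) := by
            simp only [mul_assoc, one_mul, mul_one]
        _ = ρ γ * x * (ρ γ⁻¹ * ρ γ) * (y * ρ γ⁻¹) := by rw [i2]
        _ = _ := by simp only [mul_assoc]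
    rw [e]
    exact Subalgebra.mul_mem _ hx hy

private theorem V09_fg {Γ V : Type} [Group Γ] [AddCommGroup V] [Module ℚ V] (ρ : Γ →* Module.End ℚ V)
    (Γ₀ : Subgroup Γ) (h : JIQ ρ Γ₀) : (Algebra.adjoin ℚ (ρ '' (Γ₀ : Set Γ))).FG := by
  have hfg : Group.FG Γ := h.fg
  have hfi : Γ₀.FiniteIndex := h.fin
  have h1 : Group.FG Γ₀ := Subgroup.fg_of_index_ne_zero Γ₀
  have h2 : Monoid.FG Γ₀ := Group.fg_iff_monoid_fg.1 h1
  obtain ⟨T, hT⟩ := h2.fg_top
  classical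
  refine ⟨T.image (fun γ : Γ₀ => ρ γ), ?_⟩
  apply le_antisymm
  · refine Algebra.adjoin_mono ?_
    intro x hx
    simp only [Finset.coe_image, Set.mem_image, Finset.mem_coe] at hx
    obtain ⟨γ, _, rfl⟩ := hx
    exact ⟨γ, γ.2, rfl⟩
  · refine Algebra.adjoin_le ?_
    rintro _ ⟨γ, hγ, rfl⟩
    have h3 : (⟨γ, hγ⟩ : Γ₀) ∈ Submonoid.closure (T : Set Γ₀) := by
      rw [hT]
      exact Submonoid.mem_top _
    have h4 : ∀ δ : Γ₀, δ ∈ Submonoid.closure (T : Set Γ₀) →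
        ρ δ ∈ Algebra.adjoin ℚ ((T.image (fun γ : Γ₀ => ρ γ) : Finset (Module.End ℚ V)) : Set (Module.End ℚ V)) := by
      intro δ hδ
      induction hδ using Submonoid.closure_induction with
      | mem x hx =>
        apply Algebra.subset_adjoin
        simp only [Finset.coe_image, Set.mem_image, Finset.mem_coe]
        exact ⟨x, hx, rfl⟩
      | one =>
        rw [Subgroup.coe_one, map_one]
        exact Subalgebra.one_mem _
      | mul x y _ _ hx hy =>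
        rw [Subgroup.coe_mul, map_mul]
        exact Subalgebra.mul_mem _ hx hy
    exact h4 ⟨γ, hγ⟩ h3

theorem algE {Γ V : Type} [Group Γ] [AddCommGroup V] [Module ℚ V] (ρ : Γ →* Module.End ℚ V)
    (Γ₀ : Subgroup Γ) (h : JIQ ρ Γ₀) :
    ∃ (E : Type) (_ : CommRing E) (_ : Algebra ℚ E) (_ : Module E V) (_ : IsScalarTower ℚ E V)
      (θ : Γ →* (E ≃ₐ[ℚ] E)) (κ : Γ₀ →* Eˣ),
      Algebra.FiniteType ℚ E ∧ Module.Finite E V ∧ (∀ e : E, (∀ x : V, e • x = 0) → e = 0) ∧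
      (∀ γ (e : E) (x : V), ρ γ (e • x) = θ γ e • ρ γ x) ∧
      (∀ (γ : Γ₀) (x : V), ρ γ x = (κ γ : E) • x) ∧ ∀ γ ∈ Γ₀, ∀ e, θ γ e = e := by
  obtain ⟨E, cE, aE, ι, hinj, hr⟩ := V09_E ρ Γ₀ h
  have hstab : ∀ (γ : Γ) (e : E), ∃ e' : E, ι e' = ρ γ * ι e * ρ γ⁻¹ := fun γ e =>
    (hr _).1 (V09_stab ρ Γ₀ h γ (ι e) ((hr _).2 ⟨e, rfl⟩))
  choose t ht using hstab
  have hk0 : ∀ γ : Γ₀, ∃ e : E, ι e = ρ γ := fun γ =>
    (hr _).1 (Algebra.subset_adjoin ⟨γ, γ.2, rfl⟩)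
  choose k hk using hk0
  have i1 := fun γ => (V09_inv ρ γ).1
  have i2 := fun γ => (V09_inv ρ γ).2
  have tmul : ∀ γ a b, t γ (a * b) = t γ a * t γ b := by
    intro γ a b
    apply hinj
    rw [map_mul, ht, ht, ht, map_mul]
    calc ρ γ * (ι a * ι b) * ρ γ⁻¹ = ρ γ * ι a * 1 * (ι b * ρ γ⁻¹) := by
          simp only [mul_assoc, one_mul]
      _ = ρ γ * ι a * (ρ γ⁻¹ * ρ γ) * (ι b * ρ γ⁻¹) := by rw [i2]
      _ = _ := by simp only [mul_assoc]
  have tadd : ∀ γ a b, t γ (a + b) = t γ a + t γ b := by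
    intro γ a b
    apply hinj
    rw [map_add, ht, ht, ht, map_add, mul_add, add_mul]
  have talg : ∀ γ (r : ℚ), t γ (algebraMap ℚ E r) = algebraMap ℚ E r := by
    intro γ r
    apply hinj
    rw [ht, AlgHom.commutes, ← Algebra.commutes, mul_assoc, i1, mul_one]
  have tcomp : ∀ γ δ e, t (γ * δ) e = t γ (t δ e) := by
    intro γ δ e
    apply hinj
    rw [ht, ht, ht, mul_inv_rev, map_mul, map_mul]
    simp only [mul_assoc]
  have tone : ∀ e, t 1 e = e := by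
    intro e
    apply hinj
    rw [ht, inv_one, map_one, one_mul, mul_one]
  let θ : Γ →* (E ≃ₐ[ℚ] E) :=
    { toFun := fun γ =>
        { toFun := t γ
          invFun := t γ⁻¹
          left_inv := fun e => by rw [← tcomp, inv_mul_cancel, tone]
          right_inv := fun e => by rw [← tcomp, mul_inv_cancel, tone]
          map_mul' := tmul γ
          map_add' := tadd γ
          commutes' := talg γ }
      map_one' := by
        ext e
        exact tone e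
      map_mul' := fun γ δ => by
        ext e
        exact tcomp γ δ e }
  have hθ : ∀ γ e, θ γ e = t γ e := fun γ e => rfl
  let κ0 : Γ₀ →* E :=
    { toFun := k
      map_one' := by
        apply hinj
        rw [hk, map_one, Subgroup.coe_one, map_one]
      map_mul' := fun γ δ => by
        apply hinj
        rw [map_mul, hk, hk, hk, Subgroup.coe_mul, map_mul] }
  let κ : Γ₀ →* Eˣ := MonoidHom.toHomUnits κ0
  have hκ : ∀ γ : Γ₀, ι ((κ γ : Eˣ) : E) = ρ γ := fun γ => hk γ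
  let mE : Module E V := Module.compHom V (ι : E →+* Module.End ℚ V)
  have hsm : ∀ (e : E) (x : V), e • x = ι e x := fun e x => rfl
  have hst : IsScalarTower ℚ E V := by
    constructor
    intro q e x
    rw [hsm, hsm, map_smul]
    rfl
  have hκs : ∀ (γ : Γ₀) (x : V), ρ γ x = (κ γ : E) • x := by
    intro γ x
    rw [hsm, hκ]
  refine ⟨E, cE, aE, mE, hst, θ, κ, ?_, ?_, ?_, ?_, hκs, ?_⟩
  · have h1 : (Algebra.adjoin ℚ (ρ '' (Γ₀ : Set Γ))) = ι.range := by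
      ext a
      rw [hr, AlgHom.mem_range]
    have h2 := V09_fg ρ Γ₀ h
    rw [h1, Subalgebra.fg_iff_finiteType] at h2
    exact Algebra.FiniteType.equiv h2 (AlgEquiv.ofInjective ι hinj).symm
  · obtain ⟨F, hF⟩ := h.gen
    refine ⟨⟨F, ?_⟩⟩
    have h1 := hF ((Submodule.span E (F : Set V)).restrictScalars ℚ) (fun x hx => Submodule.subset_span hx)
      (fun γ hγ x hx => by
        have h2 := hκs ⟨γ, hγ⟩ x
        simp only at h2
        rw [h2]
        exact Submodule.smul_mem (Submodule.span E (F : Set V)) _ hx)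
    rw [eq_top_iff]
    intro x _
    have h3 : x ∈ (Submodule.span E (F : Set V)).restrictScalars ℚ := by
      rw [h1]
      exact Submodule.mem_top
    exact h3
  · intro e he
    apply hinj
    rw [map_zero]
    ext x
    rw [LinearMap.zero_apply]
    exact he x
  · intro γ e x
    rw [hsm, hsm, hθ, ht, Module.End.mul_apply, Module.End.mul_apply, ← Module.End.mul_apply (ρ γ⁻¹) (ρ γ) x, i2,
      Module.End.one_apply]
  · intro γ hγ e
    rw [hθ]
    apply hinj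
    rw [ht]
    have h1 : ρ γ = ι (k ⟨γ, hγ⟩) := (hk ⟨γ, hγ⟩).symm
    have h2 : ρ γ * ι e = ι e * ρ γ := by
      rw [h1, ← map_mul, ← map_mul, mul_comm]
    rw [h2, mul_assoc, i1, mul_one]

end Pool.Agent.LibNV
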