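import Mathlib
import Pool.Agent.LibNV.Defs

set_option autoImplicit false

/-! [NV V10] Invariants.

PLAN. `C := {e | ∀ γ, θ γ e = e}`, a `ℚ`-subalgebra. Every `e : E` is integral over `C`: `θ` factors through the finite
group `Γ ⧸ Γ₀` (`h0`), and the polynomial `∏_(q : Γ ⧸ Γ₀) (X - θ_q e)` is monic, has the root `e` and coefficients fixed by
all `θ γ` (left multiplication by `γ` permutes `Γ ⧸ Γ₀`); or use Mathlib: `MulSemiringAction (Γ ⧸ Γ₀) E` with
`Algebra.IsInvariant C E (Γ ⧸ Γ₀)` and `Algebra.IsInvariant.isIntegral`. `E` is of finite type over `ℚ`, so over `C`,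
and integral: `Module.Finite C E` (`Algebra.IsIntegral.finite`). Artin-Tate (`fg_of_fg_of_fg` in
Mathlib/RingTheory/Adjoin/Tower.lean) gives `Algebra.FiniteType ℚ C`. -/

namespace Pool.Agent.LibNV

theorem invariants {E : Type} [CommRing E] [Algebra ℚ E] (hE : Algebra.FiniteType ℚ E)
    {Γ : Type} [Group Γ] (Γ₀ : Subgroup Γ) [Γ₀.Normal] [Γ₀.FiniteIndex] (θ : Γ →* (E ≃ₐ[ℚ] E))
    (h0 : ∀ γ ∈ Γ₀, ∀ e, θ γ e = e) :
    ∃ C : Subalgebra ℚ E, (∀ c ∈ C, ∀ γ, θ γ c = c) ∧ Algebra.FiniteType ℚ C ∧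
      Module.Finite C E := by
  classical
  -- the subalgebra of invariants
  let C : Subalgebra ℚ E :=
    { carrier := {e | ∀ γ, θ γ e = e}
      mul_mem' := by
        intro a b ha hb γ
        rw [map_mul, ha γ, hb γ]
      one_mem' := fun γ => map_one _
      add_mem' := by
        intro a b ha hb γ
        rw [map_add, ha γ, hb γ]
      zero_mem' := fun γ => map_zero _
      algebraMap_mem' := fun r γ => (θ γ).commutes r }
  have hfin : Finite θ.range := by
    have h1 : Γ₀ ≤ θ.ker := by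
      intro γ hγ
      rw [MonoidHom.mem_ker]
      ext e
      exact h0 γ hγ e
    have h2 : θ.ker.FiniteIndex := Subgroup.finiteIndex_of_le h1
    exact Finite.of_equiv _ (QuotientGroup.quotientKerEquivRange θ).toEquiv
  have hinv : Algebra.IsInvariant C E θ.range := by
    refine ⟨fun b hb => ⟨⟨b, fun γ => ?_⟩, rfl⟩⟩
    exact hb ⟨θ γ, ⟨γ, rfl⟩⟩
  have hint : Algebra.IsIntegral C E := Algebra.IsInvariant.isIntegral C E θ.range
  have hft : Algebra.FiniteType C E := Algebra.FiniteType.of_restrictScalars_finiteType ℚ C E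
  have hmf : Module.Finite C E := Algebra.IsIntegral.finite
  refine ⟨C, fun c hc γ => hc γ, ?_, hmf⟩
  refine ⟨?_⟩
  exact fg_of_fg_of_fg ℚ C E hE.out hmf.fg_top Subtype.val_injective

end Pool.Agent.LibNV
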