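import Mathlib
import Pool.Agent.LibNV.Defs

set_option autoImplicit false

/-! [NV V11] Noether normalization in one variable for a module.

PLAN. `exists_finite_inj_algHom_of_fg ℚ C` (Noether normalization; see its use in Pool/Agent/LibNM/N15.lean) gives
`s` and `g : MvPolynomial (Fin s) ℚ →ₐ[ℚ] C`, injective and finite. So `V` is a finite module over
`P := MvPolynomial (Fin s) ℚ` (`Module.compHom V g`), and nonzero `p : P` act injectively on `V` with
finite-dimensional cokernel.
(1) `s ≠ 0`: otherwise `P = ℚ` (`MvPolynomial.isEmptyAlgEquiv`) and `V` is finite-dimensional.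
(2) `s < 2`: otherwise let `X₀`, `X₁` be two of the variables. `W := V ⧸ X₀ V` is finite-dimensional over `ℚ`, so the
powers of `X₁` on it are dependent: there is a nonzero polynomial `q` in one variable with `q(X₁) V ⊆ X₀ V`. Let
`e` := the `P`-linear endomorphism of `V` given by `q(X₁)`; its range lies in `X₀ V = I • ⊤` with `I = (X₀)`: by
`LinearMap.exists_monic_and_natDegree_eq_and_coeff_mem_pow_and_aeval_eq_zero` (Mathlib
LinearAlgebra/Matrix/Charpoly/LinearMap.lean) there is a monic relation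
`e ^ n + c₁ e ^ (n-1) + ... + c_n = 0` with `c_i ∈ I ^ i`, so `q(X₁) ^ n + c₁ q(X₁) ^ (n-1) + ... + c_n ∈ P` acts as `0` on
`V ≠ 0`, hence is `0` (`hinj`), so `X₀ ∣ q(X₁) ^ n`, `X₀ ∣ q(X₁)` (`MvPolynomial.X` is prime), impossible for a
nonzero polynomial in `X₁` (substitute `X₀ = 0`: `MvPolynomial.aeval` / `eval₂`). The file N15 has a similar argument.
(3) `s = 1`: compose `g` with `ℚ[X] ≃ₐ MvPolynomial (Fin 1) ℚ` (see N15, step (4)). -/

namespace Pool.Agent.LibNV

open Polynomial

/-- A relation of `c₁` on the cokernel of `c₀`. -/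
private theorem v11_rel {C V : Type} [CommRing C] [Algebra ℚ C] [AddCommGroup V] [Module ℚ V]
    [Module C V] [IsScalarTower ℚ C V] (c₀ c₁ : C)
    (hfin : FiniteDimensional ℚ (V ⧸ LinearMap.range (Algebra.lsmul ℚ ℚ V c₀))) :
    ∃ q : ℚ[X], q.Monic ∧ ∀ x : V, ∃ y : V, (Polynomial.aeval c₁ q) • x = c₀ • y := by
  let N : Submodule C V := LinearMap.range (LinearMap.lsmul C V c₀)
  have hN : N.restrictScalars ℚ = LinearMap.range (Algebra.lsmul ℚ ℚ V c₀) := by
    ext x
    rfl
  have hfinN : Module.Finite ℚ (V ⧸ N) := by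
    have h1 : Module.Finite ℚ (V ⧸ N.restrictScalars ℚ) := by
      rw [hN]
      exact hfin
    exact Module.Finite.equiv (Submodule.Quotient.restrictScalarsEquiv ℚ N)
  let T : Module.End ℚ (V ⧸ N) := Algebra.lsmul ℚ ℚ (V ⧸ N) c₁
  refine ⟨T.charpoly, T.charpoly_monic, fun x => ?_⟩
  have h1 : Polynomial.aeval T T.charpoly = 0 := T.aeval_self_charpoly
  have h2 : Polynomial.aeval T T.charpoly =
      Algebra.lsmul ℚ ℚ (V ⧸ N) (Polynomial.aeval c₁ T.charpoly) :=
    Polynomial.aeval_algHom_apply (Algebra.lsmul ℚ ℚ (V ⧸ N)) c₁ T.charpoly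
  rw [h2] at h1
  have h3 : (Polynomial.aeval c₁ T.charpoly) • (Submodule.Quotient.mk x : V ⧸ N) = 0 :=
    LinearMap.congr_fun h1 (Submodule.Quotient.mk x)
  rw [← Submodule.Quotient.mk_smul, Submodule.Quotient.mk_eq_zero] at h3
  obtain ⟨y, hy⟩ := h3
  exact ⟨y, hy.symm⟩

/-- At most one variable. -/
private theorem v11_lt_two {C V : Type} [CommRing C] [Algebra ℚ C] [AddCommGroup V] [Module ℚ V]
    [Module C V] [IsScalarTower ℚ C V] [Nontrivial V] (hV : Module.Finite C V)
    (hinj : ∀ c : C, c ≠ 0 → ∀ x : V, c • x = 0 → x = 0)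
    (hcok : ∀ c : C, c ≠ 0 →
      FiniteDimensional ℚ (V ⧸ LinearMap.range (Algebra.lsmul ℚ ℚ V c))) {s : ℕ}
    (g : MvPolynomial (Fin s) ℚ →ₐ[ℚ] C) (hg : Function.Injective g) (hfin : g.Finite) :
    s < 2 := by
  by_contra hs
  push Not at hs
  let i0 : Fin s := ⟨0, by omega⟩
  let i1 : Fin s := ⟨1, by omega⟩
  have hi : i1 ≠ i0 := by
    intro h
    have := congrArg Fin.val h
    simp [i0, i1] at this
  let φ : MvPolynomial (Fin s) ℚ →ₐ[ℚ] ℚ[X] :=
    MvPolynomial.aeval fun i => if i = i0 then 0 else X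
  have hφ0 : φ (MvPolynomial.X i0) = 0 := by simp [φ]
  have hφ1 : φ (MvPolynomial.X i1) = X := by simp [φ, hi]
  have hc0 : g (MvPolynomial.X i0) ≠ 0 := by
    intro h
    have h2 : (MvPolynomial.X i0 : MvPolynomial (Fin s) ℚ) = 0 := by
      apply hg
      rw [h, map_zero]
    exact MvPolynomial.X_ne_zero i0 h2
  obtain ⟨q, hq, hrel⟩ := v11_rel (g (MvPolynomial.X i0)) (g (MvPolynomial.X i1)) (hcok _ hc0)
  let : Algebra (MvPolynomial (Fin s) ℚ) C := g.toRingHom.toAlgebra
  have : Module.Finite (MvPolynomial (Fin s) ℚ) C := hfin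
  let : Module (MvPolynomial (Fin s) ℚ) V := Module.compHom V g.toRingHom
  have hsm : ∀ (p : MvPolynomial (Fin s) ℚ) (x : V), p • x = g p • x := fun _ _ => rfl
  have : IsScalarTower (MvPolynomial (Fin s) ℚ) C V := by
    refine ⟨fun p c x => ?_⟩
    have h1 : p • c = g p * c := rfl
    rw [h1, mul_smul, hsm]
  have : Module.Finite (MvPolynomial (Fin s) ℚ) V := Module.Finite.trans C V
  let a : MvPolynomial (Fin s) ℚ := Polynomial.aeval (MvPolynomial.X i1) q
  have hφa : φ a = q := by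
    have h1 : φ a = Polynomial.aeval (φ (MvPolynomial.X i1)) q :=
      (Polynomial.aeval_algHom_apply φ (MvPolynomial.X i1) q).symm
    rw [h1, hφ1, Polynomial.aeval_X_left_apply]
  have hga : g a = Polynomial.aeval (g (MvPolynomial.X i1)) q :=
    (Polynomial.aeval_algHom_apply g (MvPolynomial.X i1) q).symm
  let I : Ideal (MvPolynomial (Fin s) ℚ) := Ideal.span {MvPolynomial.X i0}
  have hφI : ∀ p ∈ I, φ p = 0 := by
    intro p hp
    obtain ⟨r, rfl⟩ := Ideal.mem_span_singleton'.mp hp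
    rw [map_mul, hφ0, mul_zero]
  let f : Module.End (MvPolynomial (Fin s) ℚ) V := LinearMap.lsmul (MvPolynomial (Fin s) ℚ) V a
  have hI : LinearMap.range f ≤ I • (⊤ : Submodule (MvPolynomial (Fin s) ℚ) V) := by
    rintro _ ⟨x, rfl⟩
    obtain ⟨y, hy⟩ := hrel x
    have h1 : f x = (MvPolynomial.X i0 : MvPolynomial (Fin s) ℚ) • y := by
      have h2 : f x = g a • x := rfl
      rw [h2, hga, hy, hsm]
    rw [h1]
    exact Submodule.smul_mem_smul (Ideal.mem_span_singleton_self _) trivial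
  obtain ⟨p, hpm, _, hpc, hp0⟩ :=
    LinearMap.exists_monic_and_natDegree_eq_and_coeff_mem_pow_and_aeval_eq_zero
      (MvPolynomial (Fin s) ℚ) f I hI
  have hf : f = Algebra.lsmul (MvPolynomial (Fin s) ℚ) (MvPolynomial (Fin s) ℚ) V a := rfl
  have h4 : Polynomial.aeval f p =
      Algebra.lsmul (MvPolynomial (Fin s) ℚ) (MvPolynomial (Fin s) ℚ) V (Polynomial.aeval a p) := by
    rw [hf]
    exact Polynomial.aeval_algHom_apply
      (Algebra.lsmul (MvPolynomial (Fin s) ℚ) (MvPolynomial (Fin s) ℚ) V) a p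
  have h5 : Polynomial.eval a p = 0 := by
    obtain ⟨x, hx⟩ := exists_ne (0 : V)
    by_contra hne
    have h6 : g (Polynomial.eval a p) ≠ 0 := by
      intro h
      apply hne
      apply hg
      rw [h, map_zero]
    apply hx
    apply hinj _ h6 x
    have h7 := LinearMap.congr_fun h4 x
    rw [hp0, LinearMap.zero_apply, Algebra.lsmul_coe, Polynomial.coe_aeval_eq_eval] at h7
    rw [← hsm]
    exact h7.symm
  have h8 : φ (Polynomial.eval a p) = q ^ p.natDegree := by
    rw [Polynomial.eval_eq_sum_range, map_sum, Finset.sum_range_succ, map_mul, map_pow, hφa,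
      hpm.coeff_natDegree, map_one, one_mul]
    rw [Finset.sum_eq_zero, zero_add]
    intro k hk
    rw [Finset.mem_range] at hk
    have h9 : p.coeff k ∈ I := by
      have h10 := hpc k
      exact Ideal.pow_le_self (by omega) h10
    rw [map_mul, hφI _ h9, zero_mul]
  rw [h5, map_zero] at h8
  exact pow_ne_zero _ hq.ne_zero h8.symm

theorem one_var {C V : Type} [CommRing C] [Algebra ℚ C] [AddCommGroup V] [Module ℚ V]
    [Module C V] [IsScalarTower ℚ C V] (hC : Algebra.FiniteType ℚ C) (hV : Module.Finite C V)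
    (hinf : ¬ FiniteDimensional ℚ V) (hinj : ∀ c : C, c ≠ 0 → ∀ x : V, c • x = 0 → x = 0)
    (hcok : ∀ c : C, c ≠ 0 →
      FiniteDimensional ℚ (V ⧸ LinearMap.range (Algebra.lsmul ℚ ℚ V c))) :
    ∃ g : ℚ[X] →ₐ[ℚ] C, Function.Injective g ∧ g.toRingHom.Finite := by
  have hntV : Nontrivial V := by
    rw [← not_subsingleton_iff_nontrivial]
    intro h
    apply hinf
    infer_instance
  have hntC : Nontrivial C := by
    rw [← not_subsingleton_iff_nontrivial]
    intro h
    obtain ⟨x, hx⟩ := exists_ne (0 : V)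
    apply hx
    rw [← one_smul C x, Subsingleton.elim (1 : C) 0, zero_smul]
  obtain ⟨s, g, hg, hfin⟩ := exists_finite_inj_algHom_of_fg ℚ C
  have hs2 : s < 2 := v11_lt_two hV hinj hcok g hg hfin
  have hs0 : s ≠ 0 := by
    rintro rfl
    apply hinf
    have h1 : (g.comp (MvPolynomial.isEmptyAlgEquiv ℚ (Fin 0)).symm.toAlgHom).Finite :=
      hfin.comp (AlgHom.Finite.of_surjective _
        (MvPolynomial.isEmptyAlgEquiv ℚ (Fin 0)).symm.surjective)
    have h2 : (g.comp (MvPolynomial.isEmptyAlgEquiv ℚ (Fin 0)).symm.toAlgHom)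
        = Algebra.ofId ℚ C := Subsingleton.elim _ _
    rw [h2] at h1
    have h3 : (algebraMap ℚ C).Finite := h1
    have h4 : Module.Finite ℚ C := RingHom.finite_algebraMap.mp h3
    exact Module.Finite.trans C V
  have hs1 : s = 1 := by omega
  subst hs1
  let e : ℚ[X] →ₐ[ℚ] MvPolynomial (Fin 1) ℚ := Polynomial.aeval (MvPolynomial.X 0)
  let e' : MvPolynomial (Fin 1) ℚ →ₐ[ℚ] ℚ[X] := MvPolynomial.aeval fun _ => X
  have hee' : e.comp e' = AlgHom.id ℚ _ := by
    apply MvPolynomial.algHom_ext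
    intro i
    simp [e, e', Subsingleton.elim i 0]
  have he'e : e'.comp e = AlgHom.id ℚ _ := by
    apply Polynomial.algHom_ext
    simp [e, e']
  have hesurj : Function.Surjective e := fun p => ⟨e' p, by
    have := DFunLike.congr_fun hee' p
    exact this⟩
  have heinj : Function.Injective e := by
    intro p q hpq
    have h1 := DFunLike.congr_fun he'e p
    have h2 := DFunLike.congr_fun he'e q
    have h3 : e' (e p) = e' (e q) := by rw [hpq]
    exact h1.symm.trans (h3.trans h2)
  have hfinh : (g.comp e).Finite := hfin.comp (AlgHom.Finite.of_surjective _ hesurj)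
  exact ⟨g.comp e, hg.comp heinj, hfinh⟩

end Pool.Agent.LibNV
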