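import Mathlib
import Pool.Agent.LibNV.Defs

set_option autoImplicit false

/-! [NV V12] The algebra is reduced.

PLAN. `E` is Noetherian (`Algebra.FiniteType.isNoetherianRing ℚ E`), so `𝔫 := nilradical E` is finitely generated and
nilpotent: `𝔫 ^ m = ⊥` (`IsNoetherianRing.isNilpotent_nilradical`). Suppose `𝔫 ≠ ⊥`. By `hq`, `V ⧸ 𝔫 V` is
finite-dimensional over `ℚ`. By induction on `i` the space `V ⧸ 𝔫^i V` is finite-dimensional: `V = W + 𝔫 V` with `W` a
finite-dimensional subspace; then `𝔫 V = ∑_j a_j V = ∑_j a_j (W + 𝔫^i V) ⊆ (∑ a_j W) + 𝔫^(i+1) V` for generators `a_j` of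
`𝔫`, if `V = W_i + 𝔫^i V` with `W_i` finite-dimensional; so `W_(i+1) := W + ∑_j a_j W_i`. (The statement
`∃ W : Submodule ℚ V, FiniteDimensional ℚ W ∧ ∀ x, ∃ w ∈ W, x - w ∈ 𝔫^i • ⊤` avoids quotients.) For `i = m`: `V` is
finite-dimensional, contradiction. So `nilradical E = ⊥`: `nilradical_eq_bot_iff`. -/

namespace Pool.Agent.LibNV

private lemma v12_lift {V : Type} [AddCommGroup V] [Module ℚ V] (N : Submodule ℚ V)
    (h : FiniteDimensional ℚ (V ⧸ N)) :
    ∃ W : Submodule ℚ V, W.FG ∧ ∀ x, ∃ w ∈ W, x - w ∈ N := by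
  classical
  obtain ⟨s, hs⟩ := Module.finite_def.mp h
  choose f hf using N.mkQ_surjective
  refine ⟨Submodule.span ℚ ((s.image f : Finset V) : Set V), ⟨s.image f, rfl⟩, fun x => ?_⟩
  have h1 : (Submodule.span ℚ ((s.image f : Finset V) : Set V)).map N.mkQ = ⊤ := by
    rw [Submodule.map_span, ← hs]
    congr 1
    ext y
    simp only [Finset.coe_image, Set.mem_image, Finset.mem_coe]
    constructor
    · rintro ⟨_, ⟨z, hz, rfl⟩, rfl⟩
      rw [hf]
      exact hz
    · intro hy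
      exact ⟨f y, ⟨y, hy, rfl⟩, hf y⟩
  have h2 : N.mkQ x ∈ (Submodule.span ℚ ((s.image f : Finset V) : Set V)).map N.mkQ := by
    rw [h1]
    trivial
  obtain ⟨w, hw, hwx⟩ := h2
  refine ⟨w, hw, ?_⟩
  have h3 : N.mkQ (x - w) = 0 := by rw [map_sub, hwx, sub_self]
  exact (Submodule.Quotient.mk_eq_zero N).mp h3

private lemma v12_step {E V : Type} [CommRing E] [Algebra ℚ E] [AddCommGroup V] [Module ℚ V]
    [Module E V] [IsScalarTower ℚ E V] (I : Ideal E) (S : Finset E)
    (hS : Ideal.span (S : Set E) = I) (i : ℕ) (W : Submodule ℚ V) (hW : W.FG)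
    (h : ∀ x : V, ∃ w ∈ W, x - w ∈ (I ^ i • (⊤ : Submodule E V))) :
    ∃ W' : Submodule ℚ V, W'.FG ∧ ∀ y ∈ (I • (⊤ : Submodule E V)), ∃ w ∈ W',
      y - w ∈ (I ^ (i + 1) • (⊤ : Submodule E V)) := by
  classical
  let L : E → V →ₗ[ℚ] V := fun a => (LinearMap.lsmul E V a).restrictScalars ℚ
  have hL : ∀ a v, L a v = a • v := fun a v => rfl
  refine ⟨⨆ a ∈ S, W.map (L a), ?_, ?_⟩
  · exact Submodule.fg_biSup S _ fun a _ => hW.map (L a)
  have key : ∀ r ∈ Ideal.span (S : Set E), ∀ v : V, ∃ w ∈ ⨆ a ∈ S, W.map (L a),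
      r • v - w ∈ (I ^ (i + 1) • (⊤ : Submodule E V)) := by
    intro r hr
    induction hr using Submodule.span_induction with
    | mem a ha =>
      intro v
      obtain ⟨w, hw, hvw⟩ := h v
      refine ⟨a • w, ?_, ?_⟩
      · have h1 : L a w ∈ W.map (L a) := Submodule.mem_map_of_mem hw
        exact (le_biSup (fun a => W.map (L a)) (Finset.mem_coe.mp ha)) h1
      · rw [← smul_sub]
        have haI : a ∈ I := by
          rw [← hS]
          exact Submodule.subset_span ha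
        rw [pow_succ', mul_smul]
        exact Submodule.smul_mem_smul haI hvw
    | zero =>
      intro v
      exact ⟨0, Submodule.zero_mem _, by rw [zero_smul, sub_zero]; exact Submodule.zero_mem _⟩
    | add r1 r2 _ _ h1 h2 =>
      intro v
      obtain ⟨w1, hw1, e1⟩ := h1 v
      obtain ⟨w2, hw2, e2⟩ := h2 v
      refine ⟨w1 + w2, Submodule.add_mem _ hw1 hw2, ?_⟩
      have : (r1 + r2) • v - (w1 + w2) = (r1 • v - w1) + (r2 • v - w2) := by
        rw [add_smul]
        abel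
      rw [this]
      exact Submodule.add_mem _ e1 e2
    | smul c r _ h1 =>
      intro v
      obtain ⟨w1, hw1, e1⟩ := h1 (c • v)
      refine ⟨w1, hw1, ?_⟩
      have : (c • r) • v = r • (c • v) := by
        rw [smul_smul, smul_eq_mul, mul_comm]
      rw [this]
      exact e1
  intro y hy
  rw [hS] at key
  induction hy using Submodule.smul_induction_on' with
  | smul r hr v _ => exact key r hr v
  | add y1 _ y2 _ h1 h2 =>
    obtain ⟨w1, hw1, e1⟩ := h1
    obtain ⟨w2, hw2, e2⟩ := h2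
    refine ⟨w1 + w2, Submodule.add_mem _ hw1 hw2, ?_⟩
    have : (y1 + y2) - (w1 + w2) = (y1 - w1) + (y2 - w2) := by abel
    rw [this]
    exact Submodule.add_mem _ e1 e2

theorem reduced {E V : Type} [CommRing E] [Algebra ℚ E] [AddCommGroup V] [Module ℚ V]
    [Module E V] [IsScalarTower ℚ E V] (hE : Algebra.FiniteType ℚ E)
    (hinf : ¬ FiniteDimensional ℚ V)
    (hq : nilradical E ≠ ⊥ → FiniteDimensional ℚ
      (V ⧸ (nilradical E • (⊤ : Submodule E V)).restrictScalars ℚ)) : IsReduced E := by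
  classical
  rw [← nilradical_eq_bot_iff]
  by_contra hne
  have hfd := hq hne
  haveI : IsNoetherianRing E := Algebra.FiniteType.isNoetherianRing ℚ E
  obtain ⟨m, hm⟩ := IsNoetherianRing.isNilpotent_nilradical E
  obtain ⟨S, hS⟩ := (isNoetherianRing_iff_ideal_fg E).mp inferInstance (nilradical E)
  obtain ⟨W1, hW1, hW1x⟩ := v12_lift _ hfd
  have main : ∀ i : ℕ, ∃ W : Submodule ℚ V, W.FG ∧ ∀ x : V, ∃ w ∈ W,
      x - w ∈ ((nilradical E) ^ i • (⊤ : Submodule E V)) := by
    intro i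
    induction i with
    | zero =>
      refine ⟨⊥, Submodule.fg_bot, fun x => ⟨0, Submodule.zero_mem _, ?_⟩⟩
      rw [pow_zero, Ideal.one_eq_top, Submodule.top_smul]
      trivial
    | succ i ih =>
      obtain ⟨W, hW, hWx⟩ := ih
      obtain ⟨W', hW', hW'x⟩ := v12_step (nilradical E) S hS i W hW hWx
      refine ⟨W1 ⊔ W', hW1.sup hW', fun x => ?_⟩
      obtain ⟨w1, hw1, e1⟩ := hW1x x
      obtain ⟨w2, hw2, e2⟩ := hW'x (x - w1) e1
      refine ⟨w1 + w2, Submodule.add_mem _ (Submodule.mem_sup_left hw1)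
        (Submodule.mem_sup_right hw2), ?_⟩
      rw [← sub_sub]
      exact e2
  obtain ⟨W, hW, hWx⟩ := main m
  apply hinf
  have hWtop : W = ⊤ := by
    rw [eq_top_iff]
    intro x _
    obtain ⟨w, hw, e⟩ := hWx x
    rw [hm, Ideal.zero_eq_bot, Submodule.bot_smul, Submodule.mem_bot, sub_eq_zero] at e
    rw [e]
    exact hw
  rw [hWtop] at hW
  exact Module.finite_def.mpr hW

end Pool.Agent.LibNV
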