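import Mathlib
import Pool.Agent.LibNM.Defs
import Pool.Agent.LibNV.Defs
import Pool.Agent.LibNV.V09
import Pool.Agent.LibNV.V10
import Pool.Agent.LibNV.V11
import Pool.Agent.LibNV.V12

set_option autoImplicit false

/-! [NV V13] The structure of the module over `ℚ`.

PLAN. `E`, `θ`, `κ` from `algE` (V09), `C` from `invariants` (V10). For `c ∈ C` the `ℚ`-linear map `x ↦ c • x` commutes with
all `ρ γ`, so its kernel and its range are `Γ`-stable subspaces. If `c ≠ 0` the range is `≠ ⊥` (faithful), so the
cokernel is finite-dimensional (`quot`); if the kernel were `≠ ⊥` then `V ⧸ ker ≃ range` would be finite-dimensional, and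
so would be `V`: contradiction. So V11 applies to `C` (`Module.Finite C V` from `Module.Finite C E` and
`Module.Finite E V`: `Module.Finite.trans`): `g : ℚ[X] →ₐ C`, injective and finite. Make `E` and `V` modules/algebras over
`ℚ[X]` through `g` (`RingHom.toAlgebra`, `Module.compHom`): finite; `V` is torsion-free over `ℚ[X]`, hence free
(`Module.free_of_finite_type_torsion_free'`, `ℚ[X]` is a PID), and so is `E` (if `p e = 0`, `p ≠ 0`, then
`p • (e • x) = 0`, `e • x = 0` for all `x`). `IsReduced E`: V12; `𝔫 V` is `Γ`-stable because `θ γ` maps `nilradical E` into itself, and it is `≠ ⊥` if `𝔫 ≠ ⊥`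
(faithful). The action of `p : ℚ[X]` is the action of `g p ∈ C`: `ρ γ (p • x) = θ γ (g p) • ρ γ x = p • ρ γ x`.
`Nontrivial E`: `V ≠ 0` since it is not finite-dimensional. `(c : ℚ) • x = C c • x`: `g` is a `ℚ`-algebra
homomorphism. -/

namespace Pool.Agent.LibNV

open Polynomial Pool.Agent.LibNM

theorem structureV {Γ V : Type} [Group Γ] [AddCommGroup V] [Module ℚ V]
    (ρ : Γ →* Module.End ℚ V) (Γ₀ : Subgroup Γ) (h : JIQ ρ Γ₀) :
    ∃ (E : Type) (_ : CommRing E) (_ : IsReduced E) (_ : Nontrivial E) (_ : Algebra ℚ[X] E)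
      (_ : Module.Finite ℚ[X] E) (_ : Module.Free ℚ[X] E) (_ : Module E V) (_ : Module ℚ[X] V)
      (_ : IsScalarTower ℚ[X] E V) (_ : Module.Finite ℚ[X] V) (_ : Module.Free ℚ[X] V)
      (κ : Γ₀ →* Eˣ),
      (∀ γ (p : ℚ[X]) (x : V), ρ γ (p • x) = p • ρ γ x) ∧
      (∀ (γ : Γ₀) (x : V), ρ γ x = (κ γ : E) • x) ∧
      ∀ e : E, (∀ x : V, e • x = 0) → e = 0 := by
  obtain ⟨E, iCR, iAlg, iMod, iST, θ, κ, hEft, hEV, hfaith, hθ, hκ, hθ0⟩ := algE ρ Γ₀ h
  have := h.normal
  have := h.fin
  obtain ⟨C, hCθ, hCft, hCE⟩ := invariants hEft Γ₀ θ hθ0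
  have hinf := h.inf
  have hnt : Nontrivial E := by
    by_contra hn
    rw [not_nontrivial_iff_subsingleton] at hn
    apply hinf
    have : Subsingleton V := by
      refine ⟨fun x y => ?_⟩
      rw [← one_smul E x, ← one_smul E y, Subsingleton.elim (1 : E) 0, zero_smul, zero_smul]
    infer_instance
  have hred : IsReduced E := by
    refine reduced hEft hinf (fun hn => ?_)
    apply h.quot
    · intro hL
      apply hn
      rw [eq_bot_iff]
      intro e he
      have : e = 0 := by
        apply hfaith
        intro x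
        have hx : e • x ∈ (nilradical E • (⊤ : Submodule E V)).restrictScalars ℚ :=
          Submodule.smul_mem_smul he Submodule.mem_top
        rw [hL] at hx
        exact (Submodule.mem_bot ℚ).1 hx
      rw [this]
      exact Submodule.zero_mem _
    · intro γ x hx
      have hx' : x ∈ nilradical E • (⊤ : Submodule E V) := hx
      change ρ γ x ∈ nilradical E • (⊤ : Submodule E V)
      refine Submodule.smul_induction_on (p := fun x => ρ γ x ∈ nilradical E • (⊤ : Submodule E V))
        hx' ?_ ?_
      · intro e he y _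
        rw [hθ]
        refine Submodule.smul_mem_smul ?_ Submodule.mem_top
        have : IsNilpotent e := he
        exact this.map (θ γ)
      · intro y z hy hz
        rw [map_add]
        exact Submodule.add_mem _ hy hz
  have hcomm : ∀ (c : C) (γ : Γ) (x : V), ρ γ ((c : E) • x) = (c : E) • ρ γ x := by
    intro c γ x
    rw [hθ, hCθ c c.2 γ]
  have : IsScalarTower C E V := ⟨fun c e x => by
    change ((c : E) * e) • x = (c : E) • e • x
    rw [mul_smul]⟩
  have : IsScalarTower ℚ C V := ⟨fun q c x => by
    change ((q • c : C) : E) • x = q • (c : E) • x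
    rw [Subalgebra.coe_smul, smul_assoc]⟩
  have hrange : ∀ c : C, c ≠ 0 →
      FiniteDimensional ℚ (V ⧸ LinearMap.range (Algebra.lsmul ℚ ℚ V c)) := by
    intro c hc
    apply h.quot
    · intro hL
      apply hc
      have : (c : E) = 0 := by
        apply hfaith
        intro x
        have hx : (Algebra.lsmul ℚ ℚ V c) x ∈ LinearMap.range (Algebra.lsmul ℚ ℚ V c) :=
          LinearMap.mem_range_self _ x
        rw [hL] at hx
        exact (Submodule.mem_bot ℚ).1 hx
      exact Subtype.ext this
    · intro γ x hx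
      obtain ⟨y, rfl⟩ := LinearMap.mem_range.1 hx
      exact LinearMap.mem_range.2 ⟨ρ γ y, (hcomm c γ y).symm⟩
  have hinj : ∀ c : C, c ≠ 0 → ∀ x : V, c • x = 0 → x = 0 := by
    intro c hc x hx
    by_contra hx0
    have hker : FiniteDimensional ℚ (V ⧸ LinearMap.ker (Algebra.lsmul ℚ ℚ V c)) := by
      apply h.quot
      · intro hL
        apply hx0
        have : x ∈ LinearMap.ker (Algebra.lsmul ℚ ℚ V c) := LinearMap.mem_ker.2 hx
        rw [hL] at this
        exact (Submodule.mem_bot ℚ).1 this
      · intro γ y hy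
        have hy' : (c : E) • y = 0 := LinearMap.mem_ker.1 hy
        refine LinearMap.mem_ker.2 ?_
        change (c : E) • ρ γ y = 0
        rw [← hcomm, hy', map_zero]
    have hfr : FiniteDimensional ℚ (LinearMap.range (Algebra.lsmul ℚ ℚ V c)) :=
      Module.Finite.equiv (LinearMap.quotKerEquivRange (Algebra.lsmul ℚ ℚ V c))
    have := hfr
    have := hrange c hc
    exact hinf (Module.Finite.of_submodule_quotient (LinearMap.range (Algebra.lsmul ℚ ℚ V c)))
  have := hCE
  have := hEV
  obtain ⟨g, hgi, hgf⟩ := one_var (C := C) (V := V) hCft (Module.Finite.trans E V) hinf hinj hrange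
  let f : ℚ[X] →+* E := (algebraMap C E).comp g.toRingHom
  have hff : f.Finite := RingHom.Finite.comp (RingHom.finite_algebraMap.2 hCE) hgf
  have hfC : ∀ p, f p ∈ C := fun p => (g p).2
  have hf0 : ∀ p, p ≠ 0 → ∀ x : V, f p • x = 0 → x = 0 := by
    intro p hp x hx
    refine hinj (g p) (fun hg => hp (hgi (by rw [hg, map_zero]))) x hx
  letI aE : Algebra ℚ[X] E := f.toAlgebra
  letI mV : Module ℚ[X] V := Module.compHom V f
  have tower : IsScalarTower ℚ[X] E V := ⟨fun p e x => by
    change (f p * e) • x = f p • e • x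
    rw [mul_smul]⟩
  have fE : Module.Finite ℚ[X] E := hff
  have fV : Module.Finite ℚ[X] V := Module.Finite.trans E V
  have key : ∀ (p : ℚ[X]) (x : V), p • x = f p • x := fun p x => rfl
  have tfV : Module.IsTorsionFree ℚ[X] V := by
    rw [Module.isTorsionFree_iff_smul_eq_zero]
    intro p x hpx
    by_cases hp : p = 0
    · exact Or.inl hp
    · exact Or.inr (hf0 p hp x hpx)
  have tfE : Module.IsTorsionFree ℚ[X] E := by
    rw [Module.isTorsionFree_iff_smul_eq_zero]
    intro p e hpe
    by_cases hp : p = 0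
    · exact Or.inl hp
    · refine Or.inr (hfaith e fun x => hf0 p hp _ ?_)
      have : (f p * e) = 0 := hpe
      rw [← mul_smul, this, zero_smul]
  have frE : Module.Free ℚ[X] E := Module.free_of_finite_type_torsion_free'
  have frV : Module.Free ℚ[X] V := Module.free_of_finite_type_torsion_free'
  refine ⟨E, iCR, hred, hnt, aE, fE, frE, iMod, mV, tower, fV, frV, κ, ?_, hκ, hfaith⟩
  intro γ p x
  rw [key, key, hθ, hCθ _ (hfC p) γ]

end Pool.Agent.LibNV
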