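import Mathlib

set_option autoImplicit false

/-! [NV V15] A functional on a faithful finite module over a ring homomorphism to a field. -/

namespace Pool.Agent.LibNV

open TensorProduct

theorem exists_functional {E V : Type} [CommRing E] [AddCommGroup V] [Module E V]
    (hV : Module.Finite E V) (hfaith : ∀ e : E, (∀ x : V, e • x = 0) → e = 0) {K : Type} [Field K]
    (σ : E →+* K) : ∃ f : V →+ K, (∀ (e : E) x, f (e • x) = σ e * f x) ∧ ∃ v, f v ≠ 0 := by
  classical
  let P : Ideal E := RingHom.ker σ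
  have hP : P.IsPrime := RingHom.ker_isPrime σ
  have hmem : (⟨P, hP⟩ : PrimeSpectrum E) ∈ Module.support E V := by
    rw [Module.support_eq_zeroLocus, PrimeSpectrum.mem_zeroLocus]
    intro e he
    have h0 : e = 0 := hfaith e (fun x => by
      have := (Module.mem_annihilator.mp he) x
      exact this)
    rw [h0]
    exact P.zero_mem
  have hnt : Nontrivial (P.ResidueField ⊗[E] V) :=
    (Module.mem_support_iff_nontrivial_residueField_tensorProduct (R := E) (M := V) ⟨P, hP⟩).mp hmem
  let κ := P.ResidueField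
  have hu : P.primeCompl ≤ (IsUnit.submonoid K).comap σ := by
    intro s hs
    show IsUnit (σ s)
    refine isUnit_iff_ne_zero.mpr ?_
    intro h0
    exact hs h0
  let g : κ →+* K := Ideal.ResidueField.lift P σ le_rfl hu
  have hg : ∀ e : E, g (algebraMap E κ e) = σ e := fun e => by
    simp [g, κ]
  obtain ⟨y, hy⟩ := exists_ne (0 : κ ⊗[E] V)
  obtain ⟨φ, hφ⟩ : ∃ φ : Module.Dual κ (κ ⊗[E] V), φ y ≠ 0 := by
    by_contra hcon
    push Not at hcon
    exact hy ((Module.forall_dual_apply_eq_zero_iff κ y).mp hcon)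
  have hx : ∃ v : V, φ ((1 : κ) ⊗ₜ[E] v) ≠ 0 := by
    by_contra hcon
    push Not at hcon
    apply hφ
    have hall : ∀ z : κ ⊗[E] V, φ z = 0 := by
      intro z
      induction z using TensorProduct.induction_on with
      | zero => simp
      | tmul a v =>
        have : a ⊗ₜ[E] v = a • ((1 : κ) ⊗ₜ[E] v) := by
          rw [TensorProduct.smul_tmul']; simp
        rw [this, map_smul, hcon v, smul_zero]
      | add a b ha hb => rw [map_add, ha, hb, add_zero]
    exact hall y
  obtain ⟨v, hv⟩ := hx
  refine ⟨{ toFun := fun x => g (φ ((1 : κ) ⊗ₜ[E] x))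
            map_zero' := by simp
            map_add' := fun x x' => by rw [TensorProduct.tmul_add, map_add, map_add] },
    ?_, v, ?_⟩
  · intro e x
    show g (φ ((1 : κ) ⊗ₜ[E] (e • x))) = σ e * g (φ ((1 : κ) ⊗ₜ[E] x))
    have h1 : (1 : κ) ⊗ₜ[E] (e • x) = (algebraMap E κ e) • ((1 : κ) ⊗ₜ[E] x) := by
      rw [TensorProduct.tmul_smul, TensorProduct.smul_tmul', TensorProduct.smul_tmul',
        Algebra.smul_def, smul_eq_mul]
    rw [h1, map_smul, smul_eq_mul, map_mul, hg]
  · show g (φ ((1 : κ) ⊗ₜ[E] v)) ≠ 0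
    intro h0
    exact hv (g.injective (by rw [h0, map_zero]))

end Pool.Agent.LibNV
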