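import Mathlib
import Pool.Agent.LibNM.Defs

set_option autoImplicit false

/-! [NV V16] A generic point and a generic functional; independent elements.

PLAN. `generic_point`: `b := Module.Free.chooseBasis ℚ[X] V`, coordinates `b.repr x : ι →₀ ℚ[X]`, `ι` finite. Every
`y ∈ Y` has a nonzero coordinate polynomial, so for all but finitely many integers `τ` the vector
`(eval τ (b.repr y i))_i : ι → ℚ` is nonzero for every `y ∈ Y`; choose such a `τ ∉ T`. Functional
`f x := ∑ i, w i * evK ℂ τ (b.repr x i)` with `w : ι → ℂ` outside the finitely many hyperplanes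
`∑ i, w i * evK ℂ τ (b.repr y i) = 0` (for example `Module.Dual.exists_forall_ne_zero_of_forall_exists`-like lemma
`Module.exists_dual_forall_apply_ne_zero`..., or `w i = s ^ i` with `s` outside the finitely many roots of nonzero
polynomials, for an enumeration of `ι`).
`independentV`: `V ≠ 0` has a basis vector `b i₀` (`Module.Free.chooseBasis`). `g := ∏_(m < k) (X - C m)`,
`x_m := (∏_(l ≠ m) (X - C l)) • b i₀` (`l`, `m` in `Fin k`), `n_m ≠ 0` and `a m` with `n_m • x_m = ι (a m)` (`hι`). If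
`ι (∑ c_i • a_i) = g • x`, the coordinate `i₀` gives `∑ c_i n_i ∏_(l ≠ i) (X - C l) = g * (b.repr x i₀)` in `ℚ[X]`; evaluate
at `m`: `c_m n_m ∏_(l ≠ m) (m - l) = 0`, so `c_m = 0`. -/

namespace Pool.Agent.LibNV

open Polynomial Pool.Agent.LibNM

theorem generic_point {V : Type} [AddCommGroup V] [Module ℚ[X] V] [Module.Finite ℚ[X] V]
    [Module.Free ℚ[X] V] (Y : Finset V) (hY : (0 : V) ∉ Y) (T : Finset ℤ) :
    ∃ τ : ℤ, τ ∉ T ∧ ∃ f : V →+ ℂ, (∀ (p : ℚ[X]) x, f (p • x) = evK ℂ τ p * f x) ∧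
      ∀ y ∈ Y, f y ≠ 0 := by
  classical
  let b := Module.Free.chooseBasis ℚ[X] V
  have hex : ∀ y : V, y ≠ 0 → ∃ i, b.repr y i ≠ 0 := by
    intro y hy
    by_contra hcon
    push Not at hcon
    apply hy
    apply b.repr.injective
    rw [map_zero]
    exact Finsupp.ext hcon
  -- the integer `τ`
  have h1 : ∃ P : ℚ[X], P ≠ 0 ∧ ∀ y ∈ Y, ∃ i, b.repr y i ∣ P ∧ b.repr y i ≠ 0 := by
    have hex' : ∀ y : V, ∃ q : ℚ[X], q ≠ 0 ∧ (y ≠ 0 → ∃ i, b.repr y i = q) := by
      intro y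
      by_cases hy : y = 0
      · exact ⟨1, one_ne_zero, fun h => absurd hy h⟩
      · obtain ⟨i, hi⟩ := hex y hy
        exact ⟨_, hi, fun _ => ⟨i, rfl⟩⟩
    choose q hq hqi using hex'
    refine ⟨∏ y ∈ Y, q y, Finset.prod_ne_zero_iff.2 fun y _ => hq y, fun y hy => ?_⟩
    obtain ⟨i, hi⟩ := hqi y (fun h => hY (h ▸ hy))
    exact ⟨i, hi ▸ Finset.dvd_prod_of_mem q hy, hi ▸ hq y⟩
  obtain ⟨P, hP, hPY⟩ := h1
  have h2 : {τ : ℤ | P.eval (τ : ℚ) = 0}.Finite := by
    have h3 : (P.roots.toFinset : Set ℚ).Finite := Finset.finite_toSet _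
    refine (h3.preimage (Int.cast_injective (α := ℚ)).injOn).subset ?_
    intro τ hτ
    rw [Set.mem_preimage, Finset.mem_coe, Multiset.mem_toFinset, mem_roots hP]
    exact hτ
  obtain ⟨τ, hτ⟩ := Infinite.exists_notMem_finset (T ∪ h2.toFinset)
  rw [Finset.mem_union, not_or, Set.Finite.mem_toFinset, Set.mem_ofPred_eq] at hτ
  obtain ⟨hτT, hτP⟩ := hτ
  have hev : ∀ p : ℚ[X], evK ℂ τ p = algebraMap ℚ ℂ (p.eval (τ : ℚ)) := by
    intro p
    unfold evK
    rw [coe_eval₂RingHom, ← map_intCast (algebraMap ℚ ℂ) τ, eval₂_at_apply]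
  have hYev : ∀ y ∈ Y, ∃ i, evK ℂ τ (b.repr y i) ≠ 0 := by
    intro y hy
    obtain ⟨i, hdvd, -⟩ := hPY y hy
    refine ⟨i, ?_⟩
    rw [hev]
    intro h0
    rw [map_eq_zero] at h0
    obtain ⟨q, hq⟩ := hdvd
    apply hτP
    rw [hq, eval_mul, h0, zero_mul]
  -- the weights
  let e := Fintype.equivFin (Module.Free.ChooseBasisIndex ℚ[X] V)
  let Q : V → ℂ[X] := fun y => ∑ i, C (evK ℂ τ (b.repr y i)) * X ^ (e i : ℕ)
  have hQ : ∀ y ∈ Y, Q y ≠ 0 := by
    intro y hy h0
    obtain ⟨i, hi⟩ := hYev y hy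
    apply hi
    have h3 : (Q y).coeff (e i : ℕ) = evK ℂ τ (b.repr y i) := by
      simp only [Q, finsetSum_coeff, coeff_C_mul, coeff_X_pow]
      rw [Finset.sum_eq_single i]
      · simp
      · intro j _ hj
        rw [if_neg, mul_zero]
        intro h
        exact hj (e.injective (Fin.ext h.symm))
      · intro h
        exact absurd (Finset.mem_univ i) h
    rw [← h3, h0, coeff_zero]
  have hQ' : ∏ y ∈ Y, Q y ≠ 0 := Finset.prod_ne_zero_iff.2 hQ
  obtain ⟨s, hs⟩ := Infinite.exists_notMem_finset (∏ y ∈ Y, Q y).roots.toFinset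
  rw [Multiset.mem_toFinset, mem_roots hQ', IsRoot.def, eval_prod] at hs
  have hs' : ∀ y ∈ Y, (Q y).eval s ≠ 0 := Finset.prod_ne_zero_iff.1 hs
  obtain ⟨f, hf⟩ : ∃ f : V →+ ℂ, ∀ x, f x = ∑ i, evK ℂ τ (b.repr x i) * s ^ (e i : ℕ) := by
    refine ⟨AddMonoidHom.mk' (fun x => ∑ i, evK ℂ τ (b.repr x i) * s ^ (e i : ℕ)) ?_,
      fun x => rfl⟩
    intro x y
    rw [← Finset.sum_add_distrib]
    refine Finset.sum_congr rfl fun i _ => ?_
    rw [map_add, Finsupp.add_apply, map_add, add_mul]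
  refine ⟨τ, hτT, f, ?_, ?_⟩
  · intro p x
    rw [hf, hf, Finset.mul_sum]
    refine Finset.sum_congr rfl fun i _ => ?_
    rw [map_smul, Finsupp.smul_apply, smul_eq_mul, map_mul, mul_assoc]
  · intro y hy
    rw [hf]
    have h3 := hs' y hy
    simp only [Q, eval_finsetSum, eval_mul, eval_C, eval_pow, eval_X] at h3
    exact h3

theorem independentV {V : Type} [AddCommGroup V] [Nontrivial V] [Module ℚ[X] V]
    [Module.Finite ℚ[X] V] [Module.Free ℚ[X] V] {M : Type} [AddCommGroup M] (ι : M →+ V)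
    (hι : ∀ x : V, ∃ n : ℤ, n ≠ 0 ∧ ∃ m, n • x = ι m) (k : ℕ) :
    ∃ (g : ℚ[X]) (a : Fin k → M), g ≠ 0 ∧
      ∀ c : Fin k → ℤ, (∃ x : V, ι (∑ i, c i • a i) = g • x) → c = 0 := by
  classical
  let b := Module.Free.chooseBasis ℚ[X] V
  have hne : Nonempty (Module.Free.ChooseBasisIndex ℚ[X] V) := inferInstance
  obtain ⟨i₀⟩ := hne
  let R : Fin k → ℚ[X] := fun m => ∏ l ∈ Finset.univ.erase m, (X - C ((l : ℕ) : ℚ))
  choose n hn a ha using fun m : Fin k => hι (R m • b i₀)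
  refine ⟨∏ l : Fin k, (X - C ((l : ℕ) : ℚ)), a, ?_, ?_⟩
  · exact Finset.prod_ne_zero_iff.2 fun l _ => X_sub_C_ne_zero _
  · rintro c ⟨x, hx⟩
    have h1 : ι (∑ i, c i • a i) = (∑ i, (C ((c i * n i : ℤ) : ℚ) * R i)) • b i₀ := by
      rw [map_sum, Finset.sum_smul]
      refine Finset.sum_congr rfl fun i _ => ?_
      rw [map_zsmul, ← ha, ← Int.cast_smul_eq_zsmul ℚ[X] (c i), ← Int.cast_smul_eq_zsmul ℚ[X] (n i),
        smul_smul, smul_smul]
      congr 1
      rw [map_intCast]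
      push_cast
      rfl
    rw [h1] at hx
    have h2 := congrArg (fun v => b.repr v i₀) hx
    simp only [map_smul, Finsupp.smul_apply, Module.Basis.repr_self, Finsupp.single_eq_same,
      smul_eq_mul, mul_one] at h2
    funext m
    have h3 := congrArg (eval ((m : ℕ) : ℚ)) h2
    rw [eval_finsetSum, Finset.sum_eq_single m] at h3
    · have h4 : eval ((m : ℕ) : ℚ) (∏ l : Fin k, (X - C ((l : ℕ) : ℚ))) = 0 := by
        rw [eval_prod]
        refine Finset.prod_eq_zero (Finset.mem_univ m) ?_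
        rw [eval_sub, eval_X, eval_C, sub_self]
      rw [eval_mul, eval_mul, h4, zero_mul, eval_C] at h3
      have h5 : eval ((m : ℕ) : ℚ) (R m) ≠ 0 := by
        simp only [R]
        rw [eval_prod]
        refine Finset.prod_ne_zero_iff.2 fun l hl => ?_
        rw [eval_sub, eval_X, eval_C, sub_ne_zero]
        intro h
        exact (Finset.mem_erase.1 hl).1 (Fin.ext (Nat.cast_injective h.symm))
      have h6 := (mul_eq_zero.1 h3).resolve_right h5
      have h7 : c m * n m = 0 := by exact_mod_cast h6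
      exact (mul_eq_zero.1 h7).resolve_right (hn m)
    · intro l _ hl
      rw [eval_mul]
      have h4 : eval ((m : ℕ) : ℚ) (R l) = 0 := by
        simp only [R]
        rw [eval_prod]
        refine Finset.prod_eq_zero (Finset.mem_erase.2 ⟨hl.symm, Finset.mem_univ m⟩) ?_
        rw [eval_sub, eval_X, eval_C, sub_self]
      rw [h4, mul_zero]
    · intro h
      exact absurd (Finset.mem_univ m) h

end Pool.Agent.LibNV
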