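import Mathlib
import Pool.Agent.LibNM.N02
import Pool.Agent.LibNM.N12
import Pool.Agent.LibNV.Defs
import Pool.Agent.LibNV.V14
import Pool.Agent.LibNV.V15

set_option autoImplicit false

/-! [NV V17] A finite set of tests, one of which is small for all but finitely many `γ`.

PLAN. `↥Γ₀` is commutative (`hcomm`: build the `CommGroup` instance) and finitely generated
(`Subgroup.fg_of_index_ne_zero`): `lattice` (N12) gives `r`, `e : Zd r →* Γ₀` injective, a finite set `F`. Let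
`u j := κ (e (ofAdd (Pi.single j 1))) : Eˣ`; `κ (e z) = ∏ j, u j ^ z j` (`map_zd`, N12), and `κ` is injective: if
`κ γ = 1` then `ρ γ = id` (`h2`), `γ = 1` (`h4`); so `hu` of V14 holds. `selection` (N02) with `𝓛 τ = {ℓ | IsTest u τ ℓ}`, the
hypothesis from `positivityV` (V14), `T = Set.univ`: a finite set `s` and vectors `ℓ τ` with
`∀ x ≠ 0, ∃ τ ∈ s, ∑ x_j ℓ τ j < 0`.
For `τ ∈ s`: `K`, `σ : E →+* K` over `τ`; `exists_functional` (V15; `Module.Finite E V` follows from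
`Module.Finite ℚ[X] V`: `Module.Finite.of_restrictScalars_finite`) gives `f₀`, `v` with `f₀ v ≠ 0`, and
`f := (f₀ v)⁻¹ * f₀` has `f v = 1`, `f (e • x) = σ e * f x`, in particular `f (X • x) = f (tE E • x) = τ f x`
(`algebraMap_smul`). `φ τ γ := ‖f (ρ γ v)‖`.
By compactness of the unit sphere there is `δ₀ > 0` with `∀ x, ∃ τ ∈ s, ∑ x_j ℓ τ j ≤ - δ₀ ‖x‖` (see the private lemma
`n13_compact` in Pool/Agent/LibNM/N13.lean; copy it). Every `γ : Γ` is `γ = (e ν) * g` with `g` in a finite set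
`R ⊆ Γ` (right coset representatives of `Γ₀` times `F`). For `γ = (e ν) g`:
`f (ρ γ v) = f (κ (e ν) • ρ g v) = σ (κ (e ν)) * f (ρ g v)`, so
`φ τ γ = exp (∑ ν_j ℓ τ j) * φ τ g ≤ exp (- δ₀ ‖ν‖) * C`, with `C` the maximum of all `φ τ g`, for some `τ ∈ s`. So if
`φ τ γ ≥ δ` for all `τ ∈ s` then `‖ν‖ ≤ R₀`: finitely many `ν`, and so finitely many `γ`. (If `r = 0` everything is
finite.) See the private lemma `n13_test` of N13 for a similar computation. -/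

namespace Pool.Agent.LibNV

open Polynomial Filter Topology Pool.Agent.LibNM Pool.Agent.LibND

/-- the norm of a word in the units -/
private theorem v17_norm {E : Type} [CommRing E] {r : ℕ} (e' : Zd r →* Eˣ) {K : Type}
    [NormedField K] (σ : E →+* K) (ℓ : Fin r → ℝ)
    (hℓ : ∀ j, ℓ j = Real.log ‖σ (e' (Multiplicative.ofAdd (Pi.single j 1)) : E)‖) (ν : Zd r) :
    ‖σ (e' ν : E)‖ = Real.exp (∑ j, (ν.toAdd j : ℝ) * ℓ j) := by
  let N : Eˣ →* ℝ := ((normHom : K →*₀ ℝ) : K →* ℝ).comp ((σ : E →* K).comp (Units.coeHom E))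
  have hN : ∀ x : Eˣ, N x = ‖σ (x : E)‖ := fun x => rfl
  rw [← hN, map_zd e' ν, map_prod, Real.exp_sum]
  refine Finset.prod_congr rfl fun j _ => ?_
  rw [map_zpow, hN, hℓ, mul_comm, Real.exp_mul, Real.rpow_intCast, Real.exp_log]
  exact norm_pos_iff.2 ((e' _).isUnit.map σ).ne_zero

/-- compactness: integer vectors on which all tests are bounded below are bounded -/
private theorem v17_compact {r : ℕ} (s : Finset ℤ) (ℓ : ℤ → Fin r → ℝ)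
    (h : ∀ x : Fin r → ℝ, x ≠ 0 → ∃ τ ∈ s, ∑ j, x j * ℓ τ j < 0) (M : ℝ) :
    {ν : Fin r → ℤ | ∀ τ ∈ s, - M < ∑ j, (ν j : ℝ) * ℓ τ j}.Finite := by
  let g : (Fin r → ℝ) → ℝ := fun x => ∑ τ ∈ s, max 0 (- ∑ j, x j * ℓ τ j)
  have hgc : Continuous g := by
    refine continuous_finsetSum _ fun τ _ => continuous_const.max (Continuous.neg ?_)
    exact continuous_finsetSum _ fun j _ => (continuous_apply j).mul continuous_const
  have hg0 : ∀ x : Fin r → ℝ, x ≠ 0 → 0 < g x := by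
    intro x hx
    obtain ⟨τ, hτ, hlt⟩ := h x hx
    refine lt_of_lt_of_le (lt_of_lt_of_le (neg_pos.2 hlt) (le_max_right 0 _))
      (Finset.single_le_sum (f := fun τ => max 0 (- ∑ j, x j * ℓ τ j))
        (fun i _ => le_max_left _ _) hτ)
  have hgh : ∀ (t : ℝ) (x : Fin r → ℝ), 0 ≤ t → g (t • x) = t * g x := by
    intro t x ht
    simp only [g, Finset.mul_sum]
    refine Finset.sum_congr rfl fun τ _ => ?_
    have e1 : - ∑ j, (t • x) j * ℓ τ j = t * (- ∑ j, x j * ℓ τ j) := by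
      rw [mul_neg, Finset.mul_sum]
      congr 1
      exact Finset.sum_congr rfl fun j _ => by simp [mul_assoc]
    rw [e1, mul_max_of_nonneg _ _ ht, mul_zero]
  obtain ⟨c, hc, hcg⟩ : ∃ c : ℝ, 0 < c ∧ ∀ x : Fin r → ℝ, c * ‖x‖ ≤ g x := by
    by_cases hne : (Metric.sphere (0 : Fin r → ℝ) 1).Nonempty
    · obtain ⟨x0, hx0, hmin⟩ := (isCompact_sphere (0 : Fin r → ℝ) 1).exists_isMinOn hne
        hgc.continuousOn
      have hx00 : x0 ≠ 0 := by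
        rintro rfl
        rw [mem_sphere_zero_iff_norm, norm_zero] at hx0
        exact zero_ne_one hx0
      refine ⟨g x0, hg0 x0 hx00, fun x => ?_⟩
      rcases eq_or_ne x 0 with rfl | hx
      · rw [norm_zero, mul_zero]
        exact Finset.sum_nonneg fun i _ => le_max_left _ _
      · have hxn : 0 < ‖x‖ := norm_pos_iff.2 hx
        have h1 : ‖x‖⁻¹ • x ∈ Metric.sphere (0 : Fin r → ℝ) 1 := by
          rw [mem_sphere_zero_iff_norm, norm_smul, norm_inv, norm_norm, inv_mul_cancel₀ hxn.ne']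
        have h2 : g x0 ≤ g (‖x‖⁻¹ • x) := hmin h1
        rw [hgh _ _ (inv_nonneg.2 hxn.le), inv_mul_eq_div, le_div_iff₀ hxn] at h2
        exact h2
    · refine ⟨1, one_pos, fun x => ?_⟩
      have hx : x = 0 := by
        by_contra hx
        have hxn : 0 < ‖x‖ := norm_pos_iff.2 hx
        exact hne ⟨‖x‖⁻¹ • x, by
          rw [mem_sphere_zero_iff_norm, norm_smul, norm_inv, norm_norm, inv_mul_cancel₀ hxn.ne']⟩
      subst hx
      rw [norm_zero, mul_zero]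
      exact Finset.sum_nonneg fun i _ => le_max_left _ _
  obtain ⟨B, hB⟩ := exists_nat_ge ((s.card : ℝ) * max 0 M / c)
  refine (Set.finite_Icc (fun _ : Fin r => -(B : ℤ)) fun _ => (B : ℤ)).subset fun ν hν => ?_
  have h1 : g (fun j => (ν j : ℝ)) ≤ s.card * max 0 M := by
    calc g (fun j => (ν j : ℝ)) ≤ ∑ _τ ∈ s, max 0 M := by
          refine Finset.sum_le_sum fun τ hτ => max_le_max le_rfl ?_
          have := hν τ hτ
          linarith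
      _ = s.card * max 0 M := by rw [Finset.sum_const, nsmul_eq_mul]
  have h2 : ‖(fun j => (ν j : ℝ) : Fin r → ℝ)‖ ≤ B := by
    refine le_trans ?_ hB
    rw [le_div_iff₀ hc, mul_comm]
    exact (hcg _).trans h1
  have h3 : ∀ j, |ν j| ≤ (B : ℤ) := by
    intro j
    have h4 := (norm_le_pi_norm (fun j => (ν j : ℝ) : Fin r → ℝ) j).trans h2
    rw [Real.norm_eq_abs] at h4
    exact_mod_cast h4
  exact ⟨fun j => (abs_le.1 (h3 j)).1, fun j => (abs_le.1 (h3 j)).2⟩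


/-- the test of a homomorphism to a field -/
private theorem v17_test {Γ : Type} [Group Γ] {Γ₀ : Subgroup Γ} {E V : Type} [CommRing E]
    [Algebra ℚ[X] E] [AddCommGroup V] [Module E V] [Module ℚ[X] V] [IsScalarTower ℚ[X] E V]
    (hV : Module.Finite E V) (ρ : Γ →* AddMonoid.End V) (κ : Γ₀ →* Eˣ)
    (h2 : ∀ (γ : Γ₀) (x : V), ρ γ x = (κ γ : E) • x)
    (h3 : ∀ e : E, (∀ x : V, e • x = 0) → e = 0) {r : ℕ} (e : Zd r →* Γ₀) {τ : ℤ}
    {ℓ : Fin r → ℝ} (hT : IsTest (fun j => κ (e (Multiplicative.ofAdd (Pi.single j 1)))) τ ℓ) :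
    ∃ φ : Γ → ℝ, IsVTest ρ τ φ ∧ (∀ γ, 0 ≤ φ γ) ∧ ∀ (ν : Zd r) (g : Γ),
      φ ((e ν : Γ) * g) = Real.exp (∑ j, (ν.toAdd j : ℝ) * ℓ j) * φ g := by
  obtain ⟨K, iK, hgood, hchar, σ, hσ, hℓ⟩ := hT
  obtain ⟨f₀, hf₀, v, hv⟩ := exists_functional hV h3 σ
  obtain ⟨f, hf⟩ : ∃ f : V →+ K, ∀ x, f x = (f₀ v)⁻¹ * f₀ x :=
    ⟨(AddMonoidHom.mulLeft (f₀ v)⁻¹).comp f₀, fun x => rfl⟩
  have hfE : ∀ (a : E) (x : V), f (a • x) = σ a * f x := by
    intro a x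
    rw [hf, hf, hf₀, mul_left_comm]
  refine ⟨fun γ => ‖f (ρ γ v)‖, ⟨K, iK, hgood, hchar, f, v, fun x => ?_, ?_, fun γ => rfl⟩,
    fun γ => norm_nonneg _, fun ν g => ?_⟩
  · rw [← algebraMap_smul E (X : ℚ[X]) x, hfE, ← hσ]
    rfl
  · rw [hf, inv_mul_cancel₀ hv]
  · have h5 := v17_norm (κ.comp e) σ ℓ hℓ ν
    have h6 : f (ρ ((e ν : Γ) * g) v) = σ (κ (e ν) : E) * f (ρ g v) := by
      have h7 : ρ ((e ν : Γ) * g) v = ρ (e ν : Γ) (ρ g v) := by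
        rw [map_mul]
        rfl
      rw [h7, h2, hfE]
    show ‖f (ρ ((e ν : Γ) * g) v)‖ = _
    rw [h6, norm_mul]
    congr 1

theorem tests {Γ : Type} [Group Γ] (hfg : Group.FG Γ) (Γ₀ : Subgroup Γ) [Γ₀.FiniteIndex]
    (hcomm : ∀ a ∈ Γ₀, ∀ b ∈ Γ₀, a * b = b * a) {E V : Type} [CommRing E] [IsReduced E]
    [Nontrivial E] [Algebra ℚ[X] E] [Module.Finite ℚ[X] E] [Module.Free ℚ[X] E] [AddCommGroup V]
    [Module E V] [Module ℚ[X] V] [IsScalarTower ℚ[X] E V] [Module.Finite ℚ[X] V]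
    (ρ : Γ →* AddMonoid.End V) (κ : Γ₀ →* Eˣ)
    (h2 : ∀ (γ : Γ₀) (x : V), ρ γ x = (κ γ : E) • x)
    (h3 : ∀ e : E, (∀ x : V, e • x = 0) → e = 0) (h4 : ∀ γ, (∀ x, ρ γ x = x) → γ = 1) :
    ∃ (s : Finset ℤ) (φ : ℤ → Γ → ℝ), (∀ τ ∈ s, IsVTest ρ τ (φ τ)) ∧
      ∀ δ : ℝ, 0 < δ → {γ : Γ | ∀ τ ∈ s, δ ≤ φ τ γ}.Finite := by
  classical
  let iC : CommGroup Γ₀ :=
    { (inferInstance : Group Γ₀) with
      mul_comm := fun a b => Subtype.ext (hcomm a a.2 b b.2) }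
  have hfg₀ : Group.FG Γ₀ := by
    have : Group.FG Γ := hfg
    exact Subgroup.fg_of_index_ne_zero Γ₀
  obtain ⟨r, e, F, he, hdec⟩ := lattice Γ₀ hfg₀
  have hV : Module.Finite E V := Module.Finite.of_restrictScalars_finite ℚ[X] E V
  have hκ : ∀ γ : Γ₀, κ γ = 1 → γ = 1 := by
    intro γ hγ
    refine Subtype.ext (h4 γ fun x => ?_)
    rw [h2, hγ, Units.val_one, one_smul]
  obtain ⟨u, hu⟩ : ∃ u : Fin r → Eˣ, u = fun j =>
    κ (e (Multiplicative.ofAdd (Pi.single j 1))) := ⟨_, rfl⟩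
  have huinj : ∀ n : Fin r → ℤ, ∏ j, u j ^ n j = 1 → n = 0 := by
    intro n hn
    have h1 := map_zd (κ.comp e) (Multiplicative.ofAdd n)
    have h5 : κ (e (Multiplicative.ofAdd n)) = 1 := by
      rw [hu] at hn
      exact h1.trans hn
    have h6 : Multiplicative.ofAdd n = 1 := he (by rw [hκ _ h5, map_one])
    exact Multiplicative.ofAdd.injective h6
  obtain ⟨s, ℓ, _, hl, hneg⟩ := selection (fun τ => {ℓ | IsTest u τ ℓ})
    (fun T' hT' x hx => positivityV u huinj T' hT' x hx) Set.univ Set.infinite_univ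
  have hex : ∀ τ : ℤ, ∃ φ : Γ → ℝ, τ ∈ s → IsVTest ρ τ φ ∧ (∀ γ, 0 ≤ φ γ) ∧
      ∀ (ν : Zd r) (g : Γ),
        φ ((e ν : Γ) * g) = Real.exp (∑ j, (ν.toAdd j : ℝ) * ℓ τ j) * φ g := by
    intro τ
    by_cases hτ : τ ∈ s
    · have ht := hl τ hτ
      rw [hu] at ht
      obtain ⟨φ, hφ⟩ := v17_test hV ρ κ h2 h3 e ht
      exact ⟨φ, fun _ => hφ⟩
    · exact ⟨0, fun h => absurd h hτ⟩
  choose φ hφ using hex
  refine ⟨s, φ, fun τ hτ => (hφ τ hτ).1, fun δ hδ => ?_⟩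
  -- a finite set of representatives
  obtain ⟨R, hR⟩ : ∃ R : Finset Γ, ∀ γ : Γ, ∃ ν : Zd r, ∃ g ∈ R, γ = (e ν : Γ) * g := by
    have : Finite (Γ ⧸ Γ₀) := inferInstance
    obtain ⟨_⟩ := nonempty_fintype (Γ ⧸ Γ₀)
    refine ⟨(F ×ˢ (Finset.univ : Finset (Γ ⧸ Γ₀))).image fun p => (p.1 : Γ) * (p.2.out)⁻¹,
      fun γ => ?_⟩
    have h5 : (((γ⁻¹ : Γ) : Γ ⧸ Γ₀).out)⁻¹ * γ⁻¹ ∈ Γ₀ :=
      QuotientGroup.eq.1 (Quotient.out_eq' ((γ⁻¹ : Γ) : Γ ⧸ Γ₀))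
    obtain ⟨ν, f, hf, hνf⟩ := hdec (⟨_, h5⟩ : Γ₀)⁻¹
    refine ⟨ν, (f : Γ) * ((((γ⁻¹ : Γ) : Γ ⧸ Γ₀).out)⁻¹), Finset.mem_image.2
      ⟨(f, ((γ⁻¹ : Γ) : Γ ⧸ Γ₀)), Finset.mem_product.2 ⟨hf, Finset.mem_univ _⟩, rfl⟩, ?_⟩
    have h6 := congrArg (fun x : Γ₀ => (x : Γ)) hνf
    have h7 : ((((γ⁻¹ : Γ) : Γ ⧸ Γ₀).out)⁻¹ * γ⁻¹)⁻¹ = (e ν : Γ) * (f : Γ) := h6
    rw [← mul_assoc, ← h7, mul_inv_rev, inv_inv, inv_inv, mul_assoc, mul_inv_cancel, mul_one]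
  obtain ⟨C, hC⟩ : ∃ C : ℝ, C = 1 + ∑ τ ∈ s, ∑ g ∈ R, φ τ g := ⟨_, rfl⟩
  have hnn : ∀ τ ∈ s, 0 ≤ ∑ g ∈ R, φ τ g := fun τ hτ =>
    Finset.sum_nonneg fun g _ => (hφ τ hτ).2.1 g
  have hC0 : 0 < C := by
    rw [hC]
    have := Finset.sum_nonneg hnn
    linarith
  have hCle : ∀ τ ∈ s, ∀ g ∈ R, φ τ g ≤ C := by
    intro τ hτ g hg
    have h5 : φ τ g ≤ ∑ g ∈ R, φ τ g :=
      Finset.single_le_sum (f := φ τ) (fun g _ => (hφ τ hτ).2.1 g) hg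
    have h6 : ∑ g ∈ R, φ τ g ≤ ∑ τ ∈ s, ∑ g ∈ R, φ τ g :=
      Finset.single_le_sum (f := fun τ => ∑ g ∈ R, φ τ g) hnn hτ
    rw [hC]
    linarith
  have hfin := v17_compact s ℓ hneg (1 - Real.log (δ / C))
  refine (((hfin.prod R.finite_toSet).image
    fun p : (Fin r → ℤ) × Γ => (e (Multiplicative.ofAdd p.1) : Γ) * p.2)).subset fun γ hγ => ?_
  obtain ⟨ν, g, hg, hνg⟩ := hR γ
  refine ⟨(ν.toAdd, g), ⟨fun τ hτ => ?_, hg⟩, hνg.symm⟩
  have h5 : δ ≤ Real.exp (∑ j, (ν.toAdd j : ℝ) * ℓ τ j) * C := by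
    have h6 := hγ τ hτ
    rw [hνg, (hφ τ hτ).2.2 ν g] at h6
    exact h6.trans (mul_le_mul_of_nonneg_left (hCle τ hτ g hg) (Real.exp_nonneg _))
  have h6 : Real.log (δ / C) ≤ ∑ j, (ν.toAdd j : ℝ) * ℓ τ j := by
    rw [Real.log_le_iff_le_exp (div_pos hδ hC0), div_le_iff₀ hC0]
    exact h5
  show -(1 - Real.log (δ / C)) < ∑ j, (ν.toAdd j : ℝ) * ℓ τ j
  linarith

end Pool.Agent.LibNV
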