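import Mathlib
import Pool.Agent.LibNM.N08
import Pool.Agent.LibNV.Defs
import Pool.Agent.LibNV.V16

set_option autoImplicit false

/-! [NV V18] Non-recurrent characters from tests.

PLAN. For `τ ∈ s` unpack the test (`choose` on `s`): `K_τ`, `f_τ`, `v_τ` with `f_τ v_τ = 1`,
`f_τ (X • x) = τ f_τ x`, `φ τ γ = ‖f_τ (ρ γ v_τ)‖`; by induction `f_τ (p • x) = evK K_τ τ p * f_τ x` for all `p : ℚ[X]`
(additive maps between `ℚ`-vector spaces are `ℚ`-linear). `GoodField` gives `ψ_τ : AddChar K_τ Circle` with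
`ψ_τ → 1` at `0` and `ψ_τ 1 ≠ 1`. Choose `δ > 0` such that for all `τ ∈ s` and `z : K_τ`: `‖z‖ < δ` implies
`dist (ψ_τ z) 1 ≤ dist (ψ_τ 1) 1 / 2`. The set `B₀ := {γ | ∀ τ ∈ s, δ ≤ φ τ γ}` is finite (`hs`). For `γ ∈ B₀`,
`γ ≠ 1`, choose `y_γ : V` with `z_γ := ρ γ y_γ - y_γ ≠ 0` (`h4`).
`generic_point` (V16) with `Y = {z_γ | γ ∈ B₀, γ ≠ 1}`, `T = s`: `τ*` and `f* : V →+ ℂ`.
Let `s' = s ∪ {τ*}` and `g_τ := ∏_(τ' ∈ s', τ' ≠ τ) (X - C τ') : ℚ[X]`: `f_τ' (g_τ • x) = 0` for `τ' ≠ τ` in `s'` and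
`f_τ (g_τ • x) = c_τ f_τ x` with `c_τ = ∏ (τ - τ') ≠ 0`. By `hι` choose `n_τ ≠ 0`, `b_τ : B` with `ι b_τ = n_τ • g_τ • v_τ`
(`τ ∈ s`), and `n_γ ≠ 0`, `b_γ : B` with `ι b_γ = n_γ • g_(τ*) • y_γ` (`γ ∈ B₀`, `γ ≠ 1`).
Characters: `ψ* := ψ` of `generic_char` (N08) for the finite set `Z := {f* (ρ γ (ι b_γ) - ι b_γ)}` of nonzero numbers, and
`χ b := ∏_(τ ∈ s) ψ_τ (f_τ (ι b) / (n_τ * c_τ)) * ψ* (f* (ι b))`, an additive character of `B`.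
(1) Let `γ ∉ B₀`: there is `τ ∈ s` with `φ τ γ < δ`. `ρ γ` commutes with `ℚ[X]` (`h1`), so
`f_τ' (ι (α γ b_τ)) = f_τ' (g_τ • ρ γ (n_τ v_τ)) = 0` for `τ' ≠ τ`, also for `f*`, and
`χ (α γ b_τ) = ψ_τ (f_τ (ρ γ v_τ))`, `χ b_τ = ψ_τ 1`: the distance is at least `dist (ψ_τ 1) 1 / 2`.
(2) Let `γ ∈ B₀`, `γ ≠ 1`: `ι (α γ b_γ - b_γ) = n_γ • g_(τ*) • z_γ`, all `f_τ`, `τ ∈ s`, vanish there, and
`f* (..) = n_γ c_(τ*) f* (z_γ) ≠ 0`, so `χ (α γ b_γ) / χ (b_γ) = ψ* (..) ≠ 1`: a positive distance.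
Take `ε` as the minimum of these finitely many positive numbers (and `1`), `E₀ := {b_τ} ∪ {b_γ}`. -/

namespace Pool.Agent.LibNV

open Polynomial Filter Topology Pool.Agent.LibNM

/-- a finite set of positive numbers has a positive lower bound -/
private theorem v18_min {α : Type*} (S : Finset α) (g : α → ℝ) (hg : ∀ a ∈ S, 0 < g a) :
    ∃ ε : ℝ, 0 < ε ∧ ∀ a ∈ S, ε ≤ g a := by
  classical
  induction S using Finset.induction_on with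
  | empty => exact ⟨1, one_pos, fun a ha => absurd ha (Finset.notMem_empty a)⟩
  | insert a S _ ih =>
    obtain ⟨ε, hε, h⟩ := ih fun b hb => hg b (Finset.mem_insert_of_mem hb)
    refine ⟨min ε (g a), lt_min hε (hg a (Finset.mem_insert_self a S)), fun b hb => ?_⟩
    rcases Finset.mem_insert.1 hb with rfl | hb
    · exact min_le_right _ _
    · exact (min_le_left _ _).trans (h b hb)

private theorem v18_evK (K : Type) [Field K] [CharZero K] (τ : ℤ) (p : ℚ[X]) :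
    evK K τ p = algebraMap ℚ K (p.eval (τ : ℚ)) := by
  unfold evK
  rw [coe_eval₂RingHom, ← map_intCast (algebraMap ℚ K) τ, eval₂_at_apply]

/-- an additive map on which `X` acts as the integer `τ` -/
private theorem v18_lin {V : Type} [AddCommGroup V] [Module ℚ[X] V] {K : Type} [Field K]
    [CharZero K] (τ : ℤ) (f : V →+ K) (hf : ∀ x, f ((X : ℚ[X]) • x) = (τ : K) * f x)
    (p : ℚ[X]) (x : V) : f (p • x) = evK K τ p * f x := by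
  let _ : Module ℚ V := Module.compHom V (C : ℚ →+* ℚ[X])
  have hC : ∀ (a : ℚ) (x : V), f ((C a : ℚ[X]) • x) = algebraMap ℚ K a * f x := by
    intro a x
    have h1 : f (a • x) = a • f x := map_rat_smul f a x
    have h2 : (a • x : V) = (C a : ℚ[X]) • x := rfl
    rw [← h2, h1, Algebra.smul_def]
  induction p using Polynomial.induction_on' with
  | add p q hp hq => rw [add_smul, map_add, hp, hq, map_add, add_mul]
  | monomial n a =>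
    induction n generalizing x with
    | zero =>
      rw [monomial_zero_left, hC, v18_evK, eval_C]
    | succ n ih =>
      have h1 : (monomial (n + 1) a : ℚ[X]) = monomial n a * X := by
        rw [monomial_mul_X]
      rw [h1, mul_smul, ih, hf, map_mul]
      have h2 : evK K τ X = (τ : K) := by
        rw [v18_evK, eval_X, map_intCast]
      rw [h2, mul_assoc]

section

variable {Γ V : Type} [Group Γ] [AddCommGroup V] [Module ℚ[X] V] (ρ : Γ →* AddMonoid.End V)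
  {B : Type} [AddCommGroup B] (α : Γ → B → B) (ι : B →+ V)

/-- the character of a test -/
private theorem v18_test
    (h1 : ∀ γ (p : ℚ[X]) (x : V), ρ γ (p • x) = p • ρ γ x)
    (hα : ∀ γ b, ι (α γ b) = ρ γ (ι b)) (hι : ∀ x : V, ∃ n : ℤ, n ≠ 0 ∧ ∃ b, n • x = ι b)
    (τ : ℤ) (φ : Γ → ℝ) (hφ : IsVTest ρ τ φ) :
    ∃ δ ε : ℝ, 0 < δ ∧ 0 < ε ∧ ∀ g : ℚ[X], g.eval (τ : ℚ) ≠ 0 →
      ∃ (Y : AddChar V Circle) (b : B),
        (∀ (p : ℚ[X]) (x : V), p.eval (τ : ℚ) = 0 → Y (p • x) = 1) ∧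
        (∃ x, ι b = g • x) ∧
        ∀ γ, φ γ < δ → ε ≤ dist (Y (ι (α γ b))) (Y (ι b)) := by
  obtain ⟨K, iK, hgood, hchar, f, v, hf, hfv, hφ⟩ := hφ
  have hlin := v18_lin τ f hf
  obtain ⟨ψ, hψ, hψ1⟩ := hgood 1 one_ne_zero
  have ha : 0 < dist (ψ 1) 1 := dist_pos.2 hψ1
  obtain ⟨δ, hδ, hδ2⟩ := Metric.tendsto_nhds_nhds.1 hψ (dist (ψ 1) 1 / 2) (by linarith)
  refine ⟨δ, dist (ψ 1) 1 / 2, hδ, by linarith, fun g hg => ?_⟩
  obtain ⟨n, hn, b, hb⟩ := hι (g • v)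
  have hc : (n : K) * evK K τ g ≠ 0 := by
    rw [v18_evK]
    refine mul_ne_zero (Int.cast_ne_zero.2 hn) ?_
    rw [Ne, map_eq_zero]
    exact hg
  let Y : AddChar V Circle := ψ.compAddMonoidHom
    ((AddMonoidHom.mulLeft ((n : K) * evK K τ g)⁻¹).comp f)
  have hY : ∀ x, Y x = ψ (((n : K) * evK K τ g)⁻¹ * f x) := fun x => rfl
  have hfb : ∀ γ, f (ι (α γ b)) = ((n : K) * evK K τ g) * f (ρ γ v) := by
    intro γ
    rw [hα, ← hb, map_zsmul, map_zsmul, h1, hlin, zsmul_eq_mul, mul_assoc]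
  have hfb0 : f (ι b) = (n : K) * evK K τ g := by
    rw [← hb, map_zsmul, hlin, zsmul_eq_mul, hfv, mul_one]
  refine ⟨Y, b, fun p x hp => ?_, ⟨n • v, by rw [← hb, smul_comm]⟩, fun γ hγ => ?_⟩
  · rw [hY, hlin, v18_evK K τ p, hp, map_zero, zero_mul, mul_zero, AddChar.map_zero_eq_one]
  · rw [hY, hY, hfb, hfb0, inv_mul_cancel₀ hc, inv_mul_cancel_left₀ hc]
    have h2 : dist (ψ (f (ρ γ v))) 1 < dist (ψ 1) 1 / 2 := by
      refine hδ2 ?_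
      rw [dist_zero_right, ← hφ]
      exact hγ
    have h3 := dist_triangle (ψ 1) (ψ (f (ρ γ v))) 1
    rw [dist_comm (ψ 1) (ψ (f (ρ γ v)))] at h3
    linarith

end

theorem nonrecurrentV {Γ V : Type} [Group Γ] [AddCommGroup V] [Module ℚ[X] V]
    [Module.Finite ℚ[X] V] [Module.Free ℚ[X] V] (ρ : Γ →* AddMonoid.End V)
    (h1 : ∀ γ (p : ℚ[X]) (x : V), ρ γ (p • x) = p • ρ γ x)
    (h4 : ∀ γ, (∀ x, ρ γ x = x) → γ = 1) (s : Finset ℤ) (φ : ℤ → Γ → ℝ)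
    (hφ : ∀ τ ∈ s, IsVTest ρ τ (φ τ))
    (hs : ∀ δ : ℝ, 0 < δ → {γ : Γ | ∀ τ ∈ s, δ ≤ φ τ γ}.Finite)
    {B : Type} [AddCommGroup B] (α : Γ → B → B) (ι : B →+ V)
    (hα : ∀ γ b, ι (α γ b) = ρ γ (ι b)) (hι : ∀ x : V, ∃ n : ℤ, n ≠ 0 ∧ ∃ b, n • x = ι b) :
    ∃ (χ : AddChar B Circle) (E₀ : Finset B) (ε : ℝ), 0 < ε ∧
      ∀ γ : Γ, γ ≠ 1 → ∃ b ∈ E₀, ε ≤ dist (χ (α γ b)) (χ b) := by
  classical
  -- the constants of the tests
  have ht : ∀ τ : ℤ, ∃ δ ε : ℝ, 0 < δ ∧ 0 < ε ∧ (τ ∈ s → ∀ g : ℚ[X], g.eval (τ : ℚ) ≠ 0 →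
      ∃ (Y : AddChar V Circle) (b : B),
        (∀ (p : ℚ[X]) (x : V), p.eval (τ : ℚ) = 0 → Y (p • x) = 1) ∧
        (∃ x, ι b = g • x) ∧
        ∀ γ, φ τ γ < δ → ε ≤ dist (Y (ι (α γ b))) (Y (ι b))) := by
    intro τ
    by_cases hτ : τ ∈ s
    · obtain ⟨δ, ε, hδ, hε, h⟩ := v18_test ρ α ι h1 hα hι τ (φ τ) (hφ τ hτ)
      exact ⟨δ, ε, hδ, hε, fun _ => h⟩
    · exact ⟨1, 1, one_pos, one_pos, fun h => absurd h hτ⟩
  choose δt εt hδt hεt hY using ht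
  obtain ⟨δ, hδ, hδ2⟩ := v18_min s δt fun τ _ => hδt τ
  obtain ⟨ε₁, hε₁, hε₁2⟩ := v18_min s εt fun τ _ => hεt τ
  obtain ⟨B₀, hB₀⟩ : ∃ B₀ : Finset Γ, B₀ = (hs δ hδ).toFinset := ⟨_, rfl⟩
  -- the vectors `y`
  have hy : ∀ γ : Γ, ∃ y : V, γ ≠ 1 → ρ γ y - y ≠ 0 := by
    intro γ
    by_cases hγ : γ = 1
    · exact ⟨0, fun h => absurd hγ h⟩
    · by_contra hcon
      push Not at hcon
      exact hγ (h4 γ fun x => sub_eq_zero.1 (hcon x).2)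
  choose y hy using hy
  obtain ⟨τ₀, hτ₀, f, hf, hfY⟩ := generic_point
    ((B₀.filter fun γ => γ ≠ 1).image fun γ => ρ γ (y γ) - y γ) (by
      intro h
      obtain ⟨γ, hγ, h0⟩ := Finset.mem_image.1 h
      exact hy γ (Finset.mem_filter.1 hγ).2 h0) s
  obtain ⟨g, hg⟩ : ∃ g : ℤ → ℚ[X], g = fun τ => ∏ τ' ∈ (insert τ₀ s).erase τ,
    (X - C (τ' : ℚ)) := ⟨_, rfl⟩
  have hg1 : ∀ τ : ℤ, (g τ).eval (τ : ℚ) ≠ 0 := by
    intro τ
    rw [hg]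
    simp only
    rw [eval_prod]
    refine Finset.prod_ne_zero_iff.2 fun τ' hτ' => ?_
    rw [eval_sub, eval_X, eval_C, sub_ne_zero]
    intro h
    exact (Finset.mem_erase.1 hτ').1 (Int.cast_injective h.symm)
  have hg2 : ∀ τ, ∀ τ' ∈ insert τ₀ s, τ' ≠ τ → (g τ).eval (τ' : ℚ) = 0 := by
    intro τ τ' hτ' hne
    rw [hg]
    simp only
    rw [eval_prod]
    refine Finset.prod_eq_zero (Finset.mem_erase.2 ⟨hne, hτ'⟩) ?_
    rw [eval_sub, eval_X, eval_C, sub_self]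
  have hY' : ∀ τ : ℤ, ∃ (Y : AddChar V Circle) (b : B), τ ∈ s →
      (∀ (p : ℚ[X]) (x : V), p.eval (τ : ℚ) = 0 → Y (p • x) = 1) ∧
      (∃ x, ι b = g τ • x) ∧
      ∀ γ, φ τ γ < δt τ → εt τ ≤ dist (Y (ι (α γ b))) (Y (ι b)) := by
    intro τ
    by_cases hτ : τ ∈ s
    · obtain ⟨Y, b, h⟩ := hY τ hτ (g τ) (hg1 τ)
      exact ⟨Y, b, fun _ => h⟩
    · exact ⟨1, 0, fun h => absurd h hτ⟩
  choose Y b hYb using hY'
  choose n hn b' hb' using fun γ : Γ => hι (g τ₀ • y γ)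
  obtain ⟨ψ, hψ⟩ := generic_char
    ((fun γ : Γ => f (ρ γ (ι (b' γ)) - ι (b' γ))) '' (B₀ : Set Γ))
    ((Finset.countable_toSet B₀).image _)
  let Y₀ : AddChar V Circle := ψ.compAddMonoidHom f
  have hY₀ : ∀ x, Y₀ x = ψ (f x) := fun x => rfl
  have hY₀1 : ∀ (p : ℚ[X]) (x : V), p.eval (τ₀ : ℚ) = 0 → Y₀ (p • x) = 1 := by
    intro p x hp
    rw [hY₀, hf, v18_evK, hp, map_zero, zero_mul, AddChar.map_zero_eq_one]
  let Ξ : AddChar V Circle := (∏ τ ∈ s, Y τ) * Y₀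
  have hΞ : ∀ x, Ξ x = (∏ τ ∈ s, Y τ x) * Y₀ x := by
    intro x
    simp only [Ξ]
    rw [AddChar.mul_apply, AddChar.prod_apply]
  have hΞ1 : ∀ τ ∈ s, ∀ x, Ξ (g τ • x) = Y τ (g τ • x) := by
    intro τ hτ x
    have hne : τ₀ ≠ τ := fun h => hτ₀ (h ▸ hτ)
    rw [hΞ, hY₀1 _ _ (hg2 τ τ₀ (Finset.mem_insert_self _ _) hne), mul_one]
    refine Finset.prod_eq_single τ (fun τ' hτ' hne' => ?_) (fun h => absurd hτ h)
    exact (hYb τ' hτ').1 _ _ (hg2 τ τ' (Finset.mem_insert_of_mem hτ') hne')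
  have hΞ2 : ∀ x, Ξ (g τ₀ • x) = Y₀ (g τ₀ • x) := by
    intro x
    rw [hΞ]
    have h2 : ∏ τ ∈ s, Y τ (g τ₀ • x) = 1 := by
      refine Finset.prod_eq_one fun τ hτ => ?_
      exact (hYb τ hτ).1 _ _ (hg2 τ₀ τ (Finset.mem_insert_of_mem hτ) fun h => hτ₀ (h ▸ hτ))
    rw [h2, one_mul]
  -- the elements of `B₀`
  have hpos : ∀ γ ∈ B₀.filter fun γ => γ ≠ 1, 0 < dist (Ξ (ι (α γ (b' γ)))) (Ξ (ι (b' γ))) := by
    intro γ hγ
    obtain ⟨hγB, hγ1⟩ := Finset.mem_filter.1 hγ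
    refine dist_pos.2 fun heq => ?_
    have e1 : ι (b' γ) = g τ₀ • (n γ • y γ) := by rw [← hb', smul_comm]
    have e2 : ι (α γ (b' γ)) = g τ₀ • (n γ • ρ γ (y γ)) := by
      rw [hα, e1, h1, map_zsmul]
    have e3 : f (ρ γ (ι (b' γ)) - ι (b' γ)) ≠ 0 := by
      have e4 : ρ γ (ι (b' γ)) - ι (b' γ) = g τ₀ • (n γ • (ρ γ (y γ) - y γ)) := by
        rw [← hα, e1, e2, ← smul_sub, ← smul_sub]
      rw [e4, hf, map_zsmul, zsmul_eq_mul, v18_evK]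
      refine mul_ne_zero ?_ (mul_ne_zero (Int.cast_ne_zero.2 (hn γ)) ?_)
      · rw [Ne, map_eq_zero]
        exact hg1 τ₀
      · exact hfY _ (Finset.mem_image.2 ⟨γ, hγ, rfl⟩)
    have e5 := hψ _ ⟨γ, hγB, rfl⟩ e3
    apply e5
    have e6 : Ξ (ι (α γ (b' γ))) = Y₀ (ι (α γ (b' γ))) := by rw [e2, hΞ2]
    have e7 : Ξ (ι (b' γ)) = Y₀ (ι (b' γ)) := by rw [e1, hΞ2]
    rw [e6, e7, hY₀, hY₀, hα] at heq
    have e8 : ψ (f (ρ γ (ι (b' γ)))) = ψ (f (ι (b' γ))) *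
        ψ (f (ρ γ (ι (b' γ)) - ι (b' γ))) := by
      rw [← AddChar.map_add_eq_mul, ← map_add]
      congr 2
      abel
    rw [heq] at e8
    exact mul_left_cancel (e8.symm.trans (mul_one _).symm)
  obtain ⟨ε₂, hε₂, hε₂2⟩ := v18_min _ _ hpos
  refine ⟨Ξ.compAddMonoidHom ι, s.image b ∪ B₀.image b', min ε₁ ε₂, lt_min hε₁ hε₂,
    fun γ hγ => ?_⟩
  by_cases hγB : γ ∈ B₀
  · refine ⟨b' γ, Finset.mem_union_right _ (Finset.mem_image_of_mem b' hγB),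
      (min_le_right _ _).trans ?_⟩
    exact hε₂2 γ (Finset.mem_filter.2 ⟨hγB, hγ⟩)
  · have h2 : ∃ τ ∈ s, φ τ γ < δ := by
      by_contra hcon
      push Not at hcon
      apply hγB
      rw [hB₀, Set.Finite.mem_toFinset]
      exact hcon
    obtain ⟨τ, hτ, hlt⟩ := h2
    refine ⟨b τ, Finset.mem_union_left _ (Finset.mem_image_of_mem b hτ),
      (min_le_left _ _).trans ?_⟩
    obtain ⟨x, hx⟩ := (hYb τ hτ).2.1
    have e1 : ι (α γ (b τ)) = g τ • ρ γ x := by rw [hα, hx, h1]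
    have e2 : (Ξ.compAddMonoidHom ι) (α γ (b τ)) = Y τ (ι (α γ (b τ))) := by
      show Ξ (ι (α γ (b τ))) = _
      rw [e1, hΞ1 τ hτ]
    have e3 : (Ξ.compAddMonoidHom ι) (b τ) = Y τ (ι (b τ)) := by
      show Ξ (ι (b τ)) = _
      rw [hx, hΞ1 τ hτ]
    rw [e2, e3]
    exact (hε₁2 τ hτ).trans ((hYb τ hτ).2.2 γ (hlt.trans_le (hδ2 τ hτ)))

end Pool.Agent.LibNV
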