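import Mathlib
import Pool.Agent.LibND.N22
import Pool.Agent.LibNV.Defs
import Pool.Agent.LibNV.V04
import Pool.Agent.LibNV.V07
import Pool.Agent.LibNV.V08
import Pool.Agent.LibNV.V13
import Pool.Agent.LibNV.V16
import Pool.Agent.LibNV.V17
import Pool.Agent.LibNV.V18

set_option autoImplicit false

/-! [NV V20] The theorem. -/

namespace Pool.Agent.LibNV

open Pool.Agent.LibND Pool.Agent.LibNM Polynomial

universe w

theorem main_of_JI {G₂ A Γ M : Type} [Group G₂] [AddCommGroup A] [Group Γ] [AddCommGroup M]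
    (α : Γ →* AddMonoid.End A) (j : Multiplicative A →* G₂) (π : G₂ →* Γ) (Γ₀ : Subgroup Γ)
    (β : Γ →* AddMonoid.End M) (i : M →+ A) (hext : IsExt α j π) (hi : Function.Injective i)
    (hβ : ∀ γ m, i (β γ m) = α γ (i m)) (hJ : JI β Γ₀) {G : Type} [Group G] (p : G →* G₂)
    (hp : Function.Surjective p) {C : Type w} [CStarAlgebra C] [PartialOrder C]
    [StarOrderedRing C] (U : G →* unitary C) (hC : IsGroupCStar G C U) (n : ℕ) :
    ¬ NucDimLE C n := by
  classical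
  obtain ⟨V, _, _, ρ, ι, hι, hιρ, hιV, hQ⟩ := rationalize β Γ₀ hJ
  obtain ⟨E, _, _, _, _, _, _, _, _, _, _, _, κ, h1, h2, h3⟩ := structureV ρ Γ₀ hQ
  haveI := hQ.fin
  haveI : Nontrivial V := by
    by_contra h
    rw [not_nontrivial_iff_subsingleton] at h
    exact hQ.inf inferInstance
  let ρ' : Γ →* AddMonoid.End V :=
    { toFun := fun γ => (ρ γ).toAddMonoidHom
      map_one' := by
        ext x
        rw [map_one]
        rfl
      map_mul' := fun a b => by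
        ext x
        rw [map_mul]
        rfl }
  have hρ' : ∀ γ x, ρ' γ x = ρ γ x := fun γ x => rfl
  have h4 : ∀ γ, (∀ x, ρ' γ x = x) → γ = 1 := hQ.faith
  obtain ⟨s, φ, hφ, hs⟩ := tests hQ.fg Γ₀ hQ.comm ρ' κ (fun γ x => h2 γ x) h3 h4
  obtain ⟨g, a, hg, ha⟩ := independentV ι hιV (n + 1)
  have hginj : ∀ x y : V, g • x = g • y → x = y := by
    intro x y hxy
    have : g • (x - y) = 0 := by rw [smul_sub, hxy, sub_self]
    rcases smul_eq_zero.1 this with h | h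
    · exact absurd h hg
    · exact sub_eq_zero.1 h
  -- the subgroup `B`
  let BM : AddSubgroup M :=
    { carrier := {m | ∃ x : V, ι m = g • x}
      zero_mem' := ⟨0, by simp⟩
      add_mem' := by
        rintro m m' ⟨x, hx⟩ ⟨y, hy⟩
        exact ⟨x + y, by rw [map_add, hx, hy, smul_add]⟩
      neg_mem' := by
        rintro m ⟨x, hx⟩
        exact ⟨-x, by rw [map_neg, hx, smul_neg]⟩ }
  have hBM : ∀ m, m ∈ BM ↔ ∃ x : V, ι m = g • x := fun m => Iff.rfl
  choose q hq using fun m : BM => (hBM m).1 m.2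
  let ιB : BM →+ V :=
    { toFun := q
      map_zero' := by
        apply hginj
        rw [← hq, smul_zero]
        simp
      map_add' := fun x y => by
        apply hginj
        rw [← hq, smul_add, ← hq, ← hq]
        simp }
  have hιB : ∀ b : BM, ι b = g • ιB b := hq
  have hβB : ∀ γ, ∀ m ∈ BM, β γ m ∈ BM := by
    rintro γ m ⟨x, hx⟩
    exact ⟨ρ γ x, by rw [hιρ, hx, h1]⟩
  let αB : Γ → BM → BM := fun γ b => ⟨β γ b, hβB γ b b.2⟩
  have hαB : ∀ γ b, ιB (αB γ b) = ρ' γ (ιB b) := by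
    intro γ b
    apply hginj
    rw [← hιB, hρ', ← h1, ← hιB, ← hιρ]
  have hιBV : ∀ x : V, ∃ n : ℤ, n ≠ 0 ∧ ∃ b, n • x = ιB b := by
    intro x
    obtain ⟨m, hm, b, hb⟩ := hιV (g • x)
    have hb' : ι b = g • (m • x) := by rw [← hb, smul_comm]
    refine ⟨m, hm, ⟨b, ⟨m • x, hb'⟩⟩, ?_⟩
    apply hginj
    rw [← hιB]
    exact hb'.symm
  obtain ⟨χ, E₀, ε, hε, hχ⟩ := nonrecurrentV ρ' (fun γ q x => h1 γ q x) h4 s φ hφ hs αB ιB hαB hιBV
  -- transfer to `A`
  let iB : BM →+ A := i.comp BM.subtype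
  have hiB : Function.Injective iB := hi.comp BM.subtype_injective
  let e : BM ≃+ iB.range := AddMonoidHom.ofInjective hiB
  have he : ∀ x, ((e x : iB.range) : A) = iB x := fun x => rfl
  obtain ⟨χ', hχ'⟩ := ext_circle iB.range (χ.compAddMonoidHom e.symm.toAddMonoidHom)
  have hχ'f : ∀ x, χ' (iB x) = χ x := by
    intro x
    rw [← he, hχ']
    simp
  have hαi : ∀ γ b, α γ (iB b) = iB (αB γ b) := fun γ b => (hβ γ b).symm
  refine moduleCriterion p hp α j π hext U hC iB.range ?_ χ' (E₀.image iB) ?_ ε hε ?_ (n + 1)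
    (fun l => i (a l)) ?_ n (Nat.lt_succ_self n)
  · rintro γ b ⟨x, rfl⟩
    exact ⟨αB γ x, (hαi γ x).symm⟩
  · intro b hb
    obtain ⟨x, -, rfl⟩ := Finset.mem_image.1 hb
    exact ⟨x, rfl⟩
  · intro γ hγ
    obtain ⟨b, hb, hd⟩ := hχ γ hγ
    refine ⟨iB b, Finset.mem_image_of_mem iB hb, ?_⟩
    rw [hαi, hχ'f, hχ'f]
    exact hd
  · rintro c ⟨b, hb⟩
    refine ha c ?_
    have h5 : ((b : BM) : M) = ∑ l, c l • a l := by
      apply hi
      have h6 : i (b : M) = iB b := rfl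
      rw [h6, hb, map_sum]
      simp
    rw [← h5]
    exact b.2

theorem mainV {G₀ : Type} [Group G₀] (hfg : Group.FG G₀) (N G₁ : Subgroup G₀) [N.Normal]
    [G₁.FiniteIndex] (hQ : ∀ a ∈ G₁, ∀ b ∈ G₁, a * b * a⁻¹ * b⁻¹ ∈ N) (i : ℕ)
    (hinf : InfRank (N.lowerCentralSeries i) (N.lowerCentralSeries (i + 1)))
    {G : Type} [Group G] (p : G →* G₀) (hp : Function.Surjective p)
    {C : Type w} [CStarAlgebra C] [PartialOrder C] [StarOrderedRing C] (U : G →* unitary C)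
    (hC : IsGroupCStar G C U) (n : ℕ) : ¬ NucDimLE C n := by
  obtain ⟨G', _, q, N', G₁', hq, hfg', hN'1, hG'1, hG'2, hNG, hNab, hQ', hinf'⟩ :=
    reduceNil hfg N G₁ hQ i hinf
  haveI := hN'1
  haveI := hG'1
  haveI := hG'2
  obtain ⟨G₂, A, Γ, M, _, _, _, _, p₂, α, j, π, Γ₀, β, i', hp₂, hext, hi', hβ, hJ⟩ :=
    reductionV hfg' N' G₁' hNG hNab hQ' hinf'
  exact main_of_JI α j π Γ₀ β i' hext hi' hβ hJ (p₂.comp (q.comp p))
    (hp₂.comp (hq.comp hp)) U hC n

end Pool.Agent.LibNV
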